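import Mathlib
import Pool.Agent.Lib.P4a7640.Corr
import Pool.Agent.Lib.P4a7640M.Base
import Pool.Agent.Lib.P4a7640L.Base

/-!
# Parameters: the window of primes and the window of integers
-/

open Filter MeasureTheory

namespace Pool.Agent.Lib.P4a7640Y

open Pool.Agent.Lib.P4a7640 Pool.Agent.Lib.P4a7640M

/-- `A` is a union of at most `k` intervals -/
def KInt (k : ℕ) (A : Set ℝ) : Prop :=
  ∃ s : Finset (Set ℝ), s.card ≤ k ∧ (∀ J ∈ s, J.OrdConnected) ∧ A = ⋃ J ∈ s, J

/-- the smaller of the measures of `A` and of its complement in `[0, 1)` -/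
noncomputable def dl (A : Set ℝ) : ℝ :=
  min (volume (A ∩ Set.Ico (0:ℝ) 1)).toReal (1 - (volume (A ∩ Set.Ico (0:ℝ) 1)).toReal)

open Classical in
/-- the signs: `-1` if `α a_p` lies in `A_p` modulo one, and `1` otherwise -/
noncomputable def xg (A : ℕ → Set ℝ) (a : ℕ → ℕ) (α : ℝ) : SS :=
  fun p => if Int.fract (α * a p) ∈ A p then -1 else 1

/-- upper end of the window of primes -/
noncomputable def zup (N : ℕ) : ℝ := Real.exp (Real.log N / lam N ^ 4)

/-- `p` lies in the window of primes -/
def InW (N p : ℕ) : Prop := p.Prime ∧ Real.log N < p ∧ (p : ℝ) ≤ zup N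

open Classical in
/-- the primes in the window -/
noncomputable def DA (N : ℕ) : Finset ℕ := (Finset.Icc 1 N).filter (fun p => InW N p)

/-- the left end of the window of integers -/
noncomputable def Mw (N : ℕ) : ℕ := ⌈Real.exp (Real.log N / lam N ^ 2)⌉₊

/-- the number of cells in the decoupling -/
noncomputable def QN (N : ℕ) : ℕ := ⌈lam N ^ 5⌉₊

/-- the bound for the ratios in the covariance estimate -/
noncomputable def RN (N : ℕ) : ℕ := ⌈Real.exp (lam N / 3)⌉₊

end Pool.Agent.Lib.P4a7640Y
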