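import Mathlib
import Pool.Agent.Lib.P4a7640M.Osc
import Pool.Agent.Lib.P4a7640M.PCPhi

/-!
# Sign functions on the circle: basic definitions
-/

open MeasureTheory Filter

namespace Pool.Agent.Lib.P4a7640Y

open Pool.Agent.Lib.P4a7640 Pool.Agent.Lib.P4a7640M

/-- the periodic function `phi A` as a function on the circle -/
noncomputable def phiC (A : Set ℝ) : UnitAddCircle → ℝ := (phi_periodic A).lift

/-- small shifts change `u` little in mean -/
def LL1 (L : ℝ) (u : UnitAddCircle → ℝ) : Prop :=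
  ∀ s : ℝ, 0 ≤ s → ∫ x, |u (x + (s : UnitAddCircle)) - u x| ≤ L * s

/-- the correlation of `u` with its shift by `h` -/
noncomputable def AC (u : UnitAddCircle → ℝ) (h : UnitAddCircle) : ℝ := ∫ x, u x * u (x + h)

instance : IsProbabilityMeasure (volume : Measure UnitAddCircle) :=
  ⟨UnitAddCircle.measure_univ⟩

lemma int_bdd {α : Type*} [MeasurableSpace α] {μ : Measure α} [IsFiniteMeasure μ] {f : α → ℝ}
    (hf : Measurable f) {C : ℝ} (h : ∀ x, |f x| ≤ C) : Integrable f μ :=
  Integrable.of_bound hf.aestronglyMeasurable C (Eventually.of_forall fun x => by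
    rw [Real.norm_eq_abs]; exact h x)

lemma abs_int_le {α : Type*} [MeasurableSpace α] {μ : Measure α} [IsProbabilityMeasure μ] {f : α → ℝ}
    {C : ℝ} (h : ∀ x, |f x| ≤ C) : |∫ x, f x ∂μ| ≤ C := by
  have h1 := norm_integral_le_of_norm_le_const (μ := μ) (f := f) (C := C)
    (Eventually.of_forall fun x => by rw [Real.norm_eq_abs]; exact h x)
  rw [Real.norm_eq_abs] at h1
  simpa using h1

lemma abs_int_le_int_abs {α : Type*} [MeasurableSpace α] {μ : Measure α} {f : α → ℝ} :
    |∫ x, f x ∂μ| ≤ ∫ x, |f x| ∂μ := by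
  have h1 := norm_integral_le_integral_norm (μ := μ) f
  simpa [Real.norm_eq_abs] using h1

lemma phiC_coe (A : Set ℝ) (t : ℝ) : phiC A (t : UnitAddCircle) = phi A t :=
  (phi_periodic A).lift_coe t

lemma abs_phiC (A : Set ℝ) (x : UnitAddCircle) : |phiC A x| = 1 := by
  induction x using QuotientAddGroup.induction_on with
  | H t => exact (congrArg abs (phiC_coe A t)).trans (abs_phi A t)

lemma phiC_sq (A : Set ℝ) (x : UnitAddCircle) : phiC A x * phiC A x = 1 := by
  rw [← abs_mul_abs_self, abs_phiC, one_mul]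

lemma measurable_dil (a : ℕ) : Measurable (fun x : UnitAddCircle => a • x) :=
  (continuous_nsmul a).measurable

lemma mp_dil {a : ℕ} (ha : a ≠ 0) : MeasurePreserving (fun x : UnitAddCircle => a • x) volume volume := by
  have h := Measure.measurePreserving_zsmul (volume : Measure UnitAddCircle)
    (n := (a : ℤ)) (by exact_mod_cast ha)
  simpa using h

lemma integral_dil {u : UnitAddCircle → ℝ} (hu : Measurable u) {a : ℕ} (ha : a ≠ 0) :
    ∫ x : UnitAddCircle, u (a • x) = ∫ x, u x := by
  have h := mp_dil ha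
  have h1 := integral_map (μ := (volume : Measure UnitAddCircle)) h.measurable.aemeasurable
    (f := u) hu.aestronglyMeasurable
  rw [h.map_eq] at h1
  exact h1.symm

lemma coe_nsmul_div (a b j : ℕ) : (a • (((j : ℝ) / b : ℝ) : UnitAddCircle)) =
    (((a * j : ℝ) / b : ℝ) : UnitAddCircle) := by
  rw [← AddCircle.coe_nsmul, nsmul_eq_mul]
  congr 1
  ring

lemma coe_nat (j : ℕ) : ((j : ℝ) : UnitAddCircle) = 0 := by
  have h : ((j : ℝ) : UnitAddCircle) = j • ((1 : ℝ) : UnitAddCircle) := by
    rw [← AddCircle.coe_nsmul, nsmul_eq_mul, mul_one]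
  rw [h, AddCircle.coe_period, smul_zero]

lemma LL1.nonneg {L : ℝ} {u : UnitAddCircle → ℝ} (h : LL1 L u) : 0 ≤ L := by
  have h1 := h 1 zero_le_one
  have h2 : 0 ≤ ∫ x, |u (x + ((1:ℝ) : UnitAddCircle)) - u x| := integral_nonneg fun x => abs_nonneg _
  linarith

end Pool.Agent.Lib.P4a7640Y
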