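import Mathlib
import Pool.Agent.Lib.P4a7640Y.Base

/-!
# Decoupling on the circle
-/

open MeasureTheory Filter

namespace Pool.Agent.Lib.P4a7640Y

open Pool.Agent.Lib.P4a7640 Pool.Agent.Lib.P4a7640M

lemma measurable_int {α β : Type*} [MeasurableSpace α] [MeasurableSpace β] {ν : Measure β} [SFinite ν]
    {f : α → β → ℝ} (hf : Measurable (Function.uncurry f)) : Measurable fun x => ∫ y, f x y ∂ν :=
  (hf.stronglyMeasurable.integral_prod_right).measurable

lemma swap_bdd {α β : Type*} [MeasurableSpace α] [MeasurableSpace β] {μ : Measure α} {ν : Measure β}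
    [IsFiniteMeasure μ] [IsFiniteMeasure ν] {f : α → β → ℝ} (hf : Measurable (Function.uncurry f)) {C : ℝ}
    (hb : ∀ x y, |f x y| ≤ C) : ∫ x, ∫ y, f x y ∂ν ∂μ = ∫ y, ∫ x, f x y ∂μ ∂ν :=
  integral_integral_swap (int_bdd hf fun z => hb z.1 z.2)

lemma sq_int_le {α : Type*} [MeasurableSpace α] {μ : Measure α} [IsProbabilityMeasure μ] {f : α → ℝ}
    (hf : Measurable f) {C : ℝ} (hb : ∀ x, |f x| ≤ C) : (∫ x, f x ∂μ) ^ 2 ≤ ∫ x, f x ^ 2 ∂μ := by
  set m := ∫ x, f x ∂μ with hm
  have hC : ∀ x, |f x ^ 2| ≤ C ^ 2 := fun x => by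
    rw [abs_pow]
    exact pow_le_pow_left₀ (abs_nonneg _) (hb x) 2
  have h1 : 0 ≤ ∫ x, (f x - m) ^ 2 ∂μ := integral_nonneg fun x => sq_nonneg _
  have h2 : ∫ x, (f x - m) ^ 2 ∂μ = ∫ x, (f x ^ 2 - 2 * m * f x + m ^ 2) ∂μ := by
    congr 1
    funext x
    ring
  have i1 : Integrable (fun x => f x ^ 2) μ := int_bdd (hf.pow_const 2) hC
  have i2 : Integrable (fun x => 2 * m * f x) μ := (int_bdd hf hb).const_mul _
  have i3 : Integrable (fun x => f x ^ 2 - 2 * m * f x) μ := i1.sub i2
  rw [h2, integral_add i3 (integrable_const _), integral_sub i1 i2, integral_const_mul,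
    integral_const, ← hm] at h1
  simp at h1
  nlinarith

/-- the representative in `[0, 1)` -/
noncomputable def rho (x : UnitAddCircle) : ℝ := (AddCircle.equivIco 1 0 x : ℝ)

lemma measurable_rho : Measurable rho :=
  measurable_subtype_coe.comp (AddCircle.measurableEquivIco 1 0).measurable

lemma coe_rho (x : UnitAddCircle) : ((rho x : ℝ) : UnitAddCircle) = x :=
  (AddCircle.equivIco 1 0).symm_apply_apply x

lemma rho_mem (x : UnitAddCircle) : 0 ≤ rho x ∧ rho x < 1 := by
  have h := (AddCircle.equivIco 1 0 x).2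
  rw [Set.mem_Ico] at h
  exact ⟨h.1, lt_of_lt_of_eq h.2 (zero_add 1)⟩

/-- pigeonhole -/
lemma exists_shifts (J : Finset ℕ) (a : ℕ → ℕ) {Q : ℕ} (hQ : 0 < Q) :
    ∃ E : Set UnitAddCircle, MeasurableSet E ∧ 1 / (Q : ℝ) ^ J.card ≤ (volume E).toReal ∧
      ∀ s ∈ E, ∀ p ∈ J, ∃ r : ℝ, |r| ≤ 1 / Q ∧ a p • s = (r : UnitAddCircle) := by
  classical
  have hQ0 : (0:ℝ) < Q := by exact_mod_cast hQ
  set code : UnitAddCircle → (J → ℕ) := fun x p => ⌊(Q:ℝ) * rho (a p • x)⌋₊ with hcode
  have hcm : ∀ c : J → Fin Q, MeasurableSet {x | ∀ p, code x p = (c p : ℕ)} := by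
    intro c
    have h1 : {x | ∀ p, code x p = (c p : ℕ)} = ⋂ p : J, {x | code x p = (c p : ℕ)} := by
      ext x; simp
    rw [h1]
    refine MeasurableSet.iInter fun p => ?_
    have h2 : Measurable fun x => code x p :=
      Nat.measurable_floor.comp ((measurable_rho.comp (measurable_dil (a p))).const_mul _)
    exact h2 (measurableSet_singleton _)
  have hcov : (Set.univ : Set UnitAddCircle) ⊆ ⋃ c : J → Fin Q, {x | ∀ p, code x p = (c p : ℕ)} := by
    intro x _
    rw [Set.mem_iUnion]
    have hlt : ∀ p, code x p < Q := by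
      intro p
      have h := rho_mem (a p • x)
      rw [hcode]
      show ⌊(Q:ℝ) * rho (a p • x)⌋₊ < Q
      rw [Nat.floor_lt (by have := h.1; positivity)]
      nlinarith [h.2]
    exact ⟨fun p => ⟨code x p, hlt p⟩, fun p => rfl⟩
  have hex : ∃ c : J → Fin Q, 1 / (Q:ℝ) ^ J.card ≤ (volume {x | ∀ p, code x p = (c p : ℕ)}).toReal := by
    by_contra hcon
    push Not at hcon
    have h1 : (1:ℝ) ≤ ∑ c : J → Fin Q, (volume {x | ∀ p, code x p = (c p : ℕ)}).toReal := by
      have h2 : (volume (Set.univ : Set UnitAddCircle)) ≤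
          ∑ c : J → Fin Q, volume {x | ∀ p, code x p = (c p : ℕ)} :=
        (measure_mono hcov).trans (measure_iUnion_fintype_le _ _)
      rw [UnitAddCircle.measure_univ] at h2
      have h3 := ENNReal.toReal_mono (by
        rw [ENNReal.sum_ne_top]
        intro c _
        exact measure_ne_top _ _) h2
      rw [ENNReal.toReal_sum (fun c _ => measure_ne_top _ _)] at h3
      simpa using h3
    have hcard : Fintype.card (J → Fin Q) = Q ^ J.card := by simp
    have hne : Nonempty (J → Fin Q) := ⟨fun _ => ⟨0, hQ⟩⟩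
    have h4 : ∑ c : J → Fin Q, (volume {x | ∀ p, code x p = (c p : ℕ)}).toReal <
        ∑ c : J → Fin Q, 1 / (Q:ℝ) ^ J.card := by
      refine Finset.sum_lt_sum_of_nonempty Finset.univ_nonempty fun c _ => hcon c
    rw [Finset.sum_const, Finset.card_univ, hcard, nsmul_eq_mul] at h4
    have h5 : ((Q ^ J.card : ℕ) : ℝ) * (1 / (Q:ℝ) ^ J.card) = 1 := by
      push_cast
      field_simp
    rw [h5] at h4
    linarith
  obtain ⟨c, hc⟩ := hex
  set V := {x | ∀ p, code x p = (c p : ℕ)} with hV
  have hVpos : 0 < (volume V).toReal := lt_of_lt_of_le (by positivity) hc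
  have hVne : V.Nonempty := by
    rw [Set.nonempty_iff_ne_empty]
    intro h
    rw [h] at hVpos
    simp at hVpos
  obtain ⟨s₀, hs₀⟩ := hVne
  refine ⟨(fun s => s + s₀) ⁻¹' V, (measurable_add_const s₀) (hcm c), ?_, ?_⟩
  · rw [measure_preimage_add_right]
    exact hc
  · intro s hs p hp
    have h1 : code (s + s₀) ⟨p, hp⟩ = (c ⟨p, hp⟩ : ℕ) := hs ⟨p, hp⟩
    have h2 : code s₀ ⟨p, hp⟩ = (c ⟨p, hp⟩ : ℕ) := hs₀ ⟨p, hp⟩
    refine ⟨rho (a p • (s + s₀)) - rho (a p • s₀), ?_, ?_⟩
    · have h3 : ⌊(Q:ℝ) * rho (a p • (s + s₀))⌋₊ = ⌊(Q:ℝ) * rho (a p • s₀)⌋₊ := by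
        rw [← h2] at h1
        exact h1
      have e1 := Nat.floor_le (show 0 ≤ (Q:ℝ) * rho (a p • (s + s₀)) by
        have := (rho_mem (a p • (s + s₀))).1; positivity)
      have e2 := Nat.lt_floor_add_one ((Q:ℝ) * rho (a p • (s + s₀)))
      have e3 := Nat.floor_le (show 0 ≤ (Q:ℝ) * rho (a p • s₀) by
        have := (rho_mem (a p • s₀)).1; positivity)
      have e4 := Nat.lt_floor_add_one ((Q:ℝ) * rho (a p • s₀))
      rw [h3] at e1 e2
      rw [abs_le]
      constructor
      · rw [← sub_nonneg, sub_neg_eq_add, ← mul_nonneg_iff_of_pos_left hQ0]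
        have : (Q:ℝ) * (rho (a p • (s + s₀)) - rho (a p • s₀) + 1 / Q) =
            Q * rho (a p • (s + s₀)) - Q * rho (a p • s₀) + 1 := by field_simp
        rw [this]
        linarith
      · rw [← sub_nonneg, ← mul_nonneg_iff_of_pos_left hQ0]
        have : (Q:ℝ) * (1 / Q - (rho (a p • (s + s₀)) - rho (a p • s₀))) =
            1 - (Q * rho (a p • (s + s₀)) - Q * rho (a p • s₀)) := by field_simp
        rw [this]
        linarith
    · rw [AddCircle.coe_sub, coe_rho, coe_rho, smul_add]
      abel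

theorem decouple {H ψ : UnitAddCircle → ℝ} (hH : Measurable H) (hψ : Measurable ψ)
    (hbH : ∀ x, |H x| ≤ 1) (hbψ : ∀ x, |ψ x| ≤ 1) {J : Finset ℕ} {a : ℕ → ℕ} {Q : ℕ} (hQ : 0 < Q)
    {ε : ℝ} (hsh : ∀ s : UnitAddCircle, (∀ p ∈ J, ∃ r : ℝ, |r| ≤ 1 / Q ∧ a p • s = (r : UnitAddCircle)) →
      ∫ x, |ψ (x + s) - ψ x| ≤ ε) :
    |∫ x, ψ x * H x| ≤ ε + Real.sqrt ((Q:ℝ) ^ J.card * ∫ h, |AC H h|) := by
  classical
  have hQ0 : (0:ℝ) < Q := by exact_mod_cast hQ
  obtain ⟨E, hE, hEμ, hEs⟩ := exists_shifts J a hQ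
  set I := ∫ x, ψ x * H x with hI
  set A := ∫ h, |AC H h| with hA
  have hA0 : 0 ≤ A := integral_nonneg fun h => abs_nonneg _
  set e : UnitAddCircle → ℝ := E.indicator (fun _ => (1:ℝ)) with he
  have hem : Measurable e := measurable_const.indicator hE
  have he0 : ∀ s, 0 ≤ e s := fun s => Set.indicator_nonneg (fun _ _ => zero_le_one) s
  have he1 : ∀ s, e s ≤ 1 := fun s => Set.indicator_le_self' (fun _ _ => zero_le_one) s
  have heb : ∀ s, |e s| ≤ 1 := fun s => by rw [abs_of_nonneg (he0 s)]; exact he1 s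
  set μE := ∫ s, e s with hμE
  have hμE' : μE = (volume E).toReal := by
    have h := integral_indicator_one (μ := (volume : Measure UnitAddCircle)) hE
    exact h
  have hμpos : 0 < μE := by
    rw [hμE']
    exact lt_of_lt_of_le (by positivity) hEμ
  set K : UnitAddCircle → ℝ := fun x => ∫ s, e s * H (x + s) with hK
  have hadd : Measurable fun z : UnitAddCircle × UnitAddCircle => z.1 + z.2 := measurable_add
  have hKm : Measurable K := by
    refine measurable_int (f := fun x s => e s * H (x + s)) ?_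
    exact (hem.comp measurable_snd).mul (hH.comp hadd)
  have heH : ∀ x s, |e s * H (x + s)| ≤ 1 := fun x s => by
    rw [abs_mul]
    exact mul_le_one₀ (heb s) (abs_nonneg _) (hbH _)
  have hKb : ∀ x, |K x| ≤ 1 := fun x => abs_int_le fun s => heH x s
  -- first estimate
  have h1 : ∀ s ∈ E, |I - ∫ x, ψ x * H (x + s)| ≤ ε := by
    intro s hs
    have hI2 : I = ∫ x, ψ (x + s) * H (x + s) := by
      rw [hI]
      exact (integral_add_right_eq_self (fun x => ψ x * H x) s).symm
    have hHs : Measurable fun x => H (x + s) := hH.comp (measurable_add_const s)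
    have hψs : Measurable fun x => ψ (x + s) := hψ.comp (measurable_add_const s)
    have i1 : Integrable (fun x => ψ (x + s) * H (x + s)) volume :=
      int_bdd (hψs.mul hHs) (C := 1) fun x => by
        rw [abs_mul]; exact mul_le_one₀ (hbψ _) (abs_nonneg _) (hbH _)
    have i2 : Integrable (fun x => ψ x * H (x + s)) volume :=
      int_bdd (hψ.mul hHs) (C := 1) fun x => by
        rw [abs_mul]; exact mul_le_one₀ (hbψ _) (abs_nonneg _) (hbH _)
    rw [hI2, ← integral_sub i1 i2]
    refine abs_int_le_int_abs.trans (le_trans ?_ (hsh s (hEs s hs)))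
    refine integral_mono ((i1.sub i2).abs) (int_bdd ((hψs.sub hψ).abs) (C := 2) fun x => ?_) fun x => ?_
    · rw [abs_abs]
      have e1 := abs_sub (ψ (x + s)) (ψ x)
      have e2 := hbψ (x + s)
      have e3 := hbψ x
      linarith
    · show |ψ (x + s) * H (x + s) - ψ x * H (x + s)| ≤ |ψ (x + s) - ψ x|
      rw [← sub_mul, abs_mul]
      calc |ψ (x + s) - ψ x| * |H (x + s)| ≤ |ψ (x + s) - ψ x| * 1 :=
            mul_le_mul_of_nonneg_left (hbH _) (abs_nonneg _)
        _ = _ := mul_one _
  -- averaging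
  have hmeasψH : Measurable (Function.uncurry fun s x : UnitAddCircle => e s * (ψ x * H (x + s))) :=
    (hem.comp measurable_fst).mul ((hψ.comp measurable_snd).mul
      (hH.comp (measurable_snd.add measurable_fst)))
  have hbψH : ∀ s x, |e s * (ψ x * H (x + s))| ≤ 1 := fun s x => by
    rw [abs_mul, abs_mul]
    exact mul_le_one₀ (heb s) (by positivity) (mul_le_one₀ (hbψ _) (abs_nonneg _) (hbH _))
  have h2 : ∫ s, e s * ∫ x, ψ x * H (x + s) = ∫ x, ψ x * K x := by
    have h3 : ∀ s, e s * ∫ x, ψ x * H (x + s) = ∫ x, e s * (ψ x * H (x + s)) := fun s =>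
      (integral_const_mul _ _).symm
    simp_rw [h3]
    rw [swap_bdd (f := fun s x => e s * (ψ x * H (x + s))) hmeasψH hbψH]
    congr 1
    funext x
    show ∫ s, e s * (ψ x * H (x + s)) = ψ x * ∫ s, e s * H (x + s)
    rw [← integral_const_mul]
    congr 1
    funext s
    ring
  have hG : Measurable fun s => ∫ x, ψ x * H (x + s) := by
    refine measurable_int (f := fun s x => ψ x * H (x + s)) ?_
    exact (hψ.comp measurable_snd).mul (hH.comp (measurable_snd.add measurable_fst))
  have hGb : ∀ s, |∫ x, ψ x * H (x + s)| ≤ 1 := fun s => abs_int_le fun x => by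
    rw [abs_mul]; exact mul_le_one₀ (hbψ _) (abs_nonneg _) (hbH _)
  have h4 : |μE * I - ∫ x, ψ x * K x| ≤ ε * μE := by
    rw [← h2, hμE, ← integral_mul_const, ← integral_sub]
    · refine abs_int_le_int_abs.trans ?_
      have h5 : ∫ s, ε * e s = ε * ∫ s, e s := integral_const_mul _ _
      rw [← h5]
      refine integral_mono ?_ ((int_bdd hem heb).const_mul ε) fun s => ?_
      · refine (Integrable.sub ?_ ?_).abs
        · exact (int_bdd hem heb).mul_const I
        · exact int_bdd (hem.mul hG) (C := 1) fun s => by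
            rw [abs_mul]; exact mul_le_one₀ (heb s) (abs_nonneg _) (hGb s)
      · show |e s * I - e s * ∫ x, ψ x * H (x + s)| ≤ ε * e s
        rw [← mul_sub, abs_mul, abs_of_nonneg (he0 s), mul_comm]
        by_cases hs : s ∈ E
        · exact mul_le_mul_of_nonneg_right (h1 s hs) (he0 s)
        · have : e s = 0 := Set.indicator_of_notMem hs _
          rw [this, mul_zero, mul_zero]
    · exact (int_bdd hem heb).mul_const I
    · exact int_bdd (hem.mul hG) (C := 1) fun s => by
        rw [abs_mul]; exact mul_le_one₀ (heb s) (abs_nonneg _) (hGb s)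
  -- the second moment of `K`
  have hACm : Measurable (AC H) := by
    refine measurable_int (f := fun h x => H x * H (x + h)) ?_
    exact (hH.comp measurable_snd).mul (hH.comp (measurable_snd.add measurable_fst))
  have hACb : ∀ h, |AC H h| ≤ 1 := fun h => abs_int_le fun x => by
    rw [abs_mul]; exact mul_le_one₀ (hbH _) (abs_nonneg _) (hbH _)
  have h6 : ∀ s, ∫ x, H (x + s) * K x ≤ A := by
    intro s
    have hHs : Measurable fun x => H (x + s) := hH.comp (measurable_add_const s)
    have h7 : ∫ x, H (x + s) * K x = ∫ t, e t * AC H (t - s) := by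
      have h8 : ∀ x, H (x + s) * K x = ∫ t, H (x + s) * (e t * H (x + t)) := fun x =>
        (integral_const_mul _ _).symm
      simp_rw [h8]
      rw [swap_bdd (f := fun x t => H (x + s) * (e t * H (x + t))) (C := 1)]
      · congr 1
        funext t
        have h9 : ∫ x, H (x + s) * (e t * H (x + t)) = e t * ∫ x, H (x + s) * H (x + t) := by
          rw [← integral_const_mul]
          congr 1
          funext x
          ring
        rw [h9]
        congr 1
        unfold AC
        rw [← integral_add_right_eq_self (fun x => H x * H (x + (t - s))) s]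
        congr 1
        funext x
        congr 2
        abel
      · exact ((hHs.comp measurable_fst)).mul ((hem.comp measurable_snd).mul (hH.comp hadd))
      · intro x t
        rw [abs_mul]
        exact mul_le_one₀ (hbH _) (abs_nonneg _) (heH x t)
    rw [h7, hA]
    have h10 : ∫ h, |AC H h| = ∫ t, |AC H (t - s)| := by
      rw [← integral_add_right_eq_self (fun h => |AC H h|) (-s)]
      simp_rw [← sub_eq_add_neg]
    rw [h10]
    have hACs : Measurable fun t => AC H (t - s) := hACm.comp (measurable_sub_const s)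
    refine integral_mono (int_bdd (hem.mul hACs) (C := 1) fun t => ?_)
      (int_bdd hACs.abs (C := 1) fun t => ?_) fun t => ?_
    · rw [abs_mul]; exact mul_le_one₀ (heb t) (abs_nonneg _) (hACb _)
    · rw [abs_abs]; exact hACb _
    · refine (le_abs_self _).trans ?_
      rw [abs_mul]
      calc |e t| * |AC H (t - s)| ≤ 1 * |AC H (t - s)| :=
            mul_le_mul_of_nonneg_right (heb t) (abs_nonneg _)
        _ = _ := one_mul _
  have h11 : ∫ x, K x ^ 2 ≤ μE * A := by
    have h12 : ∫ x, K x ^ 2 = ∫ s, e s * ∫ x, H (x + s) * K x := by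
      have h13 : ∀ s, e s * ∫ x, H (x + s) * K x = ∫ x, e s * (H (x + s) * K x) := fun s =>
        (integral_const_mul _ _).symm
      simp_rw [h13]
      rw [swap_bdd (f := fun s x => e s * (H (x + s) * K x)) (C := 1)]
      · congr 1
        funext x
        have h14 : ∫ s, e s * (H (x + s) * K x) = (∫ s, e s * H (x + s)) * K x := by
          rw [← integral_mul_const]
          congr 1
          funext s
          ring
        rw [h14]
        exact sq (K x)
      · exact (hem.comp measurable_fst).mul ((hH.comp (measurable_snd.add measurable_fst)).mul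
          (hKm.comp measurable_snd))
      · intro s x
        rw [abs_mul, abs_mul]
        exact mul_le_one₀ (heb s) (by positivity) (mul_le_one₀ (hbH _) (abs_nonneg _) (hKb _))
    rw [h12, hμE, ← integral_mul_const]
    have hm2 : Measurable fun s => ∫ x, H (x + s) * K x := by
      refine measurable_int (f := fun s x => H (x + s) * K x) ?_
      exact (hH.comp (measurable_snd.add measurable_fst)).mul (hKm.comp measurable_snd)
    refine integral_mono (int_bdd (hem.mul hm2) (C := 1) fun s => ?_)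
      ((int_bdd hem heb).mul_const A) fun s => mul_le_mul_of_nonneg_left (h6 s) (he0 s)
    rw [abs_mul]
    refine mul_le_one₀ (heb s) (abs_nonneg _) (abs_int_le fun x => ?_)
    rw [abs_mul]
    exact mul_le_one₀ (hbH _) (abs_nonneg _) (hKb _)
  have h15 : |∫ x, ψ x * K x| ≤ Real.sqrt (μE * A) := by
    have h16 : |∫ x, ψ x * K x| ≤ ∫ x, |K x| := by
      refine abs_int_le_int_abs.trans (integral_mono ?_ ?_ fun x => ?_)
      · exact (int_bdd (f := fun x => ψ x * K x) (hψ.mul hKm) (C := 1) fun x => by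
          rw [abs_mul]; exact mul_le_one₀ (hbψ _) (abs_nonneg _) (hKb _)).abs
      · exact int_bdd hKm.abs (C := 1) fun x => by rw [abs_abs]; exact hKb x
      · show |ψ x * K x| ≤ |K x|
        rw [abs_mul]
        calc |ψ x| * |K x| ≤ 1 * |K x| := mul_le_mul_of_nonneg_right (hbψ _) (abs_nonneg _)
          _ = _ := one_mul _
    refine h16.trans (Real.le_sqrt_of_sq_le ?_)
    refine (sq_int_le hKm.abs (C := 1) fun x => by rw [abs_abs]; exact hKb x).trans ?_
    simp_rw [sq_abs]
    exact h11
  -- conclusion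
  have h17 : μE * |I| ≤ ε * μE + Real.sqrt (μE * A) := by
    have h18 : μE * |I| = |μE * I| := by rw [abs_mul, abs_of_pos hμpos]
    rw [h18]
    have h19 := abs_sub_abs_le_abs_sub (μE * I) (∫ x, ψ x * K x)
    linarith
  have h20 : |I| ≤ ε + Real.sqrt (μE * A) / μE := by
    rw [← sub_nonneg, ← mul_nonneg_iff_of_pos_left hμpos]
    have : μE * (ε + Real.sqrt (μE * A) / μE - |I|) = ε * μE + Real.sqrt (μE * A) - μE * |I| := by
      field_simp
    rw [this]
    linarith
  refine h20.trans (add_le_add le_rfl ?_)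
  refine Real.le_sqrt_of_sq_le ?_
  rw [div_pow, Real.sq_sqrt (by positivity)]
  have h21 : μE * A / μE ^ 2 = A / μE := by field_simp
  rw [h21, div_le_iff₀ hμpos]
  have h22 : 1 ≤ (Q:ℝ) ^ J.card * μE := by
    rw [hμE', ← div_le_iff₀' (by positivity)]
    exact hEμ
  nlinarith

end Pool.Agent.Lib.P4a7640Y
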