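import Mathlib
import Pool.Agent.Lib.P4a7640Y.Circ1

/-!
# Two dilations on the circle
-/

open MeasureTheory Filter

namespace Pool.Agent.Lib.P4a7640Y

open Pool.Agent.Lib.P4a7640 Pool.Agent.Lib.P4a7640M

lemma coe_int (c : ℤ) : ((c : ℝ) : UnitAddCircle) = 0 := by
  have h : ((c : ℝ) : UnitAddCircle) = c • ((1 : ℝ) : UnitAddCircle) := by
    rw [← AddCircle.coe_zsmul, zsmul_eq_mul, mul_one]
  rw [h, AddCircle.coe_period, smul_zero]

lemma exists_mul_modEq {a b : ℕ} (hab : Nat.Coprime a b) (k : ℕ) :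
    ∃ j : ℕ, ∃ c : ℤ, (a * j : ℤ) = k + b * c := by
  have h : IsCoprime (a : ℤ) (b : ℤ) := Nat.isCoprime_iff_coprime.mpr hab
  obtain ⟨x, y, hxy⟩ := h
  by_cases hb : b = 0
  · subst hb
    have ha : a = 1 := by simpa using hab
    subst ha
    exact ⟨k, 0, by simp⟩
  have hb0 : (0:ℤ) < b := by exact_mod_cast Nat.pos_of_ne_zero hb
  have h1 : 0 ≤ (k * x) % b := Int.emod_nonneg _ hb0.ne'
  obtain ⟨j, hj⟩ := Int.eq_ofNat_of_zero_le h1
  refine ⟨j, -(k * y) - a * ((k * x) / b), ?_⟩
  have h2 := Int.emod_add_mul_ediv (k * x) b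
  rw [← hj]
  have h3 : (k * x) % (b:ℤ) = k * x - b * ((k * x) / b) := by linarith
  rw [h3]
  linear_combination (k:ℤ) * hxy

/-- a shift by `s` of the first factor -/
lemma circ2_shift {u v : UnitAddCircle → ℝ} (hu : Measurable u) (hv : Measurable v) {L : ℝ}
    (hL : LL1 L u) {K : ℝ} (hbu : ∀ x, |u x| ≤ K) (hbv : ∀ x, |v x| ≤ 1) {a b : ℕ} (ha : a ≠ 0)
    (hb : b ≠ 0) (hab : Nat.Coprime a b) (s : UnitAddCircle) :
    |(∫ x : UnitAddCircle, u (a • x + s) * v (b • x)) - ∫ x : UnitAddCircle, u (a • x) * v (b • x)| ≤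
      L / b := by
  have hb0 : (0:ℝ) < b := by exact_mod_cast Nat.pos_of_ne_zero hb
  obtain ⟨hr0, hr1⟩ := rho_mem s
  set r := rho s with hr
  set k := ⌊(b:ℝ) * r⌋₊ with hk
  have hk1 : (k:ℝ) ≤ b * r := Nat.floor_le (by positivity)
  have hk2 : (b:ℝ) * r < k + 1 := Nat.lt_floor_add_one _
  set s' : ℝ := r - k / b with hs'
  have hs0 : 0 ≤ s' := by
    rw [hs', sub_nonneg, div_le_iff₀ hb0]
    linarith
  have hs1 : s' ≤ 1 / b := by
    rw [hs', sub_le_iff_le_add, ← add_div, le_div_iff₀ hb0]
    linarith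
  obtain ⟨j, c, hjc⟩ := exists_mul_modEq hab k
  set t : UnitAddCircle := (((j:ℝ) / b : ℝ) : UnitAddCircle) with ht
  have hat : a • t + (s' : UnitAddCircle) = s := by
    have h1 : a • t = (((k:ℝ) / b : ℝ) : UnitAddCircle) := by
      rw [ht, coe_nsmul_div]
      have h2 : ((a:ℝ) * j) / b = k / b + c := by
        have h3 : (a:ℝ) * j = k + b * c := by exact_mod_cast hjc
        rw [h3]
        field_simp
      rw [h2, AddCircle.coe_add, coe_int, add_zero]
    rw [h1, ← AddCircle.coe_add, hs']
    have h4 : (k:ℝ) / b + (r - k / b) = r := by ring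
    rw [h4]
    exact coe_rho s
  have hbt : b • t = 0 := by
    rw [ht, coe_nsmul_div]
    have h2 : ((b:ℝ) * j) / b = j := by field_simp
    rw [h2]
    exact coe_nat j
  have hda := measurable_dil a
  have hdb := measurable_dil b
  have hua : Measurable fun x : UnitAddCircle => u (a • x) := hu.comp hda
  have hus : Measurable fun x : UnitAddCircle => u (a • x + (s' : UnitAddCircle)) :=
    hu.comp (hda.add_const _)
  have hvb : Measurable fun x : UnitAddCircle => v (b • x) := hv.comp hdb
  have hK : 0 ≤ K := (abs_nonneg _).trans (hbu 0)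
  have hprod : ∀ y z : UnitAddCircle, |u y * v z| ≤ K := fun y z => by
    rw [abs_mul]
    calc |u y| * |v z| ≤ K * 1 := mul_le_mul (hbu y) (hbv z) (abs_nonneg _) hK
      _ = K := mul_one K
  have hG : ∫ x : UnitAddCircle, u (a • x + s) * v (b • x) =
      ∫ x : UnitAddCircle, u (a • x + (s' : UnitAddCircle)) * v (b • x) := by
    rw [← integral_add_right_eq_self (fun x : UnitAddCircle =>
      u (a • x + (s' : UnitAddCircle)) * v (b • x)) t]
    congr 1
    funext x
    have e1 : a • (x + t) + (s' : UnitAddCircle) = a • x + s := by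
      rw [smul_add, add_assoc, hat]
    have e2 : b • (x + t) = b • x := by rw [smul_add, hbt, add_zero]
    rw [e1, e2]
  have i1 : Integrable (fun x : UnitAddCircle => u (a • x + (s' : UnitAddCircle)) * v (b • x)) volume :=
    int_bdd (hus.mul hvb) fun x => hprod _ _
  have i2 : Integrable (fun x : UnitAddCircle => u (a • x) * v (b • x)) volume :=
    int_bdd (hua.mul hvb) fun x => hprod _ _
  rw [hG, ← integral_sub i1 i2]
  have h5 : ∫ x : UnitAddCircle, |u (a • x + (s' : UnitAddCircle)) - u (a • x)| =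
      ∫ x, |u (x + (s' : UnitAddCircle)) - u x| :=
    integral_dil (u := fun y => |u (y + (s' : UnitAddCircle)) - u y|)
      ((hu.comp (measurable_add_const _)).sub hu).abs ha
  calc |∫ x : UnitAddCircle, (u (a • x + (s' : UnitAddCircle)) * v (b • x) - u (a • x) * v (b • x))|
      ≤ ∫ x : UnitAddCircle, |u (a • x + (s' : UnitAddCircle)) * v (b • x) - u (a • x) * v (b • x)| :=
        abs_int_le_int_abs
    _ ≤ ∫ x : UnitAddCircle, |u (a • x + (s' : UnitAddCircle)) - u (a • x)| := by
        refine integral_mono (i1.sub i2).abs (int_bdd (hus.sub hua).abs (C := 2 * K) fun x => ?_)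
          fun x => ?_
        · rw [abs_abs]
          have e1 := abs_sub (u (a • x + (s' : UnitAddCircle))) (u (a • x))
          have e2 := hbu (a • x + (s' : UnitAddCircle))
          have e3 := hbu (a • x)
          linarith
        · show |u (a • x + (s' : UnitAddCircle)) * v (b • x) - u (a • x) * v (b • x)| ≤
            |u (a • x + (s' : UnitAddCircle)) - u (a • x)|
          rw [← sub_mul, abs_mul]
          calc |u (a • x + (s' : UnitAddCircle)) - u (a • x)| * |v (b • x)| ≤
              |u (a • x + (s' : UnitAddCircle)) - u (a • x)| * 1 :=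
                mul_le_mul_of_nonneg_left (hbv _) (abs_nonneg _)
            _ = _ := mul_one _
    _ ≤ L * s' := by rw [h5]; exact hL s' hs0
    _ ≤ L * (1 / b) := mul_le_mul_of_nonneg_left hs1 hL.nonneg
    _ = L / b := by ring

theorem circ2 {u v : UnitAddCircle → ℝ} (hu : Measurable u) (hv : Measurable v) {L : ℝ} (hL : LL1 L u)
    {K : ℝ} (hbu : ∀ x, |u x| ≤ K) (hbv : ∀ x, |v x| ≤ 1) {a b : ℕ} (ha : a ≠ 0) (hb : b ≠ 0)
    (hab : Nat.Coprime a b) :
    |(∫ x : UnitAddCircle, u (a • x) * v (b • x)) - (∫ x, u x) * ∫ x, v x| ≤ L / b := by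
  have hK : 0 ≤ K := (abs_nonneg _).trans (hbu 0)
  have hprod : ∀ y z : UnitAddCircle, |u y * v z| ≤ K := fun y z => by
    rw [abs_mul]
    calc |u y| * |v z| ≤ K * 1 := mul_le_mul (hbu y) (hbv z) (abs_nonneg _) hK
      _ = K := mul_one K
  have hm : Measurable (Function.uncurry fun s x : UnitAddCircle => u (a • x + s) * v (b • x)) :=
    (hu.comp (((measurable_dil a).comp measurable_snd).add measurable_fst)).mul
      (hv.comp ((measurable_dil b).comp measurable_snd))
  have h1 : ∫ s : UnitAddCircle, ∫ x : UnitAddCircle, u (a • x + s) * v (b • x) =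
      (∫ x, u x) * ∫ x, v x := by
    rw [swap_bdd (f := fun s x : UnitAddCircle => u (a • x + s) * v (b • x)) hm fun s x => hprod _ _]
    have h2 : ∀ x : UnitAddCircle, ∫ s : UnitAddCircle, u (a • x + s) * v (b • x) =
        (∫ x, u x) * v (b • x) := by
      intro x
      rw [integral_mul_const]
      congr 1
      have h3 := integral_add_right_eq_self (μ := (volume : Measure UnitAddCircle)) u (a • x)
      rw [← h3]
      congr 1
      funext s
      rw [add_comm]
    simp_rw [h2]
    rw [integral_const_mul, integral_dil hv hb]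
  have hmG : Measurable fun s : UnitAddCircle => ∫ x : UnitAddCircle, u (a • x + s) * v (b • x) :=
    measurable_int hm
  have h4 : (∫ x : UnitAddCircle, u (a • x) * v (b • x)) - (∫ x, u x) * ∫ x, v x =
      ∫ s : UnitAddCircle, ((∫ x : UnitAddCircle, u (a • x) * v (b • x)) -
        ∫ x : UnitAddCircle, u (a • x + s) * v (b • x)) := by
    rw [integral_sub (integrable_const _) (int_bdd hmG (C := K) fun s => abs_int_le fun x => hprod _ _),
      h1]
    simp
  rw [h4]
  refine abs_int_le fun s => ?_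
  rw [abs_sub_comm]
  exact circ2_shift hu hv hL hbu hbv ha hb hab s

end Pool.Agent.Lib.P4a7640Y
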