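import Mathlib
import Pool.Agent.Lib.P4a7640Y.Circ2

/-!
# Correlations of two dilations
-/

open MeasureTheory Filter

namespace Pool.Agent.Lib.P4a7640Y

open Pool.Agent.Lib.P4a7640 Pool.Agent.Lib.P4a7640M

variable {φ : UnitAddCircle → ℝ}

lemma mul_bd {x y : ℝ} (hx : |x| ≤ 1) (hy : |y| ≤ 1) : |x * y| ≤ 1 := by
  rw [abs_mul]; exact mul_le_one₀ hx (abs_nonneg _) hy

lemma int_mul_bdd {α : Type*} [MeasurableSpace α] {μ : Measure α} [IsFiniteMeasure μ] {f g : α → ℝ}
    (hf : Measurable f) (hg : Measurable g) (h1 : ∀ x, |f x| ≤ 1) (h2 : ∀ x, |g x| ≤ 1) :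
    Integrable (fun x => f x * g x) μ :=
  int_bdd (f := fun x => f x * g x) (hf.mul hg) fun x => mul_bd (h1 x) (h2 x)

lemma measurable_AC (hφ : Measurable φ) : Measurable (AC φ) := by
  refine measurable_int (f := fun h x => φ x * φ (x + h)) ?_
  exact (hφ.comp measurable_snd).mul (hφ.comp (measurable_snd.add measurable_fst))

lemma abs_AC_le (hb : ∀ x, |φ x| ≤ 1) (h : UnitAddCircle) : |AC φ h| ≤ 1 :=
  abs_int_le fun x => mul_bd (hb _) (hb _)

lemma AC_lip (hφ : Measurable φ) (hb : ∀ x, |φ x| ≤ 1) {C : ℝ} (hC : LL1 C φ) (h : UnitAddCircle)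
    {s : ℝ} (hs : 0 ≤ s) : |AC φ (h + (s : UnitAddCircle)) - AC φ h| ≤ C * s := by
  unfold AC
  have m1 : ∀ t : UnitAddCircle, Measurable fun x => φ (x + t) := fun t => hφ.comp (measurable_add_const t)
  rw [← integral_sub (int_mul_bdd hφ (m1 _) hb fun x => hb _)
    (int_mul_bdd hφ (m1 _) hb fun x => hb _)]
  have h1 : ∫ x, |φ (x + h + (s : UnitAddCircle)) - φ (x + h)| = ∫ x, |φ (x + (s : UnitAddCircle)) - φ x| :=
    integral_add_right_eq_self (fun x => |φ (x + (s : UnitAddCircle)) - φ x|) h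
  refine abs_int_le_int_abs.trans (le_trans ?_ ((le_of_eq h1).trans (hC s hs)))
  refine integral_mono ?_ ?_ fun x => ?_
  · exact (Integrable.sub (int_mul_bdd hφ (m1 _) hb fun x => hb _)
      (int_mul_bdd hφ (m1 _) hb fun x => hb _)).abs
  · refine int_bdd (((m1 (s : UnitAddCircle)).comp (measurable_add_const h)).sub (m1 h)).abs (C := 2)
      fun x => ?_
    show |(|φ (x + h + (s : UnitAddCircle)) - φ (x + h)|)| ≤ 2
    rw [abs_abs]
    have e1 := abs_sub (φ (x + h + (s : UnitAddCircle))) (φ (x + h))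
    have e2 := hb (x + h + (s : UnitAddCircle))
    have e3 := hb (x + h)
    linarith
  · show |φ x * φ (x + (h + (s : UnitAddCircle))) - φ x * φ (x + h)| ≤ _
    rw [← mul_sub, abs_mul, ← add_assoc]
    calc |φ x| * |φ (x + h + (s : UnitAddCircle)) - φ (x + h)|
        ≤ 1 * |φ (x + h + (s : UnitAddCircle)) - φ (x + h)| :=
          mul_le_mul_of_nonneg_right (hb _) (abs_nonneg _)
      _ = _ := one_mul _

/-- the mean of the square of the correlation -/
noncomputable def kap (φ : UnitAddCircle → ℝ) : ℝ := ∫ h, AC φ h ^ 2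

lemma kap_nonneg : 0 ≤ kap φ := integral_nonneg fun h => sq_nonneg _

lemma sq_bd {x : ℝ} (hx : |x| ≤ 1) : |x ^ 2| ≤ 1 := by
  rw [sq]; exact mul_bd hx hx

lemma kap_le (hb : ∀ x, |φ x| ≤ 1) : kap φ ≤ 1 :=
  (le_abs_self _).trans (abs_int_le fun h => sq_bd (abs_AC_le hb h))

lemma LL1_AC_sq (hφ : Measurable φ) (hb : ∀ x, |φ x| ≤ 1) {C : ℝ} (hC : LL1 C φ) :
    LL1 (2 * C) (fun h => AC φ h ^ 2) := by
  intro s hs
  have hm := measurable_AC hφ
  have h1 : ∀ h, |(AC φ (h + (s : UnitAddCircle))) ^ 2 - AC φ h ^ 2| ≤ 2 * C * s := by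
    intro h
    have e1 : (AC φ (h + (s : UnitAddCircle))) ^ 2 - AC φ h ^ 2 =
        (AC φ (h + (s : UnitAddCircle)) + AC φ h) * (AC φ (h + (s : UnitAddCircle)) - AC φ h) := by ring
    rw [e1, abs_mul]
    have e2 := abs_add_le (AC φ (h + (s : UnitAddCircle))) (AC φ h)
    have e3 := abs_AC_le hb (h + (s : UnitAddCircle))
    have e4 := abs_AC_le hb h
    calc |AC φ (h + (s : UnitAddCircle)) + AC φ h| * |AC φ (h + (s : UnitAddCircle)) - AC φ h| ≤
        2 * (C * s) := mul_le_mul (by linarith) (AC_lip hφ hb hC h hs) (abs_nonneg _) zero_le_two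
      _ = _ := by ring
  refine (le_abs_self _).trans (abs_int_le fun h => ?_)
  rw [abs_abs]
  exact h1 h

/-- the product of `φ` at `a x` and at `a (x + h)` -/
def kk (φ : UnitAddCircle → ℝ) (a : ℕ) (h x : UnitAddCircle) : ℝ := φ (a • x) * φ (a • (x + h))

lemma measurable_kk (hφ : Measurable φ) (a : ℕ) : Measurable (Function.uncurry (kk φ a)) :=
  (hφ.comp ((measurable_dil a).comp measurable_snd)).mul
    (hφ.comp ((measurable_dil a).comp (measurable_snd.add measurable_fst)))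

lemma abs_kk_le (hb : ∀ x, |φ x| ≤ 1) (a : ℕ) (h x : UnitAddCircle) : |kk φ a h x| ≤ 1 :=
  mul_bd (hb _) (hb _)

lemma int_kk (hφ : Measurable φ) {a : ℕ} (ha : a ≠ 0) (h : UnitAddCircle) :
    ∫ x, kk φ a h x = AC φ (a • h) := by
  unfold kk AC
  have h1 := integral_dil (u := fun x => φ x * φ (x + a • h))
    (hφ.mul (hφ.comp (measurable_add_const _))) ha
  rw [← h1]
  congr 1
  funext x
  rw [smul_add]

lemma LL1_shift_mul (hφ : Measurable φ) (hb : ∀ x, |φ x| ≤ 1) {C : ℝ} (hC : LL1 C φ)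
    (t : UnitAddCircle) : LL1 (2 * C) (fun x => φ x * φ (x + t)) := by
  intro s hs
  have m1 : ∀ t : UnitAddCircle, Measurable fun x => φ (x + t) := fun t => hφ.comp (measurable_add_const t)
  have m2 : Measurable fun x => |φ (x + (s : UnitAddCircle)) - φ x| := ((m1 _).sub hφ).abs
  have m3 : Measurable fun x => |φ (x + t + (s : UnitAddCircle)) - φ (x + t)| :=
    m2.comp (measurable_add_const t)
  have b1 : ∀ x y, |(|φ x - φ y|)| ≤ 2 := fun x y => by
    rw [abs_abs]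
    have e1 := abs_sub (φ x) (φ y)
    have e2 := hb x
    have e3 := hb y
    linarith
  have h1 : ∫ x, |φ (x + t + (s : UnitAddCircle)) - φ (x + t)| = ∫ x, |φ (x + (s : UnitAddCircle)) - φ x| :=
    integral_add_right_eq_self (fun x => |φ (x + (s : UnitAddCircle)) - φ x|) t
  calc ∫ x, |φ (x + (s : UnitAddCircle)) * φ (x + (s : UnitAddCircle) + t) - φ x * φ (x + t)|
      ≤ ∫ x, (|φ (x + (s : UnitAddCircle)) - φ x| + |φ (x + t + (s : UnitAddCircle)) - φ (x + t)|) := by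
        refine integral_mono ?_ ((int_bdd m2 fun x => b1 _ _).add (int_bdd m3 fun x => b1 _ _))
          fun x => ?_
        · refine (Integrable.sub (int_bdd ((m1 _).mul ?_) fun x => mul_bd (hb _) (hb _))
            (int_bdd (hφ.mul (m1 _)) fun x => mul_bd (hb _) (hb _))).abs
          exact (m1 t).comp (measurable_add_const _)
        · show |φ (x + (s : UnitAddCircle)) * φ (x + (s : UnitAddCircle) + t) - φ x * φ (x + t)| ≤
            |φ (x + (s : UnitAddCircle)) - φ x| + |φ (x + t + (s : UnitAddCircle)) - φ (x + t)|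
          have e0 : x + (s : UnitAddCircle) + t = x + t + (s : UnitAddCircle) := by abel
          rw [e0]
          have e1 : φ (x + (s : UnitAddCircle)) * φ (x + t + (s : UnitAddCircle)) - φ x * φ (x + t) =
              (φ (x + (s : UnitAddCircle)) - φ x) * φ (x + t + (s : UnitAddCircle)) +
                φ x * (φ (x + t + (s : UnitAddCircle)) - φ (x + t)) := by ring
          rw [e1]
          refine (abs_add_le _ _).trans (add_le_add ?_ ?_)
          · rw [abs_mul]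
            calc |φ (x + (s : UnitAddCircle)) - φ x| * |φ (x + t + (s : UnitAddCircle))| ≤
                |φ (x + (s : UnitAddCircle)) - φ x| * 1 :=
                  mul_le_mul_of_nonneg_left (hb _) (abs_nonneg _)
              _ = _ := mul_one _
          · rw [abs_mul]
            calc |φ x| * |φ (x + t + (s : UnitAddCircle)) - φ (x + t)| ≤
                1 * |φ (x + t + (s : UnitAddCircle)) - φ (x + t)| :=
                  mul_le_mul_of_nonneg_right (hb _) (abs_nonneg _)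
              _ = _ := one_mul _
    _ = 2 * ∫ x, |φ (x + (s : UnitAddCircle)) - φ x| := by
        rw [integral_add (int_bdd m2 fun x => b1 _ _) (int_bdd m3 fun x => b1 _ _), h1]
        ring
    _ ≤ 2 * (C * s) := mul_le_mul_of_nonneg_left (hC s hs) zero_le_two
    _ = 2 * C * s := by ring

/-- the reduced second entry -/
def red (a b : ℕ) : ℕ := b / Nat.gcd a b

lemma red_ne {a b : ℕ} (hb : b ≠ 0) : red a b ≠ 0 := by
  unfold red
  exact (Nat.div_pos (Nat.le_of_dvd (Nat.pos_of_ne_zero hb) (Nat.gcd_dvd_right a b))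
    (Nat.gcd_pos_of_pos_right a (Nat.pos_of_ne_zero hb))).ne'

lemma red_spec {a b : ℕ} (ha : a ≠ 0) (hb : b ≠ 0) :
    Nat.gcd a b ≠ 0 ∧ a = red b a * Nat.gcd a b ∧ b = red a b * Nat.gcd a b ∧
      Nat.Coprime (red b a) (red a b) := by
  have hg : 0 < Nat.gcd a b := Nat.gcd_pos_of_pos_left b (Nat.pos_of_ne_zero ha)
  unfold red
  rw [Nat.gcd_comm b a]
  exact ⟨hg.ne', (Nat.div_mul_cancel (Nat.gcd_dvd_left a b)).symm,
    (Nat.div_mul_cancel (Nat.gcd_dvd_right a b)).symm, Nat.coprime_div_gcd_div_gcd hg⟩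

/-- reduction to coprime dilations -/
lemma int_two_dil {u v : UnitAddCircle → ℝ} (hu : Measurable u) (hv : Measurable v) {a b : ℕ}
    (ha : a ≠ 0) (hb : b ≠ 0) : ∫ x : UnitAddCircle, u (a • x) * v (b • x) =
      ∫ x : UnitAddCircle, u (red b a • x) * v (red a b • x) := by
  obtain ⟨hg, e1, e2, hco⟩ := red_spec ha hb
  have h1 := integral_dil (u := fun x => u (red b a • x) * v (red a b • x))
    ((hu.comp (measurable_dil _)).mul (hv.comp (measurable_dil _))) hg
  rw [← h1]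
  congr 1
  funext x
  rw [← mul_smul, ← mul_smul, ← e1, ← e2]

lemma two_dil {u v : UnitAddCircle → ℝ} (hu : Measurable u) (hv : Measurable v) {L : ℝ} (hL : LL1 L u)
    (hbu : ∀ x, |u x| ≤ 1) (hbv : ∀ x, |v x| ≤ 1) {a b : ℕ} (ha : a ≠ 0) (hb : b ≠ 0) :
    |(∫ x : UnitAddCircle, u (a • x) * v (b • x)) - (∫ x, u x) * ∫ x, v x| ≤ L / red a b := by
  rw [int_two_dil hu hv ha hb]
  exact circ2 hu hv hL hbu hbv (red_ne ha) (red_ne hb) (red_spec ha hb).2.2.2

/-- the correlation of two dilations -/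
noncomputable def BB (φ ψ : UnitAddCircle → ℝ) (a b : ℕ) (h : UnitAddCircle) : ℝ :=
  ∫ x, kk φ a h x * kk ψ b h x

variable {ψ : UnitAddCircle → ℝ}

lemma BB_comm (a b : ℕ) (h : UnitAddCircle) : BB φ ψ a b h = BB ψ φ b a h := by
  unfold BB
  congr 1
  funext x
  ring

lemma BB_close (hφ : Measurable φ) (hb : ∀ x, |φ x| ≤ 1) (hψ : Measurable ψ) (hbψ : ∀ x, |ψ x| ≤ 1)
    {C : ℝ} (hC : LL1 C φ) {a b : ℕ} (ha : a ≠ 0) (hb' : b ≠ 0) (h : UnitAddCircle) :
    |BB φ ψ a b h - AC φ (a • h) * AC ψ (b • h)| ≤ 2 * C / red a b := by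
  have h1 := two_dil (u := fun x => φ x * φ (x + a • h)) (v := fun x => ψ x * ψ (x + b • h))
    (hφ.mul (hφ.comp (measurable_add_const _))) (hψ.mul (hψ.comp (measurable_add_const _)))
    (LL1_shift_mul hφ hb hC (a • h)) (fun x => mul_bd (hb _) (hb _)) (fun x => mul_bd (hbψ _) (hbψ _))
    ha hb'
  have h2 : BB φ ψ a b h = ∫ x : UnitAddCircle, (φ (a • x) * φ (a • x + a • h)) *
      (ψ (b • x) * ψ (b • x + b • h)) := by
    unfold BB kk
    congr 1
    funext x
    rw [smul_add, smul_add]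
  rw [h2]
  exact h1

lemma measurable_BB (hφ : Measurable φ) (hψ : Measurable ψ) (a b : ℕ) : Measurable (BB φ ψ a b) :=
  measurable_int (f := fun h x => kk φ a h x * kk ψ b h x)
    ((measurable_kk hφ a).mul (measurable_kk hψ b))

lemma abs_BB_le (hb : ∀ x, |φ x| ≤ 1) (hbψ : ∀ x, |ψ x| ≤ 1) (a b : ℕ) (h : UnitAddCircle) :
    |BB φ ψ a b h| ≤ 1 :=
  abs_int_le fun x => mul_bd (abs_kk_le hb _ _ _) (abs_kk_le hbψ _ _ _)

lemma sq_sub_le {x y d : ℝ} (hx : |x| ≤ 1) (hy : |y| ≤ 1) (h : |x - y| ≤ d) :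
    |x ^ 2 - y ^ 2| ≤ 2 * d := by
  have e1 : x ^ 2 - y ^ 2 = (x + y) * (x - y) := by ring
  rw [e1, abs_mul]
  have e2 := abs_add_le x y
  exact mul_le_mul (by linarith) h (abs_nonneg _) zero_le_two

/-- the second moment of `BB` -/
lemma BB_moment_half (hφ : Measurable φ) (hb : ∀ x, |φ x| ≤ 1) (hψ : Measurable ψ)
    (hbψ : ∀ x, |ψ x| ≤ 1) {C : ℝ} (hC : LL1 C φ) {a b : ℕ}
    (ha : a ≠ 0) (hb' : b ≠ 0) :
    |(∫ h, BB φ ψ a b h ^ 2) - kap φ * kap ψ| ≤ 6 * C / red a b := by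
  have mAC := measurable_AC hφ
  have mACψ := measurable_AC hψ
  have mP : Measurable fun h : UnitAddCircle => AC φ (a • h) * AC ψ (b • h) :=
    (mAC.comp (measurable_dil a)).mul (mACψ.comp (measurable_dil b))
  have bP : ∀ h : UnitAddCircle, |AC φ (a • h) * AC ψ (b • h)| ≤ 1 := fun h =>
    mul_bd (abs_AC_le hb _) (abs_AC_le hbψ _)
  have h1 : |(∫ h, BB φ ψ a b h ^ 2) - ∫ h : UnitAddCircle, (AC φ (a • h) * AC ψ (b • h)) ^ 2| ≤
      2 * (2 * C / red a b) := by
    rw [← integral_sub (int_bdd ((measurable_BB hφ hψ a b).pow_const 2) fun h =>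
        sq_bd (abs_BB_le hb hbψ _ _ _))
      (int_bdd (mP.pow_const 2) fun h => sq_bd (bP h))]
    exact abs_int_le fun h => sq_sub_le (abs_BB_le hb hbψ _ _ _) (bP h)
      (BB_close hφ hb hψ hbψ hC ha hb' h)
  have h2 : |(∫ h : UnitAddCircle, (AC φ (a • h) * AC ψ (b • h)) ^ 2) - kap φ * kap ψ| ≤
      2 * C / red a b := by
    have h3 := two_dil (u := fun h => AC φ h ^ 2) (v := fun h => AC ψ h ^ 2) (mAC.pow_const 2)
      (mACψ.pow_const 2) (LL1_AC_sq hφ hb hC) (fun h => sq_bd (abs_AC_le hb h))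
      (fun h => sq_bd (abs_AC_le hbψ h)) ha hb'
    have h4 : ∀ h : UnitAddCircle, (AC φ (a • h) * AC ψ (b • h)) ^ 2 =
        AC φ (a • h) ^ 2 * AC ψ (b • h) ^ 2 := fun h => by ring
    simp_rw [h4]
    exact h3
  have h5 : (6:ℝ) * C / red a b = 2 * (2 * C / red a b) + 2 * C / red a b := by ring
  rw [h5]
  exact (abs_sub_le _ _ _).trans (add_le_add h1 h2)

/-- the larger reduced entry -/
def mx (a b : ℕ) : ℕ := max (red a b) (red b a)

theorem BB_moment (hφ : Measurable φ) (hb : ∀ x, |φ x| ≤ 1) (hψ : Measurable ψ)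
    (hbψ : ∀ x, |ψ x| ≤ 1) {C : ℝ} (hC : LL1 C φ) (hCψ : LL1 C ψ) {a b : ℕ}
    (ha : a ≠ 0) (hb' : b ≠ 0) :
    |(∫ h, BB φ ψ a b h ^ 2) - kap φ * kap ψ| ≤ 6 * C / mx a b := by
  have h1 := BB_moment_half hφ hb hψ hbψ hC ha hb'
  have h2 := BB_moment_half hψ hbψ hφ hb hCψ hb' ha
  simp_rw [BB_comm b a] at h2
  rw [mul_comm (kap ψ)] at h2
  unfold mx
  rcases le_total (red a b) (red b a) with h | h
  · rw [max_eq_right h]; exact h2
  · rw [max_eq_left h]; exact h1

end Pool.Agent.Lib.P4a7640Y
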