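import Mathlib
import Pool.Agent.Lib.P4a7640Y.Circ3

/-!
# Integrals over the triple product of the circle
-/

open MeasureTheory Filter

namespace Pool.Agent.Lib.P4a7640Y

open Pool.Agent.Lib.P4a7640 Pool.Agent.Lib.P4a7640M

/-- the triple product of the circle -/
abbrev T3 : Type := UnitAddCircle × UnitAddCircle × UnitAddCircle

/-- the product measure -/
noncomputable def P3 : Measure T3 :=
  (volume : Measure UnitAddCircle).prod ((volume : Measure UnitAddCircle).prod volume)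

instance : IsProbabilityMeasure P3 := by
  unfold P3
  infer_instance

lemma triple_sq {k : UnitAddCircle → UnitAddCircle → ℝ} (hk : Measurable (Function.uncurry k))
    (hb : ∀ h x, |k h x| ≤ 1) :
    ∫ τ, k τ.1 τ.2.1 * k τ.1 τ.2.2 ∂P3 = ∫ h, (∫ x, k h x) ^ 2 := by
  have m1 : Measurable fun τ : T3 => k τ.1 τ.2.1 :=
    hk.comp (measurable_fst.prodMk (measurable_fst.comp measurable_snd))
  have m2 : Measurable fun τ : T3 => k τ.1 τ.2.2 :=
    hk.comp (measurable_fst.prodMk (measurable_snd.comp measurable_snd))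
  have i1 : Integrable (fun τ : T3 => k τ.1 τ.2.1 * k τ.1 τ.2.2) P3 :=
    int_mul_bdd m1 m2 (fun τ => hb _ _) (fun τ => hb _ _)
  unfold P3 at i1 ⊢
  rw [integral_prod _ i1]
  congr 1
  funext h
  show ∫ z : UnitAddCircle × UnitAddCircle, k h z.1 * k h z.2
    ∂((volume : Measure UnitAddCircle).prod volume) = (∫ x, k h x) ^ 2
  rw [integral_prod_mul (k h) (k h), sq]

/-- the product of the four values of `φ` -/
def FP (φ : UnitAddCircle → ℝ) (a : ℕ) (τ : T3) : ℝ := kk φ a τ.1 τ.2.1 * kk φ a τ.1 τ.2.2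

variable {φ ψ : UnitAddCircle → ℝ}

lemma measurable_FP (hφ : Measurable φ) (a : ℕ) : Measurable (FP φ a) := by
  have hk := measurable_kk hφ a
  exact (hk.comp (measurable_fst.prodMk (measurable_fst.comp measurable_snd))).mul
    (hk.comp (measurable_fst.prodMk (measurable_snd.comp measurable_snd)))

lemma abs_FP_le (hb : ∀ x, |φ x| ≤ 1) (a : ℕ) (τ : T3) : |FP φ a τ| ≤ 1 :=
  mul_bd (abs_kk_le hb _ _ _) (abs_kk_le hb _ _ _)

lemma int_FP (hφ : Measurable φ) (hb : ∀ x, |φ x| ≤ 1) {a : ℕ} (ha : a ≠ 0) :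
    ∫ τ, FP φ a τ ∂P3 = kap φ := by
  unfold FP
  rw [triple_sq (measurable_kk hφ a) (abs_kk_le hb a)]
  simp_rw [int_kk hφ ha]
  exact integral_dil (u := fun h => AC φ h ^ 2) ((measurable_AC hφ).pow_const 2) ha

lemma int_FP_mul (hφ : Measurable φ) (hb : ∀ x, |φ x| ≤ 1) (hψ : Measurable ψ)
    (hbψ : ∀ x, |ψ x| ≤ 1) (a b : ℕ) :
    ∫ τ, FP φ a τ * FP ψ b τ ∂P3 = ∫ h, BB φ ψ a b h ^ 2 := by
  have h1 := triple_sq (k := fun h x => kk φ a h x * kk ψ b h x)
    ((measurable_kk hφ a).mul (measurable_kk hψ b))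
    (fun h x => mul_bd (abs_kk_le hb _ _ _) (abs_kk_le hbψ _ _ _))
  rw [show (∫ h, BB φ ψ a b h ^ 2) = ∫ h, (∫ x, kk φ a h x * kk ψ b h x) ^ 2 from rfl, ← h1]
  congr 1
  funext τ
  unfold FP
  ring

/-- the sum over `D` of `(1 - F_p) / p` -/
noncomputable def YY (φ : ℕ → UnitAddCircle → ℝ) (a : ℕ → ℕ) (D : Finset ℕ) (τ : T3) : ℝ :=
  ∑ p ∈ D, (1 - FP (φ p) (a p) τ) / p

/-- its mean -/
noncomputable def YM (φ : ℕ → UnitAddCircle → ℝ) (D : Finset ℕ) : ℝ :=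
  ∑ p ∈ D, (1 - kap (φ p)) / p

lemma measurable_YY {φ : ℕ → UnitAddCircle → ℝ} (hφ : ∀ p, Measurable (φ p)) (a : ℕ → ℕ)
    (D : Finset ℕ) : Measurable (YY φ a D) :=
  Finset.measurable_fun_sum D fun p _ => (measurable_const.sub (measurable_FP (hφ p) (a p))).div_const _

theorem var_le {φ : ℕ → UnitAddCircle → ℝ} (hφ : ∀ p, Measurable (φ p)) (hb : ∀ p x, |φ p x| ≤ 1)
    {C : ℝ} (hC : ∀ p, LL1 C (φ p)) {a : ℕ → ℕ} {D : Finset ℕ} (ha : ∀ p ∈ D, a p ≠ 0) :
    ∫ τ, (YY φ a D τ - YM φ D) ^ 2 ∂P3 ≤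
      ∑ p ∈ D, (1:ℝ) / p * (6 * C * ∑ q ∈ D, (1:ℝ) / q * (1 / mx (a p) (a q))) := by
  set U : ℕ → T3 → ℝ := fun p τ => FP (φ p) (a p) τ - kap (φ p) with hU
  have hUm : ∀ p, Measurable (U p) := fun p => (measurable_FP (hφ p) (a p)).sub_const _
  have hkap : ∀ p, |kap (φ p)| ≤ 1 := fun p => by
    rw [abs_of_nonneg kap_nonneg]
    exact kap_le (hb p)
  have hUb : ∀ p τ, |U p τ| ≤ 2 := fun p τ => by
    have e1 := abs_sub (FP (φ p) (a p) τ) (kap (φ p))
    have e2 := abs_FP_le (hb p) (a p) τ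
    have e3 := hkap p
    show |FP (φ p) (a p) τ - kap (φ p)| ≤ 2
    linarith
  have hsq : ∀ τ, (YY φ a D τ - YM φ D) ^ 2 =
      ∑ p ∈ D, ∑ q ∈ D, ((1:ℝ) / p * (1 / q)) * (U p τ * U q τ) := by
    intro τ
    have h1 : YY φ a D τ - YM φ D = -∑ p ∈ D, (1:ℝ) / p * U p τ := by
      unfold YY YM
      rw [← Finset.sum_sub_distrib, ← Finset.sum_neg_distrib]
      refine Finset.sum_congr rfl fun p _ => ?_
      show _ = -((1:ℝ) / p * (FP (φ p) (a p) τ - kap (φ p)))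
      ring
    rw [h1, neg_sq, sq, Finset.sum_mul_sum]
    refine Finset.sum_congr rfl fun p _ => Finset.sum_congr rfl fun q _ => ?_
    ring
  have hUi : ∀ p q, Integrable (fun τ => U p τ * U q τ) P3 := fun p q =>
    int_bdd (f := fun τ => U p τ * U q τ) ((hUm p).mul (hUm q)) (C := 4) fun τ => by
      rw [abs_mul]
      have e1 := mul_le_mul (hUb p τ) (hUb q τ) (abs_nonneg _) zero_le_two
      linarith
  simp_rw [hsq]
  rw [integral_finsetSum D fun p _ => integrable_finsetSum D fun q _ => (hUi p q).const_mul _]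
  refine Finset.sum_le_sum fun p hp => ?_
  rw [integral_finsetSum D fun q _ => (hUi p q).const_mul _, Finset.mul_sum, Finset.mul_sum]
  refine Finset.sum_le_sum fun q hq => ?_
  rw [integral_const_mul]
  have hcov : ∫ τ, U p τ * U q τ ∂P3 = (∫ h, BB (φ p) (φ q) (a p) (a q) h ^ 2) -
      kap (φ p) * kap (φ q) := by
    have i1 : Integrable (fun τ => FP (φ p) (a p) τ * FP (φ q) (a q) τ) P3 :=
      int_mul_bdd (measurable_FP (hφ p) _) (measurable_FP (hφ q) _) (abs_FP_le (hb p) _)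
        (abs_FP_le (hb q) _)
    have i2 : Integrable (fun τ => kap (φ q) * FP (φ p) (a p) τ) P3 :=
      (int_bdd (measurable_FP (hφ p) _) (abs_FP_le (hb p) _)).const_mul _
    have i3 : Integrable (fun τ => kap (φ p) * FP (φ q) (a q) τ) P3 :=
      (int_bdd (measurable_FP (hφ q) _) (abs_FP_le (hb q) _)).const_mul _
    have h2 : ∀ τ, U p τ * U q τ = FP (φ p) (a p) τ * FP (φ q) (a q) τ -
        kap (φ q) * FP (φ p) (a p) τ - kap (φ p) * FP (φ q) (a q) τ + kap (φ p) * kap (φ q) := by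
      intro τ
      show (FP (φ p) (a p) τ - kap (φ p)) * (FP (φ q) (a q) τ - kap (φ q)) = _
      ring
    simp_rw [h2]
    have i4 : Integrable (fun τ => FP (φ p) (a p) τ * FP (φ q) (a q) τ -
        kap (φ q) * FP (φ p) (a p) τ) P3 := i1.sub i2
    have i5 : Integrable (fun τ => FP (φ p) (a p) τ * FP (φ q) (a q) τ -
        kap (φ q) * FP (φ p) (a p) τ - kap (φ p) * FP (φ q) (a q) τ) P3 := i4.sub i3
    rw [integral_add i5 (integrable_const _), integral_sub i4 i3, integral_sub i1 i2,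
      integral_const_mul, integral_const_mul, int_FP_mul (hφ p) (hb p) (hφ q) (hb q),
      int_FP (hφ p) (hb p) (ha p hp), int_FP (hφ q) (hb q) (ha q hq), integral_const]
    simp
    ring
  rw [hcov]
  have h3 := BB_moment (hφ p) (hb p) (hφ q) (hb q) (hC p) (hC q) (ha p hp) (ha q hq)
  have h4 := (le_abs_self _).trans h3
  have h5 : (1:ℝ) / p * (6 * C * ((1:ℝ) / q * (1 / mx (a p) (a q)))) =
      (1:ℝ) / p * (1 / q) * (6 * C / mx (a p) (a q)) := by ring
  rw [h5]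
  exact mul_le_mul_of_nonneg_left h4 (by positivity)

/-- a form of the Chebyshev inequality -/
theorem int_sq_le {φ : ℕ → UnitAddCircle → ℝ} (hφ : ∀ p, Measurable (φ p)) (hb : ∀ p x, |φ p x| ≤ 1)
    {a : ℕ → ℕ} {D : Finset ℕ} {V : T3 → ℝ} (hV : Measurable V) (hV1 : ∀ τ, |V τ| ≤ 1) {e : ℝ}
    (he : 0 ≤ e) (hY : 0 < YM φ D) (h : ∀ τ, YM φ D / 2 ≤ YY φ a D τ → |V τ| ≤ e) :
    ∫ τ, V τ ^ 2 ∂P3 ≤ e ^ 2 + 4 * (∫ τ, (YY φ a D τ - YM φ D) ^ 2 ∂P3) / YM φ D ^ 2 := by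
  set S : ℝ := ∑ p ∈ D, 2 / (p:ℝ) with hS
  have hkap : ∀ p, |kap (φ p)| ≤ 1 := fun p => by
    rw [abs_of_nonneg kap_nonneg]
    exact kap_le (hb p)
  have hYb : ∀ τ, |YY φ a D τ| ≤ S := by
    intro τ
    unfold YY
    refine (Finset.abs_sum_le_sum_abs _ _).trans (Finset.sum_le_sum fun p _ => ?_)
    rw [abs_div, Nat.abs_cast]
    refine div_le_div_of_nonneg_right ?_ (Nat.cast_nonneg p)
    have e1 := abs_sub (1:ℝ) (FP (φ p) (a p) τ)
    have e2 := abs_FP_le (hb p) (a p) τ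
    rw [abs_one] at e1
    linarith
  have hYm := measurable_YY hφ a D
  have i1 : Integrable (fun τ => (YY φ a D τ - YM φ D) ^ 2) P3 := by
    refine int_bdd (f := fun τ => (YY φ a D τ - YM φ D) ^ 2) ((hYm.sub_const _).pow_const 2)
      (C := (S + |YM φ D|) ^ 2) fun τ => ?_
    rw [abs_pow]
    refine pow_le_pow_left₀ (abs_nonneg _) ?_ 2
    exact (abs_sub _ _).trans (add_le_add (hYb τ) le_rfl)
  have hpt : ∀ τ, V τ ^ 2 ≤ e ^ 2 + 4 / YM φ D ^ 2 * (YY φ a D τ - YM φ D) ^ 2 := by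
    intro τ
    have h0 : 0 ≤ 4 / YM φ D ^ 2 * (YY φ a D τ - YM φ D) ^ 2 := by positivity
    rcases le_or_gt (YM φ D / 2) (YY φ a D τ) with h1 | h1
    · have h2 : V τ ^ 2 ≤ e ^ 2 := by
        rw [← sq_abs]
        exact pow_le_pow_left₀ (abs_nonneg _) (h τ h1) 2
      linarith
    · have h2 : V τ ^ 2 ≤ 1 := by
        have := sq_bd (hV1 τ)
        rwa [abs_of_nonneg (sq_nonneg _)] at this
      have h3 : 1 ≤ 4 / YM φ D ^ 2 * (YY φ a D τ - YM φ D) ^ 2 := by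
        rw [div_mul_eq_mul_div, le_div_iff₀ (by positivity)]
        nlinarith
      have h4 : 0 ≤ e ^ 2 := sq_nonneg e
      linarith
  have i2 : Integrable (fun τ => e ^ 2 + 4 / YM φ D ^ 2 * (YY φ a D τ - YM φ D) ^ 2) P3 :=
    (integrable_const _).add (i1.const_mul _)
  have i3 : Integrable (fun τ => V τ ^ 2) P3 := int_bdd (hV.pow_const 2) fun τ => sq_bd (hV1 τ)
  refine (integral_mono i3 i2 hpt).trans (le_of_eq ?_)
  rw [integral_add (integrable_const _) (i1.const_mul _), integral_const_mul, integral_const]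
  simp
  ring

end Pool.Agent.Lib.P4a7640Y
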