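import Mathlib
import Pool.Agent.Lib.P4a7640Y.Triple
import Pool.Agent.Lib.P4a7640L.Brun

/-!
# The mean square of the autocorrelations
-/

open MeasureTheory Filter Finset

namespace Pool.Agent.Lib.P4a7640Y

open Pool.Agent.Lib.P4a7640 Pool.Agent.Lib.P4a7640M

variable (φ : ℕ → UnitAddCircle → ℝ) (a : ℕ → ℕ) (H D : Finset ℕ)

/-- the product over the primes of `D` that divide the shifts of `n` -/
def WW (n : ℕ) (x : UnitAddCircle) : ℝ := ∏ h ∈ H, ∏ p ∈ D.filter (fun p => p ∣ n + h), φ p (a p • x)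

/-- the same product on the triple product -/
def KK (n : ℕ) (τ : T3) : ℝ := ∏ h ∈ H, ∏ p ∈ D.filter (fun p => p ∣ n + h), FP (φ p) (a p) τ

variable {φ a H D}

lemma measurable_WW (hφ : ∀ p, Measurable (φ p)) (n : ℕ) : Measurable (WW φ a H D n) :=
  Finset.measurable_fun_prod H fun h _ => Finset.measurable_fun_prod _ fun p _ =>
    (hφ p).comp (measurable_dil (a p))

lemma measurable_KK (hφ : ∀ p, Measurable (φ p)) (n : ℕ) : Measurable (KK φ a H D n) :=
  Finset.measurable_fun_prod H fun h _ => Finset.measurable_fun_prod _ fun p _ =>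
    measurable_FP (hφ p) (a p)

lemma abs_WW_le (hb : ∀ p x, |φ p x| ≤ 1) (n : ℕ) (x : UnitAddCircle) : |WW φ a H D n x| ≤ 1 := by
  unfold WW
  rw [Finset.abs_prod]
  refine Finset.prod_le_one (fun h _ => abs_nonneg _) fun h _ => ?_
  rw [Finset.abs_prod]
  exact Finset.prod_le_one (fun p _ => abs_nonneg _) fun p _ => hb p _

lemma abs_KK_le (hb : ∀ p x, |φ p x| ≤ 1) (n : ℕ) (τ : T3) : |KK φ a H D n τ| ≤ 1 := by
  unfold KK
  rw [Finset.abs_prod]
  refine Finset.prod_le_one (fun h _ => abs_nonneg _) fun h _ => ?_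
  rw [Finset.abs_prod]
  exact Finset.prod_le_one (fun p _ => abs_nonneg _) fun p _ => abs_FP_le (hb p) _ _

lemma KK_eq (n : ℕ) (τ : T3) : KK φ a H D n τ =
    (WW φ a H D n τ.2.1 * WW φ a H D n (τ.2.1 + τ.1)) *
      (WW φ a H D n τ.2.2 * WW φ a H D n (τ.2.2 + τ.1)) := by
  unfold KK WW
  rw [← Finset.prod_mul_distrib, ← Finset.prod_mul_distrib, ← Finset.prod_mul_distrib]
  refine Finset.prod_congr rfl fun h _ => ?_
  rw [← Finset.prod_mul_distrib, ← Finset.prod_mul_distrib, ← Finset.prod_mul_distrib]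
  rfl

theorem sum_sq (hφ : ∀ p, Measurable (φ p)) (hb : ∀ p x, |φ p x| ≤ 1) (S : Finset ℕ) (w : ℕ → ℝ) :
    ∑ n ∈ S, ∑ n' ∈ S, (w n * w n') *
      ∫ h, AC (fun x => WW φ a H D n x * WW φ a H D n' x) h ^ 2 =
      ∫ τ, (∑ n ∈ S, w n * KK φ a H D n τ) ^ 2 ∂P3 := by
  have hsq : ∀ τ, (∑ n ∈ S, w n * KK φ a H D n τ) ^ 2 =
      ∑ n ∈ S, ∑ n' ∈ S, (w n * w n') * (KK φ a H D n τ * KK φ a H D n' τ) := by
    intro τ
    rw [sq, Finset.sum_mul_sum]
    refine Finset.sum_congr rfl fun n _ => Finset.sum_congr rfl fun n' _ => ?_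
    ring
  have hi : ∀ n n', Integrable (fun τ => KK φ a H D n τ * KK φ a H D n' τ) P3 := fun n n' =>
    int_mul_bdd (measurable_KK hφ n) (measurable_KK hφ n') (abs_KK_le hb n) (abs_KK_le hb n')
  simp_rw [hsq]
  rw [integral_finsetSum S fun n _ => integrable_finsetSum S fun n' _ => (hi n n').const_mul _]
  refine Finset.sum_congr rfl fun n _ => ?_
  rw [integral_finsetSum S fun n' _ => (hi n n').const_mul _]
  refine Finset.sum_congr rfl fun n' _ => ?_
  rw [integral_const_mul]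
  congr 1
  set G : UnitAddCircle → ℝ := fun x => WW φ a H D n x * WW φ a H D n' x with hG
  have hGm : Measurable G := (measurable_WW hφ n).mul (measurable_WW hφ n')
  have hGb : ∀ x, |G x| ≤ 1 := fun x => mul_bd (abs_WW_le hb n x) (abs_WW_le hb n' x)
  have h1 := triple_sq (k := fun h x => G x * G (x + h))
    ((hGm.comp measurable_snd).mul (hGm.comp (measurable_snd.add measurable_fst)))
    (fun h x => mul_bd (hGb _) (hGb _))
  rw [show (∫ h, AC G h ^ 2) = ∫ h, (∫ x, G x * G (x + h)) ^ 2 from rfl, ← h1]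
  congr 1
  funext τ
  rw [KK_eq, KK_eq]
  ring

/-- the primes of `D` with `F_p = -1` -/
noncomputable def Qt (φ : ℕ → UnitAddCircle → ℝ) (a : ℕ → ℕ) (D : Finset ℕ) (τ : T3) : Finset ℕ :=
  D.filter fun p => FP (φ p) (a p) τ = -1

lemma FP_pm {φ : UnitAddCircle → ℝ} (hs : ∀ x, |φ x| = 1) (a : ℕ) (τ : T3) :
    FP φ a τ = 1 ∨ FP φ a τ = -1 := by
  have h : |FP φ a τ| = 1 := by
    unfold FP kk
    rw [abs_mul, abs_mul, abs_mul, hs, hs, hs, hs]
    norm_num
  exact eq_or_eq_neg_of_abs_eq h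

lemma KK_sQ (hs : ∀ p x, |φ p x| = 1) (n : ℕ) (τ : T3) :
    KK φ a H D n τ = ∏ h ∈ H, P4a7640L.sQ (Qt φ a D τ) (n + h) := by
  unfold KK P4a7640L.sQ Qt
  refine Finset.prod_congr rfl fun h _ => ?_
  rw [Finset.prod_filter, Finset.prod_filter]
  refine Finset.prod_congr rfl fun p _ => ?_
  rcases FP_pm (hs p) (a p) τ with h1 | h1
  · rw [h1, ite_self]
    norm_num
  · rw [h1]
    simp

lemma sum_Qt (hs : ∀ p x, |φ p x| = 1) (τ : T3) :
    2 * ∑ p ∈ Qt φ a D τ, (1:ℝ) / p = YY φ a D τ := by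
  unfold YY Qt
  rw [Finset.sum_filter, Finset.mul_sum]
  refine Finset.sum_congr rfl fun p _ => ?_
  rcases FP_pm (hs p) (a p) τ with h1 | h1
  · rw [h1]
    norm_num
  · rw [h1]
    simp
    ring

theorem v_bound (hφ : ∀ p, Measurable (φ p)) (hs : ∀ p x, |φ p x| = 1) (hne : H.Nonempty)
    {M N : ℕ} (hM : 1 ≤ M) (hN : 3 ≤ N) {e : ℝ} (he : 0 ≤ e)
    (hbrun : ∀ Q ⊆ D, |P4a7640L.WA M N (fun n => ∏ h ∈ H, P4a7640L.sQ Q (n + h))| ≤
      Real.exp (-2 * H.card * ∑ p ∈ Q, (1:ℝ) / p) + e) (hY : 0 < YM φ D) :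
    ∑ n ∈ Ioc M N, ∑ n' ∈ Ioc M N, ((1:ℝ) / n / Real.log N * (1 / n' / Real.log N)) *
      ∫ h, AC (fun x => WW φ a H D n x * WW φ a H D n' x) h ^ 2 ≤
      (Real.exp (-YM φ D / 2) + e) ^ 2 +
        4 * (∫ τ, (YY φ a D τ - YM φ D) ^ 2 ∂P3) / YM φ D ^ 2 := by
  have hb : ∀ p x, |φ p x| ≤ 1 := fun p x => (hs p x).le
  have hlog : 1 ≤ Real.log N := P4a7640L.Brun.log_ge_one hN
  have hl : 0 < Real.log N := by linarith
  rw [sum_sq hφ hb (Ioc M N) (fun n => (1:ℝ) / n / Real.log N)]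
  have hWA : ∀ τ, ∑ n ∈ Ioc M N, (1:ℝ) / n / Real.log N * KK φ a H D n τ =
      P4a7640L.WA M N (fun n => ∏ h ∈ H, P4a7640L.sQ (Qt φ a D τ) (n + h)) := by
    intro τ
    unfold P4a7640L.WA
    rw [Finset.sum_div]
    refine Finset.sum_congr rfl fun n _ => ?_
    rw [KK_sQ hs]
    ring
  refine int_sq_le hφ hb ?_ ?_ (by positivity) hY ?_
  · exact Finset.measurable_fun_sum _ fun n _ => (measurable_KK hφ n).const_mul _
  · intro τ
    calc |∑ n ∈ Ioc M N, (1:ℝ) / n / Real.log N * KK φ a H D n τ|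
        ≤ ∑ n ∈ Ioc M N, (1:ℝ) / n / Real.log N := by
          refine (Finset.abs_sum_le_sum_abs _ _).trans (Finset.sum_le_sum fun n _ => ?_)
          have h1 : 0 ≤ (1:ℝ) / n / Real.log N := by positivity
          rw [abs_mul, abs_of_nonneg h1]
          exact mul_le_of_le_one_right h1 (abs_KK_le hb n τ)
      _ = (∑ n ∈ Ioc M N, (1:ℝ) / n) / Real.log N := by rw [Finset.sum_div]
      _ ≤ 1 := by
          rw [div_le_one hl]
          exact P4a7640L.Brun.sum_inv_le hM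
  · intro τ hτ
    rw [hWA]
    have hsub : Qt φ a D τ ⊆ D := Finset.filter_subset _ _
    refine (hbrun _ hsub).trans (add_le_add ?_ le_rfl)
    apply Real.exp_le_exp.mpr
    have h1 := sum_Qt (a := a) (D := D) hs τ
    have h2 : (1:ℝ) ≤ H.card := by exact_mod_cast hne.card_pos
    have h3 : (-2:ℝ) * H.card * ∑ p ∈ Qt φ a D τ, (1:ℝ) / p = -(H.card * YY φ a D τ) := by
      rw [← h1]
      ring
    rw [h3]
    have h4 : 0 ≤ YY φ a D τ := by linarith
    nlinarith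

end Pool.Agent.Lib.P4a7640Y
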