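import Mathlib
import Pool.Agent.Lib.P4a7640Y.Circ3

/-!
# The bound for one pair of integers
-/

open MeasureTheory Filter

namespace Pool.Agent.Lib.P4a7640Y

open Pool.Agent.Lib.P4a7640 Pool.Agent.Lib.P4a7640M

/-- the product over the primes of `S` -/
def GG (φ : ℕ → UnitAddCircle → ℝ) (a : ℕ → ℕ) (S : Finset ℕ) (x : UnitAddCircle) : ℝ :=
  ∏ p ∈ S, φ p (a p • x)

variable {φ : ℕ → UnitAddCircle → ℝ} {a : ℕ → ℕ}

lemma measurable_GG (hφ : ∀ p, Measurable (φ p)) (S : Finset ℕ) : Measurable (GG φ a S) :=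
  Finset.measurable_fun_prod _ fun p _ => (hφ p).comp (measurable_dil (a p))

lemma abs_GG_le (hb : ∀ p x, |φ p x| ≤ 1) (S : Finset ℕ) (x : UnitAddCircle) : |GG φ a S x| ≤ 1 := by
  unfold GG
  rw [Finset.abs_prod]
  exact Finset.prod_le_one (fun p _ => abs_nonneg _) fun p _ => hb p _

lemma abs_prod_sub_le {ι : Type*} [DecidableEq ι] (S : Finset ι) {f g : ι → ℝ} (hf : ∀ i ∈ S, |f i| ≤ 1)
    (hg : ∀ i ∈ S, |g i| ≤ 1) : |∏ i ∈ S, f i - ∏ i ∈ S, g i| ≤ ∑ i ∈ S, |f i - g i| := by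
  induction S using Finset.induction_on with
  | empty => simp
  | insert i S hi ih =>
    rw [Finset.prod_insert hi, Finset.prod_insert hi, Finset.sum_insert hi]
    have h1 := ih (fun j hj => hf j (Finset.mem_insert_of_mem hj))
      (fun j hj => hg j (Finset.mem_insert_of_mem hj))
    have h2 : |∏ j ∈ S, f j| ≤ 1 := by
      rw [Finset.abs_prod]
      exact Finset.prod_le_one (fun j _ => abs_nonneg _) fun j hj => hf j (Finset.mem_insert_of_mem hj)
    have h3 := hg i (Finset.mem_insert_self i S)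
    have h4 : f i * ∏ j ∈ S, f j - g i * ∏ j ∈ S, g j =
        (f i - g i) * ∏ j ∈ S, f j + g i * (∏ j ∈ S, f j - ∏ j ∈ S, g j) := by ring
    rw [h4]
    refine (abs_add_le _ _).trans (add_le_add ?_ ?_)
    · rw [abs_mul]
      exact mul_le_of_le_one_right (abs_nonneg _) h2
    · rw [abs_mul]
      exact (mul_le_of_le_one_left (abs_nonneg _) h3).trans h1

/-- a shift of one factor -/
lemma one_shift {φ : UnitAddCircle → ℝ} (hφ : Measurable φ) {C : ℝ} (hC : LL1 C φ) {a : ℕ}
    (ha : a ≠ 0) {s : UnitAddCircle} {r : ℝ} (hr : a • s = (r : UnitAddCircle)) :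
    ∫ x : UnitAddCircle, |φ (a • (x + s)) - φ (a • x)| ≤ C * |r| := by
  have m1 : ∀ t : UnitAddCircle, Measurable fun x => |φ (x + t) - φ x| := fun t =>
    ((hφ.comp (measurable_add_const t)).sub hφ).abs
  have h1 : ∫ x : UnitAddCircle, |φ (a • (x + s)) - φ (a • x)| =
      ∫ x : UnitAddCircle, |φ (x + (r : UnitAddCircle)) - φ x| := by
    rw [← integral_dil (m1 (r : UnitAddCircle)) ha]
    congr 1
    funext x
    rw [smul_add, hr]
  rw [h1]
  rcases le_total 0 r with h | h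
  · rw [abs_of_nonneg h]
    exact hC r h
  · rw [abs_of_nonpos h]
    have h2 := hC (-r) (by linarith)
    refine le_trans (le_of_eq ?_) h2
    have h3 := integral_add_right_eq_self (μ := (volume : Measure UnitAddCircle))
      (fun x : UnitAddCircle => |φ (x + (((-r) : ℝ) : UnitAddCircle)) - φ x|) (r : UnitAddCircle)
    rw [← h3]
    congr 1
    funext x
    have e1 : x + (r : UnitAddCircle) + (((-r) : ℝ) : UnitAddCircle) = x := by
      rw [add_assoc, ← AddCircle.coe_add, add_neg_cancel, AddCircle.coe_zero, add_zero]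
    rw [e1, abs_sub_comm]

lemma GG_shift (hφ : ∀ p, Measurable (φ p)) (hb : ∀ p x, |φ p x| ≤ 1) {C : ℝ}
    (hC : ∀ p, LL1 C (φ p)) {S : Finset ℕ} (ha : ∀ p ∈ S, a p ≠ 0) {δ : ℝ} {s : UnitAddCircle}
    (hs : ∀ p ∈ S, ∃ r : ℝ, |r| ≤ δ ∧ a p • s = (r : UnitAddCircle)) :
    ∫ x, |GG φ a S (x + s) - GG φ a S x| ≤ S.card * (C * δ) := by
  have hb2 : ∀ p x y, |(|φ p x - φ p y|)| ≤ 2 := fun p x y => by
    rw [abs_abs]
    have e1 := abs_sub (φ p x) (φ p y)
    have e2 := hb p x
    have e3 := hb p y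
    linarith
  have hm : ∀ p, Measurable fun x : UnitAddCircle => |φ p (a p • (x + s)) - φ p (a p • x)| := fun p =>
    (((hφ p).comp ((measurable_dil (a p)).comp (measurable_add_const s))).sub
      ((hφ p).comp (measurable_dil (a p)))).abs
  have hG := measurable_GG (a := a) hφ S
  calc ∫ x, |GG φ a S (x + s) - GG φ a S x|
      ≤ ∫ x, ∑ p ∈ S, |φ p (a p • (x + s)) - φ p (a p • x)| := by
        refine integral_mono ?_ ?_ fun x => ?_
        · exact ((int_bdd (hG.comp (measurable_add_const s)) fun x => abs_GG_le hb S _).sub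
            (int_bdd hG fun x => abs_GG_le hb S _)).abs
        · exact integrable_finsetSum S fun p _ => int_bdd (hm p) fun x => hb2 _ _ _
        · exact abs_prod_sub_le S (fun p _ => hb p _) (fun p _ => hb p _)
    _ = ∑ p ∈ S, ∫ x : UnitAddCircle, |φ p (a p • (x + s)) - φ p (a p • x)| :=
        integral_finsetSum S fun p _ => int_bdd (hm p) fun x => hb2 _ _ _
    _ ≤ ∑ _p ∈ S, C * δ := by
        refine Finset.sum_le_sum fun p hp => ?_
        obtain ⟨r, hr, hrs⟩ := hs p hp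
        exact (one_shift (hφ p) (hC p) (ha p hp) hrs).trans
          (mul_le_mul_of_nonneg_left hr (hC p).nonneg)
    _ = S.card * (C * δ) := by rw [Finset.sum_const, nsmul_eq_mul]

lemma sqrt_le_aux {q m v η : ℝ} (hq : 0 ≤ q) (hm : 0 ≤ m) (hmv : m ^ 2 ≤ v) (hη : 0 < η) :
    Real.sqrt (q * m) ≤ η + q ^ 2 * v / η ^ 3 := by
  set t := Real.sqrt (q * m) with ht
  have ht0 : 0 ≤ t := Real.sqrt_nonneg _
  have ht2 : t ^ 2 = q * m := Real.sq_sqrt (mul_nonneg hq hm)
  have hv : 0 ≤ v := (sq_nonneg m).trans hmv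
  have h0 : 0 ≤ q ^ 2 * v / η ^ 3 := by positivity
  rcases le_or_gt t η with h | h
  · linarith
  · have h1 : t ^ 4 ≤ q ^ 2 * v := by
      have e1 : t ^ 4 = q ^ 2 * m ^ 2 := by
        calc t ^ 4 = (t ^ 2) ^ 2 := by ring
          _ = _ := by rw [ht2]; ring
      rw [e1]
      exact mul_le_mul_of_nonneg_left hmv (sq_nonneg q)
    have h2 : t ≤ q ^ 2 * v / η ^ 3 := by
      rw [le_div_iff₀ (by positivity)]
      have h3 : η ^ 3 ≤ t ^ 3 := pow_le_pow_left₀ hη.le h.le 3
      calc t * η ^ 3 ≤ t * t ^ 3 := mul_le_mul_of_nonneg_left h3 ht0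
        _ = t ^ 4 := by ring
        _ ≤ _ := h1
    linarith

theorem pair_bound (hφ : ∀ p, Measurable (φ p)) (hb : ∀ p x, |φ p x| ≤ 1) {C : ℝ}
    (hC : ∀ p, LL1 C (φ p)) {S S' : Finset ℕ} (ha : ∀ p ∈ S ∪ S', a p ≠ 0)
    {W : UnitAddCircle → ℝ} (hW : Measurable W) (hWb : ∀ x, |W x| ≤ 1) {Q : ℕ} (hQ : 0 < Q)
    {j : ℕ} (hj : (S ∪ S').card ≤ j) {η : ℝ} (hη : 0 < η) :
    |∫ x, (GG φ a S x * GG φ a S' x) * W x| ≤
      (S.card + S'.card) * (C / Q) + (η + (Q:ℝ) ^ (2 * j) * (∫ h, AC W h ^ 2) / η ^ 3) := by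
  have hQ1 : (1:ℝ) ≤ Q := by exact_mod_cast hQ
  have hG := measurable_GG (a := a) hφ S
  have hG' := measurable_GG (a := a) hφ S'
  have h1 : ∀ s : UnitAddCircle, (∀ p ∈ S ∪ S', ∃ r : ℝ, |r| ≤ 1 / Q ∧ a p • s = (r : UnitAddCircle)) →
      ∫ x, |GG φ a S (x + s) * GG φ a S' (x + s) - GG φ a S x * GG φ a S' x| ≤
        (S.card + S'.card) * (C / Q) := by
    intro s hs
    have e1 := GG_shift hφ hb hC (fun p hp => ha p (Finset.mem_union_left _ hp))
      (fun p hp => hs p (Finset.mem_union_left _ hp))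
    have e2 := GG_shift hφ hb hC (fun p hp => ha p (Finset.mem_union_right _ hp))
      (fun p hp => hs p (Finset.mem_union_right _ hp))
    have i1 : Integrable (fun x => |GG φ a S (x + s) - GG φ a S x|) volume :=
      ((int_bdd (hG.comp (measurable_add_const s)) fun x => abs_GG_le hb S _).sub
        (int_bdd hG fun x => abs_GG_le hb S _)).abs
    have i2 : Integrable (fun x => |GG φ a S' (x + s) - GG φ a S' x|) volume :=
      ((int_bdd (hG'.comp (measurable_add_const s)) fun x => abs_GG_le hb S' _).sub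
        (int_bdd hG' fun x => abs_GG_le hb S' _)).abs
    calc ∫ x, |GG φ a S (x + s) * GG φ a S' (x + s) - GG φ a S x * GG φ a S' x|
        ≤ ∫ x, (|GG φ a S (x + s) - GG φ a S x| + |GG φ a S' (x + s) - GG φ a S' x|) := by
          refine integral_mono ?_ (i1.add i2) fun x => ?_
          · exact ((int_mul_bdd (hG.comp (measurable_add_const s)) (hG'.comp (measurable_add_const s))
              (fun x => abs_GG_le hb S _) (fun x => abs_GG_le hb S' _)).sub
              (int_mul_bdd hG hG' (fun x => abs_GG_le hb S _) (fun x => abs_GG_le hb S' _))).abs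
          · show |GG φ a S (x + s) * GG φ a S' (x + s) - GG φ a S x * GG φ a S' x| ≤
              |GG φ a S (x + s) - GG φ a S x| + |GG φ a S' (x + s) - GG φ a S' x|
            have e3 : GG φ a S (x + s) * GG φ a S' (x + s) - GG φ a S x * GG φ a S' x =
                (GG φ a S (x + s) - GG φ a S x) * GG φ a S' (x + s) +
                  GG φ a S x * (GG φ a S' (x + s) - GG φ a S' x) := by ring
            rw [e3]
            refine (abs_add_le _ _).trans (add_le_add ?_ ?_)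
            · rw [abs_mul]
              exact mul_le_of_le_one_right (abs_nonneg _) (abs_GG_le hb S' _)
            · rw [abs_mul]
              exact mul_le_of_le_one_left (abs_nonneg _) (abs_GG_le hb S _)
      _ = (∫ x, |GG φ a S (x + s) - GG φ a S x|) + ∫ x, |GG φ a S' (x + s) - GG φ a S' x| :=
          integral_add i1 i2
      _ ≤ S.card * (C * (1 / Q)) + S'.card * (C * (1 / Q)) := add_le_add e1 e2
      _ = _ := by ring
  have h2 := decouple (ψ := fun x => GG φ a S x * GG φ a S' x) hW (hG.mul hG') hWb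
    (fun x => mul_bd (abs_GG_le hb S x) (abs_GG_le hb S' x)) hQ h1
  refine h2.trans (add_le_add le_rfl ?_)
  have hAC : ∀ h, |AC W h| ≤ 1 := abs_AC_le hWb
  have hACm := measurable_AC hW
  have hm0 : 0 ≤ ∫ h, |AC W h| := integral_nonneg fun h => abs_nonneg _
  have hmv : (∫ h, |AC W h|) ^ 2 ≤ ∫ h, AC W h ^ 2 := by
    have h3 := sq_int_le (μ := (volume : Measure UnitAddCircle)) hACm.abs (C := 1)
      fun x => by rw [abs_abs]; exact hAC x
    simp_rw [sq_abs] at h3
    exact h3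
  have h4 : (Q:ℝ) ^ (S ∪ S').card * ∫ h, |AC W h| ≤ (Q:ℝ) ^ j * ∫ h, |AC W h| :=
    mul_le_mul_of_nonneg_right (pow_le_pow_right₀ hQ1 hj) hm0
  refine (Real.sqrt_le_sqrt h4).trans ?_
  have h5 := sqrt_le_aux (q := (Q:ℝ) ^ j) (by positivity) hm0 hmv hη
  rw [← pow_mul, mul_comm j 2] at h5
  exact h5

end Pool.Agent.Lib.P4a7640Y
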