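import Mathlib
import Pool.Agent.Lib.P4a7640Y.Par
import Pool.Agent.Lib.P4a7640.Mertens
import Pool.Agent.Lib.P4a7640.LogAvg
import Pool.Agent.Lib.P4a7640L.Trunc
import Pool.Agent.Lib.P4a7640L.MertensB
import Pool.Agent.Lib.P4a7640M.GoodPair
import Pool.Agent.Lib.P4a7640M.MomBound

/-!
# Few prime factors outside the window
-/

open Filter Topology

namespace Pool.Agent.Lib.P4a7640Y

open Pool.Agent.Lib.P4a7640 Pool.Agent.Lib.P4a7640M Pool.Agent.Lib.P4a7640L

lemma tail_dvd_sum (N h d : ℕ) (hd : 1 ≤ d) :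
    ∑ n ∈ (Finset.Icc 1 N).filter (fun n => d ∣ n + h), (1:ℝ) / n ≤
      (1 + h) * (1 + Real.log ((N + h : ℕ) : ℝ)) * (1 / d) := by
  have hd0 : (0:ℝ) < d := by exact_mod_cast hd
  have h1 : ∑ n ∈ (Finset.Icc 1 N).filter (fun n => d ∣ n + h), (1:ℝ) / n ≤
      ∑ n ∈ (Finset.Icc 1 N).filter (fun n => d ∣ n + h), (1 + (h:ℝ)) * (1 / ((n + h : ℕ) : ℝ)) := by
    refine Finset.sum_le_sum (fun n hn => ?_)
    rw [Finset.mem_filter, Finset.mem_Icc] at hn
    have hn1 : (1:ℝ) ≤ n := by exact_mod_cast hn.1.1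
    have hh0 : (0:ℝ) ≤ h := Nat.cast_nonneg h
    rw [mul_one_div, div_le_div_iff₀ (by linarith) (by push_cast; linarith)]
    push_cast
    nlinarith
  have h2 : ∑ n ∈ (Finset.Icc 1 N).filter (fun n => d ∣ n + h), (1:ℝ) / ((n + h : ℕ) : ℝ) ≤
      ∑ j ∈ Finset.Icc 1 ((N + h) / d), (1:ℝ) / ((d * j : ℕ) : ℝ) := by
    have hinj : Set.InjOn (fun n => (n + h) / d)
        ((Finset.Icc 1 N).filter (fun n => d ∣ n + h) : Finset ℕ) := by
      intro a ha b hb hab
      rw [Finset.mem_coe, Finset.mem_filter] at ha hb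
      simp only at hab
      have e1 := Nat.mul_div_cancel' ha.2
      have e2 := Nat.mul_div_cancel' hb.2
      rw [hab] at e1
      omega
    calc _ = ∑ n ∈ (Finset.Icc 1 N).filter (fun n => d ∣ n + h),
          (1:ℝ) / ((d * ((n + h) / d) : ℕ) : ℝ) := by
          refine Finset.sum_congr rfl (fun n hn => ?_)
          rw [Finset.mem_filter] at hn
          rw [Nat.mul_div_cancel' hn.2]
      _ = ∑ j ∈ ((Finset.Icc 1 N).filter (fun n => d ∣ n + h)).image (fun n => (n + h) / d),
          (1:ℝ) / ((d * j : ℕ) : ℝ) := by rw [Finset.sum_image hinj]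
      _ ≤ _ := by
          refine Finset.sum_le_sum_of_subset_of_nonneg ?_ (fun _ _ _ => by positivity)
          intro j hj
          rw [Finset.mem_image] at hj
          obtain ⟨n, hn, rfl⟩ := hj
          rw [Finset.mem_filter, Finset.mem_Icc] at hn
          rw [Finset.mem_Icc]
          refine ⟨?_, Nat.div_le_div_right (by omega)⟩
          exact Nat.div_pos (Nat.le_of_dvd (by omega) hn.2) hd
  have h3 : ∑ j ∈ Finset.Icc 1 ((N + h) / d), (1:ℝ) / ((d * j : ℕ) : ℝ) ≤
      (1 / d) * (1 + Real.log ((N + h : ℕ) : ℝ)) := by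
    have e1 : ∀ j ∈ Finset.Icc 1 ((N + h) / d), (1:ℝ) / ((d * j : ℕ) : ℝ) = (1 / d) * (1 / j) := by
      intro j _
      push_cast
      rw [div_mul_div_comm, one_mul]
    rw [Finset.sum_congr rfl e1, ← Finset.mul_sum]
    refine mul_le_mul_of_nonneg_left ?_ (by positivity)
    refine (sum_inv_le _).trans ?_
    have : Real.log (((N + h) / d : ℕ) : ℝ) ≤ Real.log ((N + h : ℕ) : ℝ) := by
      rcases Nat.eq_zero_or_pos ((N + h) / d) with h0 | h0
      · rw [h0, Nat.cast_zero, Real.log_zero]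
        exact Real.log_natCast_nonneg _
      · apply Real.log_le_log (by exact_mod_cast h0)
        exact_mod_cast Nat.div_le_self _ _
    linarith
  calc _ ≤ ∑ n ∈ (Finset.Icc 1 N).filter (fun n => d ∣ n + h),
        (1 + (h:ℝ)) * (1 / ((n + h : ℕ) : ℝ)) := h1
    _ = (1 + (h:ℝ)) * ∑ n ∈ (Finset.Icc 1 N).filter (fun n => d ∣ n + h),
        (1:ℝ) / ((n + h : ℕ) : ℝ) := by rw [Finset.mul_sum]
    _ ≤ (1 + (h:ℝ)) * ((1 / d) * (1 + Real.log ((N + h : ℕ) : ℝ))) :=
        mul_le_mul_of_nonneg_left (h2.trans h3) (by positivity)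
    _ = _ := by ring

open Classical in
lemma tail_count (S : Finset ℕ) (hS : ∀ p ∈ S, p.Prime) (N h k : ℕ) :
    ∑ n ∈ (Finset.Icc 1 N).filter (fun n => k ≤ (S.filter (fun p => p ∣ n + h)).card),
      (1:ℝ) / n ≤
      (1 + h) * (1 + Real.log ((N + h : ℕ) : ℝ)) *
        ((∑ p ∈ S, (1:ℝ) / p) ^ k / (k.factorial : ℝ)) := by
  have h1 : ∑ n ∈ (Finset.Icc 1 N).filter (fun n => k ≤ (S.filter (fun p => p ∣ n + h)).card),
      (1:ℝ) / n ≤ ∑ n ∈ Finset.Icc 1 N, ∑ A ∈ S.powersetCard k,
        if (∏ p ∈ A, p) ∣ n + h then (1:ℝ) / n else 0 := by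
    rw [Finset.sum_filter]
    refine Finset.sum_le_sum (fun n hn => ?_)
    have hnn : ∀ A ∈ S.powersetCard k, (0:ℝ) ≤ if (∏ p ∈ A, p) ∣ n + h then (1:ℝ) / n else 0 := by
      intro A _
      split_ifs
      · positivity
      · exact le_rfl
    split_ifs with hc
    · obtain ⟨A, hA, hAc⟩ := Finset.exists_subset_card_eq hc
      have hAS : A ∈ S.powersetCard k := by
        rw [Finset.mem_powersetCard]
        exact ⟨hA.trans (Finset.filter_subset _ _), hAc⟩
      have hdvd : (∏ p ∈ A, p) ∣ n + h := by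
        apply Finset.prod_primes_dvd
        · intro p hp
          exact (hS p (Finset.mem_filter.1 (hA hp)).1).prime
        · intro p hp
          exact (Finset.mem_filter.1 (hA hp)).2
      refine le_trans ?_ (Finset.single_le_sum hnn hAS)
      rw [if_pos hdvd]
    · exact Finset.sum_nonneg hnn
  refine h1.trans ?_
  rw [Finset.sum_comm]
  calc _ ≤ ∑ A ∈ S.powersetCard k, (1 + (h:ℝ)) * (1 + Real.log ((N + h : ℕ) : ℝ)) *
        ∏ p ∈ A, (1:ℝ) / p := by
        refine Finset.sum_le_sum (fun A hA => ?_)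
        rw [Finset.mem_powersetCard] at hA
        rw [← Finset.sum_filter]
        have h2 := tail_dvd_sum N h (∏ p ∈ A, p)
          (Finset.prod_pos (fun p hp => (hS p (hA.1 hp)).pos))
        refine h2.trans (le_of_eq ?_)
        rw [Finset.prod_div_distrib, Finset.prod_const_one]
        push_cast
        rfl
    _ = (1 + (h:ℝ)) * (1 + Real.log ((N + h : ℕ) : ℝ)) *
        ∑ A ∈ S.powersetCard k, ∏ p ∈ A, (1:ℝ) / p := by rw [Finset.mul_sum]
    _ ≤ _ := by
        refine mul_le_mul_of_nonneg_left (ek_le S (fun p => (1:ℝ) / p)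
          (fun p _ => by positivity) k) ?_
        have := Real.log_natCast_nonneg (N + h)
        positivity

lemma tail_biUnion (H : Finset ℕ) (t : ℕ → Finset ℕ) (f : ℕ → ℝ) (hf : ∀ n, 0 ≤ f n) :
    ∑ n ∈ H.biUnion t, f n ≤ ∑ h ∈ H, ∑ n ∈ t h, f n := by
  classical
  induction H using Finset.induction_on with
  | empty => simp
  | insert a s ha ih =>
    rw [Finset.biUnion_insert, Finset.sum_insert ha]
    refine le_trans ?_ (add_le_add le_rfl ih)
    rw [← Finset.sum_union_inter]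
    have : 0 ≤ ∑ n ∈ t a ∩ s.biUnion t, f n := Finset.sum_nonneg (fun n _ => hf n)
    linarith

open Classical in
/-- the primes outside the window -/
noncomputable def RS (N m : ℕ) : Finset ℕ :=
  (Finset.Icc 1 (N + m)).filter (fun p => p.Prime ∧ ¬ InW N p)

lemma eventually_add_le_sq (m : ℕ) : ∀ᶠ N : ℕ in atTop,
    Real.log ((N + m : ℕ) : ℝ) ≤ 2 * Real.log N := by
  filter_upwards [eventually_ge_atTop (m + 2)] with N hN
  have h1 : ((N + m : ℕ) : ℝ) ≤ (N:ℝ) ^ 2 := by
    have : N + m ≤ N ^ 2 := by nlinarith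
    exact_mod_cast this
  have h2 : (0:ℝ) < ((N + m : ℕ) : ℝ) := by
    exact_mod_cast (by omega : 0 < N + m)
  calc _ ≤ Real.log ((N:ℝ) ^ 2) := Real.log_le_log h2 h1
    _ = _ := by rw [Real.log_pow]; norm_num

lemma rest_mass (m : ℕ) : ∃ C : ℝ, ∀ᶠ N : ℕ in atTop,
    ∑ p ∈ RS N m, (1:ℝ) / p ≤ 5 * Real.log (lam N) + C := by
  classical
  obtain ⟨C, hC0, hC⟩ := mertens_upper
  refine ⟨7 + C, ?_⟩
  have hlogN : Tendsto (fun N : ℕ => Real.log N) atTop atTop :=
    Real.tendsto_log_atTop.comp tendsto_natCast_atTop_atTop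
  have hlin : ∀ᶠ x : ℝ in atTop, 4 * Real.log x ≤ x := by
    have h := (Real.isLittleO_log_id_atTop).bound (show (0:ℝ) < 1/4 by norm_num)
    filter_upwards [h, eventually_ge_atTop (1:ℝ)] with x hx h1
    rw [Real.norm_eq_abs, id, Real.norm_eq_abs] at hx
    have e1 := le_abs_self (Real.log x)
    have e2 : |x| = x := abs_of_nonneg (by linarith)
    rw [e2] at hx
    linarith
  filter_upwards [hlogN.eventually_ge_atTop 4, tendsto_lam.eventually hlin,
    tendsto_lam.eventually_ge_atTop 1, eventually_add_le_sq m, eventually_ge_atTop 2]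
    with N h1 h2 h3 h4 h5
  have hl0 : 0 < lam N := by linarith
  have hlog0 : 0 < Real.log N := by linarith
  -- split
  have hsub : RS N m ⊆ Nat.primesLE ⌊Real.log N⌋₊ ∪
      (Finset.Icc 1 (N + m)).filter (fun p : ℕ => p.Prime ∧ zup N < p) := by
    intro p hp
    unfold RS at hp
    rw [Finset.mem_filter] at hp
    rw [Finset.mem_union]
    rcases le_or_gt (p:ℝ) (Real.log N) with h | h
    · left
      rw [Nat.mem_primesLE]
      exact ⟨Nat.le_floor h, hp.2.1⟩
    · right
      rw [Finset.mem_filter]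
      refine ⟨hp.1, hp.2.1, ?_⟩
      by_contra hcon
      push Not at hcon
      exact hp.2.2 ⟨hp.2.1, h, hcon⟩
  have hfl : 3 ≤ ⌊Real.log N⌋₊ := Nat.le_floor (by push_cast; linarith)
  have hA : ∑ p ∈ Nat.primesLE ⌊Real.log N⌋₊, (1:ℝ) / p ≤ Real.log (lam N) + 6 := by
    refine (sum_inv_primes_le _ hfl).trans ?_
    have e1 : ((⌊Real.log N⌋₊ : ℕ) : ℝ) ≤ Real.log N := Nat.floor_le hlog0.le
    have e2 : (3:ℝ) ≤ ((⌊Real.log N⌋₊ : ℕ) : ℝ) := by exact_mod_cast hfl
    have e3 : 0 < Real.log ((⌊Real.log N⌋₊ : ℕ) : ℝ) := Real.log_pos (by linarith)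
    have e4 : Real.log ((⌊Real.log N⌋₊ : ℕ) : ℝ) ≤ lam N := by
      unfold lam
      exact Real.log_le_log (by linarith) e1
    have := Real.log_le_log e3 e4
    linarith
  set α := lam N - 4 * Real.log (lam N) with hα
  have hα0 : 0 ≤ α := by rw [hα]; linarith
  have hαe : α = Real.log (Real.log N / lam N ^ 4) := by
    rw [Real.log_div hlog0.ne' (by positivity), Real.log_pow, hα]
    unfold lam
    push_cast
    ring
  have hratio : 0 < Real.log N / lam N ^ 4 := by positivity
  have hB : ∑ p ∈ (Finset.Icc 1 (N + m)).filter (fun p : ℕ => p.Prime ∧ zup N < p), (1:ℝ) / p ≤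
      4 * Real.log (lam N) + 1 + C := by
    have hαβ : α ≤ lam N + 1 := by
      have : 0 ≤ Real.log (lam N) := Real.log_nonneg h3
      rw [hα]; linarith
    refine (hC α (lam N + 1) hα0 hαβ _ ?_).trans ?_
    · intro p hp
      rw [Finset.mem_filter, Finset.mem_Icc] at hp
      have e1 : Real.log N / lam N ^ 4 < Real.log p := by
        have := Real.log_lt_log (Real.exp_pos _) hp.2.2
        unfold zup at this
        rwa [Real.log_exp] at this
      refine ⟨hp.2.1, ?_, ?_⟩
      · unfold ll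
        rw [hαe]
        exact Real.log_le_log hratio e1.le
      · unfold ll
        have e2 : Real.log p ≤ 2 * Real.log N := by
          refine le_trans ?_ h4
          apply Real.log_le_log
          · exact_mod_cast hp.2.1.pos
          · exact_mod_cast hp.1.2
        calc Real.log (Real.log p) ≤ Real.log (2 * Real.log N) :=
              Real.log_le_log (hratio.trans e1) e2
          _ = Real.log 2 + lam N := by
              rw [Real.log_mul (by norm_num) hlog0.ne']
              rfl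
          _ ≤ lam N + 1 := by
              have := Real.log_two_lt_d9
              linarith
    · have e1 : Real.exp (-α) ≤ 1 := Real.exp_le_one_iff.2 (by linarith)
      have e2 : C * Real.exp (-α) ≤ C := by nlinarith
      rw [hα] at *
      linarith
  calc ∑ p ∈ RS N m, (1:ℝ) / p ≤ ∑ p ∈ Nat.primesLE ⌊Real.log N⌋₊ ∪
      (Finset.Icc 1 (N + m)).filter (fun p : ℕ => p.Prime ∧ zup N < p), (1:ℝ) / p :=
        Finset.sum_le_sum_of_subset_of_nonneg hsub (fun _ _ _ => by positivity)
    _ ≤ ∑ p ∈ Nat.primesLE ⌊Real.log N⌋₊, (1:ℝ) / p +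
      ∑ p ∈ (Finset.Icc 1 (N + m)).filter (fun p : ℕ => p.Prime ∧ zup N < p), (1:ℝ) / p := by
        rw [← Finset.sum_union_inter]
        have : (0:ℝ) ≤ ∑ p ∈ Nat.primesLE ⌊Real.log N⌋₊ ∩
          (Finset.Icc 1 (N + m)).filter (fun p : ℕ => p.Prime ∧ zup N < p), (1:ℝ) / p :=
          Finset.sum_nonneg (fun _ _ => by positivity)
        linarith
    _ ≤ _ := by linarith

open Classical in
/-- module Tail -/
theorem tail_mass (H : Finset ℕ) : ∃ K : ℝ, 0 < K ∧ ∃ C : ℝ, 0 < C ∧ ∀ᶠ N : ℕ in atTop,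
    (∑ n ∈ (Finset.Icc 1 N).filter (fun n => K * Real.log (lam N) <
      ((oddT (MM H n)).filter (fun p => ¬ InW N p)).card), (1:ℝ) / n) / Real.log N ≤ C / lam N ^ 4 := by
  set m := H.sup id with hm
  have hHm : ∀ h ∈ H, h ≤ m := fun h hh => Finset.le_sup (f := id) hh
  obtain ⟨C₁, hC₁⟩ := rest_mass m
  refine ⟨25 * H.card + 1, by positivity,
    3 * Real.exp (2 * C₁) * (∑ h ∈ H, (1 + (h:ℝ))) + 1, by positivity, ?_⟩
  have hlogN : Tendsto (fun N : ℕ => Real.log N) atTop atTop :=
    Real.tendsto_log_atTop.comp tendsto_natCast_atTop_atTop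
  filter_upwards [hC₁, hlogN.eventually_ge_atTop 1, tendsto_lam.eventually_ge_atTop 3,
    eventually_add_le_sq m, eventually_ge_atTop 2] with N h1 h2 h3 h4 h5
  have hl1 : 1 ≤ lam N := by linarith
  have hl0 : 0 < lam N := by linarith
  have hll : 0 < Real.log (lam N) := Real.log_pos (by linarith)
  have hlog0 : 0 < Real.log N := by linarith
  set k := ⌊25 * Real.log (lam N)⌋₊ + 1 with hk
  have hk1 : 25 * Real.log (lam N) ≤ k := by
    rw [hk]
    push_cast
    exact (Nat.lt_floor_add_one _).le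
  set S := RS N m with hS
  have hSp : ∀ p ∈ S, p.Prime := fun p hp => (Finset.mem_filter.1 hp).2.1
  -- the cover
  have hcov : (Finset.Icc 1 N).filter (fun n => (25 * H.card + 1) * Real.log (lam N) <
      ((oddT (MM H n)).filter (fun p => ¬ InW N p)).card) ⊆
      H.biUnion (fun h => (Finset.Icc 1 N).filter
        (fun n => k ≤ (S.filter (fun p => p ∣ n + h)).card)) := by
    intro n hn
    rw [Finset.mem_filter] at hn
    rw [Finset.mem_biUnion]
    by_contra hcon
    push Not at hcon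
    have hle : ∀ h ∈ H, (((S.filter (fun p => p ∣ n + h)).card : ℕ) : ℝ) ≤
        25 * Real.log (lam N) := by
      intro h hh
      have e1 := hcon h hh
      rw [Finset.mem_filter] at e1
      push Not at e1
      have e2 := e1 hn.1
      have e3 : (S.filter (fun p => p ∣ n + h)).card ≤ ⌊25 * Real.log (lam N)⌋₊ := by omega
      calc _ ≤ ((⌊25 * Real.log (lam N)⌋₊ : ℕ) : ℝ) := by exact_mod_cast e3
        _ ≤ _ := Nat.floor_le (by positivity)
    have hsub : (oddT (MM H n)).filter (fun p => ¬ InW N p) ⊆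
        H.biUnion (fun h => S.filter (fun p => p ∣ n + h)) := by
      intro p hp
      rw [Finset.mem_filter] at hp
      obtain ⟨h, hh, hd⟩ := exists_dvd_of_mem_oddT hp.1
      rw [Finset.mem_biUnion]
      refine ⟨h, hh, ?_⟩
      rw [Finset.mem_filter]
      refine ⟨?_, hd⟩
      rw [hS, RS, Finset.mem_filter, Finset.mem_Icc]
      have hpp := prime_of_mem_oddT hp.1
      have hn1 := Finset.mem_Icc.1 hn.1
      have hm1 := hHm h hh
      have := Nat.le_of_dvd (by omega) hd
      exact ⟨⟨hpp.one_lt.le, by omega⟩, hpp, hp.2⟩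
    have e4 : (((oddT (MM H n)).filter (fun p => ¬ InW N p)).card : ℝ) ≤
        H.card * (25 * Real.log (lam N)) := by
      calc _ ≤ ((∑ h ∈ H, (S.filter (fun p => p ∣ n + h)).card : ℕ) : ℝ) := by
            exact_mod_cast (Finset.card_le_card hsub).trans Finset.card_biUnion_le
        _ = ∑ h ∈ H, (((S.filter (fun p => p ∣ n + h)).card : ℕ) : ℝ) := by push_cast; rfl
        _ ≤ ∑ h ∈ H, 25 * Real.log (lam N) := Finset.sum_le_sum hle
        _ = _ := by rw [Finset.sum_const, nsmul_eq_mul]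
    have e5 := hn.2
    nlinarith
  -- one shift
  have hE0 : 0 ≤ ∑ p ∈ S, (1:ℝ) / p := Finset.sum_nonneg (fun _ _ => by positivity)
  have hone : ∀ h ∈ H, ∑ n ∈ (Finset.Icc 1 N).filter
      (fun n => k ≤ (S.filter (fun p => p ∣ n + h)).card), (1:ℝ) / n ≤
      (1 + h) * (3 * Real.log N) * (Real.exp (2 * C₁) / lam N ^ 4) := by
    intro h hh
    refine (tail_count S hSp N h k).trans ?_
    have e1 : Real.log ((N + h : ℕ) : ℝ) ≤ 2 * Real.log N := by
      refine le_trans ?_ h4
      apply Real.log_le_log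
      · exact_mod_cast (by omega : 0 < N + h)
      · exact_mod_cast (by have := hHm h hh; omega : N + h ≤ N + m)
    have e2 : (∑ p ∈ S, (1:ℝ) / p) ^ k / (k.factorial : ℝ) ≤ Real.exp (2 * C₁) / lam N ^ 4 := by
      have f1 := Real.pow_div_factorial_le_exp (2 * ∑ p ∈ S, (1:ℝ) / p) (by positivity) k
      rw [mul_pow] at f1
      have f2 : (∑ p ∈ S, (1:ℝ) / p) ^ k / (k.factorial : ℝ) ≤
          Real.exp (2 * ∑ p ∈ S, (1:ℝ) / p) * Real.exp (-(Real.log 2 * k)) := by
        have f3 : Real.exp (-(Real.log 2 * k)) = ((2:ℝ) ^ k)⁻¹ := by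
          rw [Real.exp_neg, Real.exp_mul, Real.exp_log (by norm_num), Real.rpow_natCast]
        rw [f3, ← div_eq_mul_inv, le_div_iff₀ (by positivity)]
        calc _ = 2 ^ k * (∑ p ∈ S, (1:ℝ) / p) ^ k / (k.factorial : ℝ) := by ring
          _ ≤ _ := f1
      refine f2.trans ?_
      rw [← Real.exp_add]
      have f4 : Real.exp (2 * C₁) / lam N ^ 4 = Real.exp (2 * C₁ - 4 * Real.log (lam N)) := by
        rw [Real.exp_sub]
        congr 1
        rw [show 4 * Real.log (lam N) = Real.log (lam N ^ 4) by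
          rw [Real.log_pow]; norm_num, Real.exp_log (by positivity)]
      rw [f4]
      apply Real.exp_le_exp.2
      have f5 := Real.log_two_gt_d9
      have f6 : Real.log 2 * (25 * Real.log (lam N)) ≤ Real.log 2 * k :=
        mul_le_mul_of_nonneg_left hk1 (by linarith)
      nlinarith
    have e3 := Real.log_natCast_nonneg (N + h)
    refine mul_le_mul ?_ e2 (by positivity) (by positivity)
    refine mul_le_mul_of_nonneg_left ?_ (by positivity)
    linarith
  have htot : ∑ n ∈ (Finset.Icc 1 N).filter (fun n => (25 * H.card + 1) * Real.log (lam N) <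
      ((oddT (MM H n)).filter (fun p => ¬ InW N p)).card), (1:ℝ) / n ≤
      ∑ h ∈ H, (1 + h) * (3 * Real.log N) * (Real.exp (2 * C₁) / lam N ^ 4) := by
    refine le_trans (Finset.sum_le_sum_of_subset_of_nonneg hcov
      (fun _ _ _ => by positivity)) ?_
    refine le_trans ?_ (Finset.sum_le_sum hone)
    exact tail_biUnion _ _ _ (fun n => by positivity)
  rw [div_le_iff₀ hlog0]
  refine htot.trans ?_
  have g1 : ∑ h ∈ H, (1 + (h:ℝ)) * (3 * Real.log N) * (Real.exp (2 * C₁) / lam N ^ 4) =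
      (3 * Real.exp (2 * C₁) * ∑ h ∈ H, (1 + (h:ℝ))) / lam N ^ 4 * Real.log N := by
    rw [← Finset.sum_mul, ← Finset.sum_mul]
    ring
  rw [g1]
  refine mul_le_mul_of_nonneg_right ?_ hlog0.le
  refine div_le_div_of_nonneg_right ?_ (by positivity)
  linarith

end Pool.Agent.Lib.P4a7640Y
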