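import Mathlib
import Pool.Agent.Lib.P4a7640Y.Par
import Pool.Agent.Lib.P4a7640Y.LipPhi

/-!
# Small shifts of the periodic sign function: explicit constant
-/

open MeasureTheory Filter

namespace Pool.Agent.Lib.P4a7640Y

open Pool.Agent.Lib.P4a7640 Pool.Agent.Lib.P4a7640M

open Classical in
/-- the explicit constant -/
theorem lip_phiC_explicit {S : Finset (Set ℝ)} (hS : ∀ J ∈ S, J.OrdConnected) :
    LL1 (2 * ((insert 1 (endPts S) : Finset ℝ).card : ℝ)) (phiC (⋃ J ∈ S, J)) := by
  have hAm : MeasurableSet (⋃ J ∈ S, J) := FinInt.measurableSet ⟨S, hS, rfl⟩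
  set A : Set ℝ := ⋃ J ∈ S, J with hAdef
  set E : Finset ℝ := insert 1 (endPts S) with hE
  have hE1 : (1:ℝ) ≤ E.card := by
    have : 1 ≤ E.card := Finset.card_pos.mpr ⟨1, Finset.mem_insert_self _ _⟩
    exact_mod_cast this
  intro s hs
  have hper := phi_periodic A
  have h0 : ∫ x, |phiC A (x + (s : UnitAddCircle)) - phiC A x| =
      ∫ t in (0:ℝ)..1, |phi A (t + s) - phi A t| := by
    have h1 := UnitAddCircle.intervalIntegral_preimage 0
      (fun x => |phiC A (x + (s : UnitAddCircle)) - phiC A x|)
    rw [zero_add] at h1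
    rw [← h1]
    refine intervalIntegral.integral_congr fun t _ => ?_
    show |phiC A ((t : UnitAddCircle) + (s : UnitAddCircle)) - phiC A (t : UnitAddCircle)| = _
    rw [← AddCircle.coe_add, phiC_coe, phiC_coe]
  rw [h0]
  have hb2 : ∀ t, |phi A (t + s) - phi A t| ≤ 2 := fun t => by
    have e1 := abs_sub (phi A (t + s)) (phi A t)
    rw [abs_phi, abs_phi] at e1
    linarith
  have hm : Measurable fun t => |phi A (t + s) - phi A t| :=
    (((measurable_phi_one hAm).comp (measurable_add_const s)).sub (measurable_phi_one hAm)).abs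
  rcases le_or_gt 1 s with h1s | h1s
  · have h2 : ∫ t in (0:ℝ)..1, |phi A (t + s) - phi A t| ≤ ∫ t in (0:ℝ)..1, (2:ℝ) := by
      refine intervalIntegral.integral_mono_on zero_le_one ?_ intervalIntegrable_const
        fun t _ => hb2 t
      refine IntervalIntegrable.mono_fun' (g := fun _ => (2:ℝ)) intervalIntegrable_const
        hm.aestronglyMeasurable (Eventually.of_forall fun t => ?_)
      show ‖|phi A (t + s) - phi A t|‖ ≤ 2
      rw [Real.norm_eq_abs, abs_abs]
      exact hb2 t
    refine h2.trans ?_
    simp only [intervalIntegral.integral_const, smul_eq_mul]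
    nlinarith
  · set ind : ℝ → ℝ → ℝ := fun c t => (Set.Icc (c - s) c).indicator (fun _ => (1:ℝ)) t with hind
    have hind0 : ∀ c t, 0 ≤ ind c t := fun c t => Set.indicator_nonneg (fun _ _ => zero_le_one) t
    have hpt : ∀ t ∈ Set.Icc (0:ℝ) 1, |phi A (t + s) - phi A t| ≤ ∑ c ∈ E, 2 * ind c t := by
      intro t ht
      by_cases hex : ∃ c ∈ E, t ∈ Set.Icc (c - s) c
      · obtain ⟨c, hc, htc⟩ := hex
        have h3 : ind c t = 1 := Set.indicator_of_mem htc _
        calc |phi A (t + s) - phi A t| ≤ 2 := hb2 t
          _ = 2 * ind c t := by rw [h3, mul_one]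
          _ ≤ ∑ c ∈ E, 2 * ind c t :=
              Finset.single_le_sum (f := fun c => 2 * ind c t)
                (fun c _ => mul_nonneg zero_le_two (hind0 c t)) hc
      · push Not at hex
        have hsum : 0 ≤ ∑ c ∈ E, 2 * ind c t :=
          Finset.sum_nonneg fun c _ => mul_nonneg zero_le_two (hind0 c t)
        have hno : ∀ c ∈ E, c < t ∨ t + s < c := by
          intro c hc
          have h4 := hex c hc
          rw [Set.mem_Icc, not_and_or, not_le, not_le] at h4
          rcases h4 with h4 | h4
          · right; linarith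
          · left; exact h4
        have ht1 : t + s < 1 := by
          rcases hno 1 (Finset.mem_insert_self _ _) with h5 | h5
          · linarith [ht.2]
          · exact h5
        have hf1 : Int.fract t = t := Int.fract_eq_self.mpr ⟨ht.1, by linarith⟩
        have hf2 : Int.fract (t + s) = t + s := Int.fract_eq_self.mpr ⟨by linarith [ht.1], ht1⟩
        have hiff : t ∈ A ↔ t + s ∈ A := by
          rw [hAdef]
          simp only [Set.mem_iUnion, exists_prop]
          exact exists_congr fun J => and_congr_right fun hJ =>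
            mem_iff_of_no_endPt hS ht.1 (by linarith) ht1
              (fun c hc => hno c (Finset.mem_insert_of_mem hc)) hJ
        have heq : phi A (t + s) = phi A t := by
          unfold phi
          rw [hf1, hf2]
          by_cases hmem : t ∈ A
          · rw [if_pos hmem, if_pos (hiff.mp hmem)]
          · rw [if_neg hmem, if_neg (fun h' => hmem (hiff.mpr h'))]
        rw [heq, sub_self, abs_zero]
        exact hsum
    have hindi : ∀ c, IntervalIntegrable (fun t => 2 * ind c t) volume 0 1 := by
      intro c
      refine IntervalIntegrable.const_mul ?_ 2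
      refine IntervalIntegrable.mono_fun' (g := fun _ => (1:ℝ)) intervalIntegrable_const
        (measurable_const.indicator measurableSet_Icc).aestronglyMeasurable
        (Eventually.of_forall fun t => ?_)
      show ‖ind c t‖ ≤ 1
      rw [Real.norm_eq_abs, abs_of_nonneg (hind0 c t)]
      exact Set.indicator_le_self' (fun _ _ => zero_le_one) t
    calc ∫ t in (0:ℝ)..1, |phi A (t + s) - phi A t|
        ≤ ∫ t in (0:ℝ)..1, ∑ c ∈ E, 2 * ind c t := by
          refine intervalIntegral.integral_mono_on zero_le_one ?_ ?_ hpt
          · refine IntervalIntegrable.mono_fun' (g := fun _ => (2:ℝ)) intervalIntegrable_const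
              hm.aestronglyMeasurable (Eventually.of_forall fun t => ?_)
            show ‖|phi A (t + s) - phi A t|‖ ≤ 2
            rw [Real.norm_eq_abs, abs_abs]
            exact hb2 t
          · have h6 := IntervalIntegrable.sum (μ := volume) (a := (0:ℝ)) (b := 1) E
              (f := fun c t => 2 * ind c t) fun c _ => hindi c
            rw [Finset.sum_fn] at h6
            exact h6
      _ = ∑ c ∈ E, ∫ t in (0:ℝ)..1, 2 * ind c t :=
          intervalIntegral.integral_finsetSum fun c _ => hindi c
      _ ≤ ∑ c ∈ E, 2 * s := by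
          refine Finset.sum_le_sum fun c _ => ?_
          rw [intervalIntegral.integral_const_mul]
          exact mul_le_mul_of_nonneg_left (int_indicator_le c s hs) zero_le_two
      _ = 2 * E.card * s := by
          rw [Finset.sum_const, nsmul_eq_mul]
          ring

lemma LL1.mono {L L' : ℝ} {u : UnitAddCircle → ℝ} (h : LL1 L u) (hL : L ≤ L') : LL1 L' u :=
  fun s hs => (h s hs).trans (mul_le_mul_of_nonneg_right hL hs)

lemma card_endPts_le (S : Finset (Set ℝ)) : (endPts S).card ≤ 2 * S.card + 1 := by
  classical
  unfold endPts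
  refine (Finset.card_insert_le _ _).trans ?_
  have h1 := Finset.card_union_le (S.image (fun J => sInf (J ∩ Set.Icc 0 1)))
    (S.image (fun J => sSup (J ∩ Set.Icc (0:ℝ) 1)))
  have h2 := Finset.card_image_le (s := S) (f := fun J => sInf (J ∩ Set.Icc (0:ℝ) 1))
  have h3 := Finset.card_image_le (s := S) (f := fun J => sSup (J ∩ Set.Icc (0:ℝ) 1))
  omega

/-- module LipK (imports Par, LipPhi): LipPhi.lip_phiC with the constant made explicit
(`(endPts S).card ≤ 2 k + 1`) -/
theorem lip_kint {k : ℕ} {A : Set ℝ} (hA : KInt k A) : LL1 (4 * k + 4) (phiC A) := by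
  classical
  obtain ⟨S, hSk, hS, rfl⟩ := hA
  refine (lip_phiC_explicit hS).mono ?_
  have h1 : (insert 1 (endPts S) : Finset ℝ).card ≤ 2 * k + 2 := by
    refine (Finset.card_insert_le _ _).trans ?_
    have := card_endPts_le S
    omega
  have h2 : ((insert 1 (endPts S) : Finset ℝ).card : ℝ) ≤ 2 * k + 2 := by exact_mod_cast h1
  linarith

end Pool.Agent.Lib.P4a7640Y
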