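import Pool.Agent.Lib.P4a7640Y.Circ3

/-!
# The sum of the inverse reduced sizes
-/

set_option autoImplicit false

namespace Pool.Agent.Lib.P4a7640Y

open Classical in
/-- few `q` have a small reduced pair `(a p, a q)` -/
theorem card_small {D : Finset ℕ} {a : ℕ → ℕ} {k : ℕ} (ha : ∀ p ∈ D, a p ≠ 0)
    (hk : ∀ n, (D.filter (fun p => a p = n)).card ≤ k) {R : ℕ} {p : ℕ} (hp : p ∈ D) :
    (D.filter (fun q => mx (a p) (a q) ≤ R)).card ≤ k * R ^ 2 := by
  have h1 := Finset.card_le_mul_card_image_of_maps_to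
    (s := D.filter (fun q => mx (a p) (a q) ≤ R))
    (t := (Finset.Icc 1 R) ×ˢ (Finset.Icc 1 R))
    (f := fun q => (red (a p) (a q), red (a q) (a p))) (fun q hq => by
      rw [Finset.mem_filter] at hq
      have h2 : red (a p) (a q) ≤ R := (le_max_left _ _).trans hq.2
      have h3 : red (a q) (a p) ≤ R := (le_max_right _ _).trans hq.2
      rw [Finset.mem_product, Finset.mem_Icc, Finset.mem_Icc]
      exact ⟨⟨Nat.one_le_iff_ne_zero.2 (red_ne (ha q hq.1)), h2⟩,
        ⟨Nat.one_le_iff_ne_zero.2 (red_ne (ha p hp)), h3⟩⟩) k (fun z hz => ?_)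
  · refine h1.trans ?_
    rw [Finset.card_product, Nat.card_Icc, Nat.add_sub_cancel, pow_two]
  · rcases Finset.eq_empty_or_nonempty
      ((D.filter (fun q => mx (a p) (a q) ≤ R)).filter
        (fun q => (red (a p) (a q), red (a q) (a p)) = z)) with h0 | ⟨q₀, hq₀⟩
    · rw [h0]; simp
    · refine (Finset.card_le_card fun q hq => ?_).trans (hk (a q₀))
      rw [Finset.mem_filter, Finset.mem_filter] at hq hq₀
      rw [Finset.mem_filter]
      refine ⟨hq.1.1, ?_⟩
      have e : (red (a p) (a q), red (a q) (a p)) = (red (a p) (a q₀), red (a q₀) (a p)) :=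
        hq.2.trans hq₀.2.symm
      have e1 : red (a p) (a q) = red (a p) (a q₀) := congrArg Prod.fst e
      have e2 : red (a q) (a p) = red (a q₀) (a p) := congrArg Prod.snd e
      have g1 := red_spec (a := a p) (b := a q) (ha p hp) (ha q hq.1.1)
      have g2 := red_spec (a := a p) (b := a q₀) (ha p hp) (ha q₀ hq₀.1.1)
      have hne : red (a q₀) (a p) ≠ 0 := red_ne (ha p hp)
      have hgcd : Nat.gcd (a p) (a q) = Nat.gcd (a p) (a q₀) := by
        have h4 : red (a q₀) (a p) * Nat.gcd (a p) (a q) =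
            red (a q₀) (a p) * Nat.gcd (a p) (a q₀) := by
          rw [← g2.2.1]
          conv_rhs => rw [g1.2.1]
          rw [e2]
        exact Nat.eq_of_mul_eq_mul_left (Nat.pos_of_ne_zero hne) h4
      rw [g1.2.2.1, g2.2.2.1, e1, hgcd]

open Classical in
/-- module PairSum (imports Circ3, for `mx` and `red`) -/
theorem pair_sum {D : Finset ℕ} {a : ℕ → ℕ} {k : ℕ} (ha : ∀ p ∈ D, a p ≠ 0)
    (hk : ∀ n, (D.filter (fun p => a p = n)).card ≤ k) {y : ℝ} (hy : 0 < y) (hD : ∀ p ∈ D, y < p)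
    {R : ℕ} (hR : 0 < R) {p : ℕ} (hp : p ∈ D) :
    ∑ q ∈ D, (1:ℝ) / q * (1 / mx (a p) (a q)) ≤ k * (R:ℝ) ^ 2 / y + (∑ q ∈ D, (1:ℝ) / q) / R := by
  have hmx : ∀ q ∈ D, 1 ≤ mx (a p) (a q) := fun q hq =>
    (Nat.one_le_iff_ne_zero.2 (red_ne (ha q hq))).trans (le_max_left _ _)
  rw [← Finset.sum_filter_add_sum_filter_not D (fun q => mx (a p) (a q) ≤ R)]
  refine add_le_add ?_ ?_
  · have h1 : ∀ q ∈ D.filter (fun q => mx (a p) (a q) ≤ R),
        (1:ℝ) / q * (1 / mx (a p) (a q)) ≤ 1 / y := by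
      intro q hq
      rw [Finset.mem_filter] at hq
      have h2 : (1:ℝ) ≤ mx (a p) (a q) := by exact_mod_cast hmx q hq.1
      have h3 : (1:ℝ) / mx (a p) (a q) ≤ 1 := by
        rw [div_le_one (by linarith)]; exact h2
      have h4 : (0:ℝ) ≤ 1 / q := by positivity
      calc (1:ℝ) / q * (1 / mx (a p) (a q)) ≤ 1 / q * 1 := mul_le_mul_of_nonneg_left h3 h4
        _ = 1 / q := mul_one _
        _ ≤ 1 / y := one_div_le_one_div_of_le hy (hD q hq.1).le
    refine (Finset.sum_le_card_nsmul _ _ _ h1).trans ?_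
    rw [nsmul_eq_mul, mul_one_div]
    refine div_le_div_of_nonneg_right ?_ hy.le
    exact_mod_cast card_small ha hk hp
  · rw [Finset.sum_div]
    have h5 : (0:ℝ) < R := by exact_mod_cast hR
    refine (Finset.sum_le_sum fun q hq => ?_).trans
      (Finset.sum_le_sum_of_subset_of_nonneg (Finset.filter_subset _ _) fun q _ _ => by positivity)
    rw [Finset.mem_filter, not_le] at hq
    have h6 : (R:ℝ) ≤ mx (a p) (a q) := by exact_mod_cast hq.2.le
    rw [div_eq_mul_one_div (1 / (q:ℝ)) (R:ℝ)]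
    exact mul_le_mul_of_nonneg_left (one_div_le_one_div_of_le h5 h6) (by positivity)

end Pool.Agent.Lib.P4a7640Y
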