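import Mathlib
import Pool.Agent.Lib.P4a7640.AS
import Pool.Agent.Lib.P4a7640M.MetricAE
import Pool.Agent.Lib.P4a7640Y.Par

/-!
# From the second moment bound to almost every real number
-/

open MeasureTheory Filter Topology

namespace Pool.Agent.Lib.P4a7640Y

open Pool.Agent.Lib.P4a7640 Pool.Agent.Lib.P4a7640M

lemma measurable_xg {A : ℕ → Set ℝ} (hA : ∀ p, MeasurableSet (A p)) (a : ℕ → ℕ) :
    Measurable (xg A a) := by
  refine measurable_pi_iff.mpr fun p => ?_
  unfold xg
  refine Measurable.ite ?_ measurable_const measurable_const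
  exact (measurable_fract.comp (measurable_id.mul_const _)) (hA p)

open Classical in
/-- Almost every real number: the second moment bound implies that all correlations vanish.
Proof: as for `P4a7640M.metric_ae`. -/
theorem ae_of_moment {A : ℕ → Set ℝ} {a : ℕ → ℕ} (hA : ∀ p, MeasurableSet (A p))
    (hm : ∀ H : Finset ℕ, H.Nonempty → ∃ B : ℝ, 0 < B ∧ ∀ᶠ N : ℕ in atTop,
      ∀ w : ℕ → ℝ, (∀ n, |w n| ≤ 1) → ∀ u : ℝ,
        ∫ α in u..(u + 1), FF w H N (xg A a α) ^ 2 ≤ B / lam N ^ 4) (g : ℕ → ℤˣ) :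
    ∀ᵐ α : ℝ, ∀ H : Finset ℕ, H.Nonempty →
      Tendsto (LA (prodSeq (fun n => g n * rnd (xg A a α) n) H)) atTop (𝓝 0) := by
  have h1 : ∀ H : Finset ℕ, ∀ᵐ α : ℝ, H.Nonempty →
      Tendsto (LA (prodSeq (fun n => g n * rnd (xg A a α) n) H)) atTop (𝓝 0) := by
    intro H
    by_cases hne : H.Nonempty
    · obtain ⟨B, hB, hev⟩ := hm H hne
      have hev2 := tendsto_NK.eventually hev
      have hev3 : ∀ᶠ k : ℕ in atTop, 2 ≤ NK k := tendsto_NK.eventually_ge_atTop 2
      obtain ⟨k₀, hk₀⟩ := eventually_atTop.mp (hev2.and (hev3.and (eventually_ge_atTop 1)))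
      set f : ℕ → ℝ → ℝ := fun k α => FF (prodSeq g H) H (NK (k + k₀)) (xg A a α) with hf
      have hmeas : ∀ k, Measurable (f k) := fun k =>
        (measurable_FF _ _ _).comp (measurable_xg hA a)
      have hbound : ∀ k x, |f k x| ≤ 1 + 1 / Real.log (NK (k + k₀)) := fun k x =>
        FF_bound (fun n => (abs_prodSeq g H n).le) H (hk₀ (k + k₀) (by omega)).2.1 _
      have hmomk : ∀ k : ℕ, 1 ≤ k → ∀ u : ℝ, ∫ x in u..(u + 1), f k x ^ 2 ≤ B / (k:ℝ) ^ 2 := by
        intro k hk u
        have h2 := (hk₀ (k + k₀) (by omega)).1 (prodSeq g H) (fun n => (abs_prodSeq g H n).le) u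
        refine h2.trans ?_
        have h3 := sqrt_le_loglog_NK (k + k₀)
        have hk0 : (0:ℝ) < k := by exact_mod_cast hk
        have h4 : Real.sqrt k ≤ lam (NK (k + k₀)) := by
          refine le_trans (Real.sqrt_le_sqrt ?_) h3
          push_cast
          have : (0:ℝ) ≤ k₀ := Nat.cast_nonneg k₀
          linarith
        have h5 : (k:ℝ) ^ 2 ≤ lam (NK (k + k₀)) ^ 4 := by
          calc (k:ℝ) ^ 2 = (Real.sqrt k) ^ 4 := by
                rw [show (4:ℕ) = 2 * 2 by norm_num, pow_mul, Real.sq_sqrt hk0.le]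
            _ ≤ _ := pow_le_pow_left₀ (Real.sqrt_nonneg _) h4 4
        exact div_le_div_of_nonneg_left hB.le (by positivity) h5
      have hall : ∀ j : ℤ, ∀ᵐ α ∂((volume : Measure ℝ).restrict (Set.Ioc (j:ℝ) (j + 1))),
          Tendsto (fun k => f k α) atTop (𝓝 0) := by
        intro j
        exact ae_restrict_tendsto hmeas hbound hB.le fun k hk => hmomk k hk j
      have hall2 := (ae_restrict_iUnion_iff (μ := (volume : Measure ℝ))
        (fun j : ℤ => Set.Ioc (j:ℝ) (j + 1)) (fun α => Tendsto (fun k => f k α) atTop (𝓝 0))).mpr hall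
      rw [iUnion_Ioc_intCast, Measure.restrict_univ] at hall2
      filter_upwards [hall2] with α hα _
      apply interp fun n => (abs_prodSeq _ H n).le
      have h6 : Tendsto (fun k => FF (prodSeq g H) H (NK k) (xg A a α)) atTop (𝓝 0) :=
        (tendsto_add_atTop_iff_nat k₀).mp hα
      refine h6.congr fun k => ?_
      rw [LA_prodSeq_mul]
    · exact Eventually.of_forall fun x hx => absurd hx hne
  exact ae_all_iff.mpr h1

end Pool.Agent.Lib.P4a7640Y
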