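import Mathlib
import Pool.Agent.Lib.P4a7640Y.AE
import Pool.Agent.Lib.P4a7640.Stable

/-!
# Arbitrary bounded weights: almost every real number
-/

open MeasureTheory Filter Topology

namespace Pool.Agent.Lib.P4a7640Y

open Pool.Agent.Lib.P4a7640 Pool.Agent.Lib.P4a7640M

/-- `g` is uncorrelated with all shifts of the weight `w`, in all residue classes. -/
def VanishW (w : ℕ → ℝ) (g : ℕ → ℤˣ) : Prop :=
  ∀ H : Finset ℕ, H.Nonempty → ∀ K R b : ℕ,
    Tendsto (LA (fun n => w (n + K) * (if n % R = b then 1 else 0) * prodSeq g H n)) atTop (𝓝 0)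

lemma LA_weight_rnd (w : ℕ → ℝ) (x : SS) (H : Finset ℕ) (N : ℕ) :
    LA (fun n => w n * prodSeq (rnd x) H n) N = FF w H N x := by
  unfold LA FF prodSeq
  congr 1
  refine Finset.sum_congr rfl fun n _ => ?_
  ring

/-- One weight. -/
theorem ae_of_moment_w {A : ℕ → Set ℝ} {a : ℕ → ℕ} (hA : ∀ p, MeasurableSet (A p))
    (hm : ∀ H : Finset ℕ, H.Nonempty → ∃ B : ℝ, 0 < B ∧ ∀ᶠ N : ℕ in atTop,
      ∀ w : ℕ → ℝ, (∀ n, |w n| ≤ 1) → ∀ u : ℝ,
        ∫ α in u..(u + 1), FF w H N (xg A a α) ^ 2 ≤ B / lam N ^ 4)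
    {w : ℕ → ℝ} (hw : ∀ n, |w n| ≤ 1) {H : Finset ℕ} (hne : H.Nonempty) :
    ∀ᵐ α : ℝ, Tendsto (LA (fun n => w n * prodSeq (rnd (xg A a α)) H n)) atTop (𝓝 0) := by
  obtain ⟨B, hB, hev⟩ := hm H hne
  have hev2 := tendsto_NK.eventually hev
  have hev3 : ∀ᶠ k : ℕ in atTop, 2 ≤ NK k := tendsto_NK.eventually_ge_atTop 2
  obtain ⟨k₀, hk₀⟩ := eventually_atTop.mp (hev2.and (hev3.and (eventually_ge_atTop 1)))
  set f : ℕ → ℝ → ℝ := fun k α => FF w H (NK (k + k₀)) (xg A a α) with hf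
  have hmeas : ∀ k, Measurable (f k) := fun k =>
    (measurable_FF _ _ _).comp (measurable_xg hA a)
  have hbound : ∀ k x, |f k x| ≤ 1 + 1 / Real.log (NK (k + k₀)) := fun k x =>
    FF_bound hw H (hk₀ (k + k₀) (by omega)).2.1 _
  have hmomk : ∀ k : ℕ, 1 ≤ k → ∀ u : ℝ, ∫ x in u..(u + 1), f k x ^ 2 ≤ B / (k:ℝ) ^ 2 := by
    intro k hk u
    have h2 := (hk₀ (k + k₀) (by omega)).1 w hw u
    refine h2.trans ?_
    have h3 := sqrt_le_loglog_NK (k + k₀)
    have hk0 : (0:ℝ) < k := by exact_mod_cast hk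
    have h4 : Real.sqrt k ≤ lam (NK (k + k₀)) := by
      refine le_trans (Real.sqrt_le_sqrt ?_) h3
      push_cast
      have : (0:ℝ) ≤ k₀ := Nat.cast_nonneg k₀
      linarith
    have h5 : (k:ℝ) ^ 2 ≤ lam (NK (k + k₀)) ^ 4 := by
      calc (k:ℝ) ^ 2 = (Real.sqrt k) ^ 4 := by
            rw [show (4:ℕ) = 2 * 2 by norm_num, pow_mul, Real.sq_sqrt hk0.le]
        _ ≤ _ := pow_le_pow_left₀ (Real.sqrt_nonneg _) h4 4
    exact div_le_div_of_nonneg_left hB.le (by positivity) h5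
  have hall : ∀ j : ℤ, ∀ᵐ α ∂((volume : Measure ℝ).restrict (Set.Ioc (j:ℝ) (j + 1))),
      Tendsto (fun k => f k α) atTop (𝓝 0) := by
    intro j
    exact ae_restrict_tendsto hmeas hbound hB.le fun k hk => hmomk k hk j
  have hall2 := (ae_restrict_iUnion_iff (μ := (volume : Measure ℝ))
    (fun j : ℤ => Set.Ioc (j:ℝ) (j + 1)) (fun α => Tendsto (fun k => f k α) atTop (𝓝 0))).mpr hall
  rw [iUnion_Ioc_intCast, Measure.restrict_univ] at hall2
  filter_upwards [hall2] with α hα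
  have hb : ∀ n, |w n * prodSeq (rnd (xg A a α)) H n| ≤ 1 := by
    intro n
    rw [abs_mul, abs_prodSeq, mul_one]
    exact hw n
  apply interp hb
  have h6 : Tendsto (fun k => FF w H (NK k) (xg A a α)) atTop (𝓝 0) :=
    (tendsto_add_atTop_iff_nat k₀).mp hα
  refine h6.congr fun k => ?_
  rw [LA_weight_rnd]

/-- All correlations with a bounded weight. -/
theorem ae_vanishW {A : ℕ → Set ℝ} {a : ℕ → ℕ} (hA : ∀ p, MeasurableSet (A p))
    (hm : ∀ H : Finset ℕ, H.Nonempty → ∃ B : ℝ, 0 < B ∧ ∀ᶠ N : ℕ in atTop,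
      ∀ w : ℕ → ℝ, (∀ n, |w n| ≤ 1) → ∀ u : ℝ,
        ∫ α in u..(u + 1), FF w H N (xg A a α) ^ 2 ≤ B / lam N ^ 4)
    {w : ℕ → ℝ} (hw : ∀ n, |w n| ≤ 1) (g : ℕ → ℤˣ) :
    ∀ᵐ α : ℝ, VanishW w (fun n => g n * rnd (xg A a α) n) := by
  unfold VanishW
  rw [ae_all_iff]
  intro H
  by_cases hne : H.Nonempty
  · simp only [hne, true_imp_iff]
    rw [ae_all_iff]
    intro K
    rw [ae_all_iff]
    intro R
    rw [ae_all_iff]
    intro b
    set w' : ℕ → ℝ := fun n => w (n + K) * (if n % R = b then 1 else 0) * prodSeq g H n with hw'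
    have hb : ∀ n, |w' n| ≤ 1 := by
      intro n
      rw [hw']
      show |w (n + K) * (if n % R = b then 1 else 0) * prodSeq g H n| ≤ 1
      rw [abs_mul, abs_prodSeq, mul_one, abs_mul]
      split_ifs
      · rw [abs_one, mul_one]; exact hw _
      · rw [abs_zero, mul_zero]; exact zero_le_one
    filter_upwards [ae_of_moment_w hA hm hb hne] with α hα
    refine hα.congr fun N => ?_
    congr 1
    funext n
    rw [hw']
    show w (n + K) * (if n % R = b then 1 else 0) * prodSeq g H n * prodSeq (rnd (xg A a α)) H n = _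
    rw [mul_assoc, ← prodSeq_mul_fun]
  · exact Eventually.of_forall fun α h => absurd h hne

end Pool.Agent.Lib.P4a7640Y
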