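import Mathlib
import Pool.Agent.Lib.P4a7640Y.Circ3
import Pool.Agent.Lib.P4a7640Y.LipPhi

/-!
# The mean of the square of the correlation is less than one
-/

open MeasureTheory Filter

namespace Pool.Agent.Lib.P4a7640Y

open Pool.Agent.Lib.P4a7640 Pool.Agent.Lib.P4a7640M

variable {φ : UnitAddCircle → ℝ}

lemma continuous_AC (hφ : Measurable φ) (hb : ∀ x, |φ x| ≤ 1) {C : ℝ} (hC : LL1 C φ) :
    Continuous (AC φ) := by
  have hC0 : 0 ≤ C := hC.nonneg
  have h1 : LipschitzWith ⟨C, hC0⟩ (fun t : ℝ => AC φ (t : UnitAddCircle)) := by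
    refine LipschitzWith.of_dist_le_mul fun x y => ?_
    rw [Real.dist_eq, Real.dist_eq]
    show |AC φ (x : UnitAddCircle) - AC φ (y : UnitAddCircle)| ≤ C * |x - y|
    rcases le_total y x with h | h
    · have h2 := AC_lip hφ hb hC (y : UnitAddCircle) (sub_nonneg.mpr h)
      rw [← AddCircle.coe_add, add_sub_cancel] at h2
      rw [abs_of_nonneg (sub_nonneg.mpr h)]
      exact h2
    · have h2 := AC_lip hφ hb hC (x : UnitAddCircle) (sub_nonneg.mpr h)
      rw [← AddCircle.coe_add, add_sub_cancel] at h2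
      rw [abs_sub_comm, abs_sub_comm x y, abs_of_nonneg (sub_nonneg.mpr h)]
      exact h2
  have h3 := h1.continuous
  exact (QuotientAddGroup.isQuotientMap_mk (N := AddSubgroup.zmultiples (1:ℝ))).continuous_iff.mpr h3

lemma int_AC (hφ : Measurable φ) (hb : ∀ x, |φ x| ≤ 1) : ∫ h, AC φ h = (∫ x, φ x) ^ 2 := by
  unfold AC
  rw [swap_bdd (f := fun h x => φ x * φ (x + h)) (C := 1)]
  · have h1 : ∀ x : UnitAddCircle, ∫ h, φ x * φ (x + h) = φ x * ∫ y, φ y := by
      intro x
      rw [integral_const_mul]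
      congr 1
      have h3 := integral_add_right_eq_self (μ := (volume : Measure UnitAddCircle)) φ x
      rw [← h3]
      congr 1
      funext s
      rw [add_comm]
    simp_rw [h1]
    rw [integral_mul_const, sq]
  · exact (hφ.comp measurable_snd).mul (hφ.comp (measurable_snd.add measurable_fst))
  · exact fun h x => mul_bd (hb _) (hb _)

theorem kap_lt_one_of (hφ : Measurable φ) (hs : ∀ x, |φ x| = 1) {C : ℝ} (hC : LL1 C φ)
    (hc : |∫ x, φ x| < 1) : kap φ < 1 := by
  have hb : ∀ x, |φ x| ≤ 1 := fun x => (hs x).le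
  by_contra hcon
  push Not at hcon
  have hk : kap φ = 1 := le_antisymm (kap_le hb) hcon
  have hcont := continuous_AC hφ hb hC
  have hm := measurable_AC hφ
  have i1 : Integrable (fun h => AC φ h ^ 2) volume :=
    int_bdd (hm.pow_const 2) fun h => sq_bd (abs_AC_le hb h)
  have h0 : ∫ h, (1 - AC φ h ^ 2) = 0 := by
    rw [integral_sub (integrable_const _) i1]
    unfold kap at hk
    rw [hk]
    simp
  have hnn : ∀ h, 0 ≤ 1 - AC φ h ^ 2 := fun h => by
    have h1 := sq_bd (abs_AC_le hb h)
    rw [abs_of_nonneg (sq_nonneg _)] at h1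
    linarith
  have h1 := (integral_eq_zero_iff_of_nonneg hnn ((integrable_const _).sub i1)).mp h0
  have h2 : (fun h => 1 - AC φ h ^ 2) = fun _ => (0:ℝ) := by
    have hc1 : Continuous fun h => 1 - AC φ h ^ 2 := continuous_const.sub (hcont.pow 2)
    exact (hc1.ae_eq_iff_eq (μ := (volume : Measure UnitAddCircle)) continuous_const).mp h1
  have h3 : ∀ h, AC φ h ^ 2 = 1 := fun h => by
    have h30 : 1 - AC φ h ^ 2 = 0 := congrFun h2 h
    linarith
  set g : ℝ → ℝ := fun t => AC φ (t : UnitAddCircle) with hg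
  have hgc : Continuous g := hcont.comp (AddCircle.continuous_mk' 1)
  have hg0 : g 0 = 1 := by
    show AC φ ((0:ℝ) : UnitAddCircle) = 1
    unfold AC
    have h4 : ∀ x : UnitAddCircle, φ x * φ (x + ((0:ℝ) : UnitAddCircle)) = 1 := by
      intro x
      rw [AddCircle.coe_zero, add_zero, ← abs_mul_abs_self, hs, one_mul]
    simp_rw [h4]
    simp
  have hg1 : ∀ t, g t = 1 := by
    intro t
    rcases eq_or_ne (g t) 1 with h | h
    · exact h
    · exfalso
      have h5 : g t ^ 2 = 1 := h3 _
      have h6 : g t = -1 := by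
        have h7 : (g t - 1) * (g t + 1) = 0 := by linear_combination h5
        rcases mul_eq_zero.mp h7 with h71 | h71
        · exact absurd (sub_eq_zero.mp h71) h
        · linarith
      have h8 : (0:ℝ) ∈ Set.range g := mem_range_of_exists_le_of_exists_ge hgc
        ⟨t, by rw [h6]; norm_num⟩ ⟨0, by rw [hg0]; norm_num⟩
      obtain ⟨c, hc'⟩ := h8
      have h9 : g c ^ 2 = 1 := h3 _
      rw [hc'] at h9
      norm_num at h9
  have h10 : ∀ h, AC φ h = 1 := by
    intro h
    induction h using QuotientAddGroup.induction_on with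
    | H t => exact hg1 t
  have h11 := int_AC hφ hb
  simp_rw [h10] at h11
  have h12 : (∫ x, φ x) ^ 2 < 1 := by
    rw [← sq_abs]
    have := abs_nonneg (∫ x, φ x)
    nlinarith
  rw [← h11] at h12
  simp at h12

theorem kap_lt_one {A : Set ℝ} (hA : FinInt A) (hc : |cc A| < 1) : kap (phiC A) < 1 := by
  obtain ⟨C, _, hC⟩ := lip_phiC hA
  refine kap_lt_one_of (measurable_phiC hA.measurableSet) (abs_phiC A) hC ?_
  rw [integral_phiC hA.measurableSet]
  exact hc

end Pool.Agent.Lib.P4a7640Y
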