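import Mathlib
import Pool.Agent.Lib.P4a7640Y.LipK
import Pool.Agent.Lib.P4a7640Y.Kap

/-!
# The mean of the square of the correlation, uniformly over unions of `k` intervals
-/

open MeasureTheory Filter

namespace Pool.Agent.Lib.P4a7640Y

open Pool.Agent.Lib.P4a7640 Pool.Agent.Lib.P4a7640M

lemma KInt.finInt {k : ℕ} {A : Set ℝ} (hA : KInt k A) : FinInt A := by
  obtain ⟨S, _, hS, rfl⟩ := hA
  exact ⟨S, hS, rfl⟩

lemma dl_eq (A : Set ℝ) : 4 * dl A = min (2 * (1 - cc A)) (2 * (1 + cc A)) := by
  unfold dl P4a7640M.cc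
  rw [mul_min_of_nonneg _ _ (by norm_num : (0:ℝ) ≤ 4)]
  congr 1 <;> ring

/-- the correlation is at least `1 - 4 dl` -/
lemma AC_ge {A : Set ℝ} (hA : FinInt A) (h : UnitAddCircle) : 1 - 4 * dl A ≤ AC (phiC A) h := by
  have hm : Measurable (phiC A) := measurable_phiC hA.measurableSet
  have hb : ∀ x, |phiC A x| ≤ 1 := fun x => (abs_phiC A x).le
  have hint := integral_phiC hA.measurableSet
  have i1 : Integrable (fun x => phiC A x) volume := int_bdd hm hb
  have i2 : Integrable (fun x => phiC A (x + h)) volume :=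
    int_bdd (hm.comp (measurable_add_const h)) fun x => hb _
  have i3 : Integrable (fun x => phiC A x * phiC A (x + h)) volume :=
    int_mul_bdd hm (hm.comp (measurable_add_const h)) hb fun x => hb _
  have hsh : ∫ x, phiC A (x + h) = cc A := by
    rw [integral_add_right_eq_self (phiC A) h, hint]
  have i12 : Integrable (fun x => phiC A x + phiC A (x + h)) volume := i1.add i2
  have i12n : Integrable (fun x => -(phiC A x + phiC A (x + h))) volume := i12.neg
  have hle : ∀ x, -1 ≤ phiC A x ∧ phiC A x ≤ 1 := fun x => abs_le.mp (hb x)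
  rw [dl_eq]
  have h1 : 2 * cc A - 1 ≤ AC (phiC A) h := by
    have e : ∫ x, (phiC A x + phiC A (x + h) - 1) = 2 * cc A - 1 := by
      rw [integral_sub i12 (integrable_const _), integral_add i1 i2, hint, hsh]
      simp
      ring
    rw [← e]
    unfold AC
    refine integral_mono (i12.sub (integrable_const _)) i3 fun x => ?_
    show phiC A x + phiC A (x + h) - 1 ≤ phiC A x * phiC A (x + h)
    nlinarith [mul_nonneg (sub_nonneg.mpr (hle x).2) (sub_nonneg.mpr (hle (x + h)).2)]
  have h2 : -(2 * cc A) - 1 ≤ AC (phiC A) h := by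
    have e : ∫ x, (-(phiC A x + phiC A (x + h)) - 1) = -(2 * cc A) - 1 := by
      rw [integral_sub i12n (integrable_const _), integral_neg, integral_add i1 i2, hint, hsh]
      simp
      ring
    rw [← e]
    unfold AC
    refine integral_mono (i12n.sub (integrable_const _)) i3 fun x => ?_
    show -(phiC A x + phiC A (x + h)) - 1 ≤ phiC A x * phiC A (x + h)
    nlinarith [mul_nonneg (sub_nonneg.mpr (hle x).1) (sub_nonneg.mpr (hle (x + h)).1)]
  rcases le_total (2 * (1 - cc A)) (2 * (1 + cc A)) with h3 | h3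
  · rw [min_eq_left h3]
    linarith
  · rw [min_eq_right h3]
    linarith

/-- module KapK (imports Par, Kap) -/
theorem kap_kint (k : ℕ) : ∃ c : ℝ, 0 < c ∧ ∀ A : Set ℝ, KInt k A → c * dl A ≤ 1 - kap (phiC A) := by
  set C : ℝ := 4 * k + 4 with hC
  have hC4 : 4 ≤ C := by
    have : (0:ℝ) ≤ k := Nat.cast_nonneg k
    linarith
  have hCpos : 0 < C := by linarith
  refine ⟨7 / (64 * C), by positivity, fun A hA => ?_⟩
  have hAf := hA.finInt
  have hlip : LL1 C (phiC A) := lip_kint hA
  have hm : Measurable (phiC A) := measurable_phiC hAf.measurableSet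
  have hb : ∀ x, |phiC A x| ≤ 1 := fun x => (abs_phiC A x).le
  have hint := integral_phiC hAf.measurableSet
  have hcc : |cc A| ≤ 1 := abs_cc_le_one A
  have hcc' := abs_le.mp hcc
  have hdl := dl_eq A
  have hmAC := measurable_AC hm
  have iAC : Integrable (AC (phiC A)) volume := int_bdd hmAC fun h => abs_AC_le hb h
  have iAC2 : Integrable (fun h => AC (phiC A) h ^ 2) volume :=
    int_bdd (hmAC.pow_const 2) fun h => sq_bd (abs_AC_le hb h)
  have hintAC : ∫ h, AC (phiC A) h = cc A ^ 2 := by rw [int_AC hm hb, hint]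
  have hdl0 : 0 ≤ dl A := by
    have : 0 ≤ min (2 * (1 - cc A)) (2 * (1 + cc A)) := le_min (by linarith) (by linarith)
    linarith
  have hdl1 : dl A ≤ 1 / 2 := by
    have h1 : 4 * dl A ≤ 2 * (1 - cc A) := hdl ▸ min_le_left _ _
    have h2 : 4 * dl A ≤ 2 * (1 + cc A) := hdl ▸ min_le_right _ _
    linarith
  have hcsmall : 7 / (64 * C) ≤ 1 := by
    rw [div_le_one (by positivity)]
    linarith
  rcases le_or_gt (dl A) (1 / 4) with hcase | hcase
  · -- small measure
    have h1 : kap (phiC A) ≤ cc A ^ 2 := by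
      unfold kap
      rw [← hintAC]
      refine integral_mono iAC2 iAC fun h => ?_
      have h2 := AC_ge hAf h
      have h3 := (abs_le.mp (abs_AC_le hb h)).2
      show AC (phiC A) h ^ 2 ≤ AC (phiC A) h
      nlinarith
    have h4 : dl A ≤ 1 - cc A ^ 2 := by
      rcases le_total (2 * (1 - cc A)) (2 * (1 + cc A)) with h3 | h3
      · rw [min_eq_left h3] at hdl
        have h5 : 0 ≤ cc A := by linarith
        nlinarith
      · rw [min_eq_right h3] at hdl
        have h5 : cc A ≤ 0 := by linarith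
        nlinarith
    have h5 : 7 / (64 * C) * dl A ≤ dl A := by nlinarith
    linarith
  · -- large measure
    set g : ℝ → ℝ := fun t => AC (phiC A) (t : UnitAddCircle) with hg
    have hcont : Continuous g := (continuous_AC hm hb hlip).comp (AddCircle.continuous_mk' 1)
    have hg0 : g 0 = 1 := by
      show AC (phiC A) ((0:ℝ) : UnitAddCircle) = 1
      unfold AC
      have h4 : ∀ x : UnitAddCircle, phiC A x * phiC A (x + ((0:ℝ) : UnitAddCircle)) = 1 := by
        intro x
        rw [AddCircle.coe_zero, add_zero, phiC_sq]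
      simp_rw [h4]
      simp
    have hcc4 : cc A ^ 2 ≤ 1 / 4 := by
      have h1 : 4 * dl A ≤ 2 * (1 - cc A) := hdl ▸ min_le_left _ _
      have h2 : 4 * dl A ≤ 2 * (1 + cc A) := hdl ▸ min_le_right _ _
      have h3 : |cc A| ≤ 1 / 2 := by
        rw [abs_le]
        constructor <;> linarith
      rw [← sq_abs]
      have := abs_nonneg (cc A)
      nlinarith
    have hint1 : ∫ t in (0:ℝ)..(0 + 1), g t = cc A ^ 2 := by
      rw [← hintAC]
      exact UnitAddCircle.intervalIntegral_preimage 0 (AC (phiC A))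
    obtain ⟨t₁, ht₁⟩ : ∃ t₁ : ℝ, g t₁ ≤ 1 / 2 := by
      by_contra hcon
      push Not at hcon
      have h1 : ∫ t in (0:ℝ)..(0 + 1), (1 / 2 : ℝ) ≤ ∫ t in (0:ℝ)..(0 + 1), g t :=
        intervalIntegral.integral_mono_on (by norm_num) intervalIntegrable_const
          (hcont.intervalIntegrable _ _) fun t _ => (hcon t).le
      rw [hint1] at h1
      simp at h1
      linarith
    obtain ⟨t₂, ht₂⟩ : (1 / 2 : ℝ) ∈ Set.range g := mem_range_of_exists_le_of_exists_ge hcont
      ⟨t₁, ht₁⟩ ⟨0, by rw [hg0]; norm_num⟩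
    set s : ℝ := 1 / (4 * C) with hs
    have hs0 : 0 < s := by positivity
    have hs1 : s ≤ 1 := by
      rw [hs, div_le_one (by positivity)]
      linarith
    have hlow : ∀ t ∈ Set.Icc t₂ (t₂ + s), (7 / 16 : ℝ) ≤ 1 - g t ^ 2 := by
      intro t ht
      have h2 := AC_lip hm hb hlip (t₂ : UnitAddCircle) (sub_nonneg.mpr ht.1)
      rw [← AddCircle.coe_add, add_sub_cancel] at h2
      have h3 : |g t - 1 / 2| ≤ 1 / 4 := by
        rw [← ht₂]
        refine h2.trans ?_
        calc C * (t - t₂) ≤ C * s := mul_le_mul_of_nonneg_left (by linarith [ht.2]) hCpos.le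
          _ = 1 / 4 := by rw [hs]; field_simp
      have h4 := abs_le.mp h3
      nlinarith [h4.1, h4.2]
    have hnn : ∀ t, 0 ≤ 1 - g t ^ 2 := by
      intro t
      have h1 := sq_bd (abs_AC_le hb (t : UnitAddCircle))
      rw [abs_of_nonneg (sq_nonneg _)] at h1
      have h2 : g t = AC (phiC A) (t : UnitAddCircle) := rfl
      rw [h2]
      linarith
    have hcont2 : Continuous fun t => 1 - g t ^ 2 := continuous_const.sub (hcont.pow 2)
    have hkap : 1 - kap (phiC A) = ∫ t in t₂..(t₂ + 1), (1 - g t ^ 2) := by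
      have h1 := UnitAddCircle.intervalIntegral_preimage t₂ (fun h => 1 - AC (phiC A) h ^ 2)
      rw [integral_sub (integrable_const _) iAC2] at h1
      have h2 : ∫ _x : UnitAddCircle, (1:ℝ) = 1 := by simp
      rw [h2] at h1
      exact h1.symm
    have hsplit : ∫ t in t₂..(t₂ + 1), (1 - g t ^ 2) =
        (∫ t in t₂..(t₂ + s), (1 - g t ^ 2)) + ∫ t in (t₂ + s)..(t₂ + 1), (1 - g t ^ 2) :=
      (intervalIntegral.integral_add_adjacent_intervals (hcont2.intervalIntegrable _ _)
        (hcont2.intervalIntegrable _ _)).symm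
    have hpart1 : 7 / 16 * s ≤ ∫ t in t₂..(t₂ + s), (1 - g t ^ 2) := by
      have h1 : ∫ t in t₂..(t₂ + s), (7 / 16 : ℝ) ≤ ∫ t in t₂..(t₂ + s), (1 - g t ^ 2) :=
        intervalIntegral.integral_mono_on (by linarith) intervalIntegrable_const
          (hcont2.intervalIntegrable _ _) hlow
      rw [intervalIntegral.integral_const, smul_eq_mul] at h1
      linarith
    have hpart2 : 0 ≤ ∫ t in (t₂ + s)..(t₂ + 1), (1 - g t ^ 2) :=
      intervalIntegral.integral_nonneg (by linarith) fun t _ => hnn t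
    rw [hkap, hsplit]
    have h6 : 7 / (64 * C) * dl A ≤ 7 / 16 * s := by
      have h7 : 7 / 16 * s = 7 / (64 * C) := by
        rw [hs]
        field_simp
        norm_num
      rw [h7]
      have : 0 ≤ 7 / (64 * C) := by positivity
      nlinarith
    linarith

end Pool.Agent.Lib.P4a7640Y
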