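import Mathlib
import Pool.Agent.Lib.P4a7640Y.Par

/-!
# The choice of the parameters
-/

open Filter Topology

namespace Pool.Agent.Lib.P4a7640Y

open Pool.Agent.Lib.P4a7640 Pool.Agent.Lib.P4a7640M

namespace AsymAux

lemma tendsto_lam' : Tendsto (fun N : ℕ => lam N) atTop atTop :=
  Real.tendsto_log_atTop.comp (Real.tendsto_log_atTop.comp tendsto_natCast_atTop_atTop)

lemma ev_log_sq (K : ℝ) : ∀ᶠ x : ℝ in atTop, 24 * K * Real.log x ^ 2 ≤ x / 12 := by
  have h1 : (fun x : ℝ => Real.log x ^ 2) =o[atTop] (fun x : ℝ => x) := by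
    have := isLittleO_log_rpow_rpow_atTop (s := 1) 2 one_pos
    simpa using this
  have h2 := h1.bound (c := 1 / (288 * (|K| + 1))) (by positivity)
  filter_upwards [h2, eventually_ge_atTop 0] with x hx hx0
  rw [Real.norm_eq_abs, Real.norm_eq_abs, abs_of_nonneg (by positivity), abs_of_nonneg hx0] at hx
  have hK : K ≤ |K| + 1 := by linarith [le_abs_self K]
  have hlog : 0 ≤ Real.log x ^ 2 := sq_nonneg _
  have hK1 : 0 < |K| + 1 := by positivity
  calc 24 * K * Real.log x ^ 2 ≤ 24 * (|K| + 1) * Real.log x ^ 2 := by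
        apply mul_le_mul_of_nonneg_right _ hlog
        linarith
    _ ≤ 24 * (|K| + 1) * (1 / (288 * (|K| + 1)) * x) :=
        mul_le_mul_of_nonneg_left hx (by positivity)
    _ = x / 12 := by field_simp; ring

lemma ev_pow_exp (n : ℕ) : ∀ᶠ x : ℝ in atTop, x ^ n ≤ Real.exp (x / 12) := by
  have h1 := (isLittleO_pow_exp_pos_mul_atTop n (b := 1 / 12) (by norm_num)).bound (c := 1) one_pos
  filter_upwards [h1, eventually_ge_atTop 0] with x hx hx0
  rw [Real.norm_eq_abs, Real.norm_eq_abs, abs_of_nonneg (by positivity),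
    abs_of_pos (Real.exp_pos _), one_mul] at hx
  rwa [show x / 12 = 1 / 12 * x by ring]

lemma ev_big (K C : ℝ) : ∀ᶠ x : ℝ in atTop,
    Real.exp (24 * K * Real.log x ^ 2) * (C * x ^ 2 * Real.exp (-x / 3)) * x ^ 16 ≤ 1 / 2 := by
  have h3 : Tendsto (fun x : ℝ => |C| * Real.exp (-x / 6)) atTop (𝓝 0) := by
    have h4 : Tendsto (fun x : ℝ => Real.exp (-x / 6)) atTop (𝓝 0) := by
      apply Real.tendsto_exp_atBot.comp
      have : Tendsto (fun x : ℝ => x / 6) atTop atTop := tendsto_id.atTop_div_const (by norm_num)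
      refine (tendsto_neg_atTop_atBot.comp this).congr fun x => ?_
      simp only [Function.comp_apply]
      ring
    simpa using h4.const_mul |C|
  filter_upwards [ev_log_sq K, ev_pow_exp 18, h3.eventually_le_const (show (0:ℝ) < 1 / 2 by norm_num),
    eventually_ge_atTop 0] with x h1 h2 h3 hx0
  have e1 : Real.exp (24 * K * Real.log x ^ 2) ≤ Real.exp (x / 12) := Real.exp_le_exp.mpr h1
  have e0 : 0 < Real.exp (-x / 3) := Real.exp_pos _
  calc Real.exp (24 * K * Real.log x ^ 2) * (C * x ^ 2 * Real.exp (-x / 3)) * x ^ 16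
      ≤ Real.exp (24 * K * Real.log x ^ 2) * (|C| * x ^ 2 * Real.exp (-x / 3)) * x ^ 16 := by
        gcongr
        exact le_abs_self C
    _ = Real.exp (24 * K * Real.log x ^ 2) * (x ^ 18) * (|C| * Real.exp (-x / 3)) := by ring
    _ ≤ Real.exp (x / 12) * Real.exp (x / 12) * (|C| * Real.exp (-x / 3)) := by gcongr
    _ = |C| * Real.exp (-x / 6) := by
        rw [show Real.exp (x / 12) * Real.exp (x / 12) * (|C| * Real.exp (-x / 3)) =
          |C| * (Real.exp (x / 12) * Real.exp (x / 12) * Real.exp (-x / 3)) by ring,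
          ← Real.exp_add, ← Real.exp_add]
        congr 2
        ring
    _ ≤ 1 / 2 := h3

lemma ev_loglog : ∀ᶠ x : ℝ in atTop, 2 ≤ Real.log x := Real.tendsto_log_atTop.eventually_ge_atTop 2

end AsymAux

open AsymAux

/-- the choice of the parameters -/
theorem asym {K C k : ℝ} (hK : 0 < K) (hC : 0 < C) (hk : 0 ≤ k) : ∃ K₁ : ℝ, 0 < K₁ ∧
    ∀ᶠ N : ℕ in atTop, ∀ Y V : ℝ, K₁ * Real.log (lam N) ^ 2 ≤ Y →
      V ≤ (Real.exp (-Y / 2) + Real.exp (-lam N)) ^ 2 +
        4 * (C * (2 * lam N) * (k * (RN N : ℝ) ^ 2 / Real.log N + 2 * lam N / RN N)) / Y ^ 2 →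
      ∀ j : ℕ, (j:ℝ) ≤ 2 * K * Real.log (lam N) →
        (QN N : ℝ) ^ (2 * j) * V * lam N ^ 12 ≤ 1 / lam N ^ 4 := by
  set C₃ := 2 + 8 * C * (4 * k + 2) with hC₃
  refine ⟨24 * K + 17, by positivity, ?_⟩
  filter_upwards [tendsto_lam'.eventually (ev_big K C₃), tendsto_lam'.eventually ev_loglog,
    tendsto_lam'.eventually_ge_atTop 2, eventually_ge_atTop 3] with N h1 h2 hx2 hN Y V hY hV j hj
  set x := lam N with hx
  have hx0 : 0 < x := by linarith
  have hlogN : 0 < Real.log N := Real.log_pos (by exact_mod_cast (show 1 < N by omega))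
  have hL : Real.log N = Real.exp x := by
    rw [hx, lam, Real.exp_log hlogN]
  set u := Real.log x with hu
  have hxu : x = Real.exp u := (Real.exp_log hx0).symm
  -- `Y ≥ 1`
  have hu4 : 4 ≤ u ^ 2 := by nlinarith
  have hY1 : 1 ≤ Y := by nlinarith [mul_pos hK (by linarith : (0:ℝ) < u ^ 2)]
  -- bounds for `RN`
  have hE0 : 0 < Real.exp (x / 3) := Real.exp_pos _
  have hR1 : Real.exp (x / 3) ≤ RN N := Nat.le_ceil _
  have hR2 : (RN N : ℝ) ≤ 2 * Real.exp (x / 3) := by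
    have h3 : (RN N : ℝ) ≤ Real.exp (x / 3) + 1 := (Nat.ceil_lt_add_one hE0.le).le
    have h4 : 1 ≤ Real.exp (x / 3) := Real.one_le_exp (by positivity)
    linarith
  have hR0 : (0:ℝ) < RN N := hE0.trans_le hR1
  have e1 : (RN N : ℝ) ^ 2 / Real.log N ≤ 4 * Real.exp (-x / 3) := by
    rw [hL, div_le_iff₀ (Real.exp_pos _)]
    calc (RN N : ℝ) ^ 2 ≤ (2 * Real.exp (x / 3)) ^ 2 := pow_le_pow_left₀ hR0.le hR2 2
      _ = 4 * Real.exp (-x / 3) * Real.exp x := by
          rw [mul_pow, ← Real.exp_nat_mul, mul_assoc, ← Real.exp_add]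
          norm_num
          ring
  have e2 : 2 * x / RN N ≤ 2 * x * Real.exp (-x / 3) := by
    rw [div_le_iff₀ hR0]
    have h3 : Real.exp (-x / 3) * Real.exp (x / 3) = 1 := by
      rw [← Real.exp_add]
      simp [neg_div]
    calc 2 * x = 2 * x * (Real.exp (-x / 3) * Real.exp (x / 3)) := by rw [h3, mul_one]
      _ ≤ 2 * x * (Real.exp (-x / 3) * RN N) := by gcongr
      _ = _ := by ring
  have e3 : k * (RN N : ℝ) ^ 2 / Real.log N + 2 * x / RN N ≤ (4 * k + 2) * x * Real.exp (-x / 3) := by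
    have h3 : k * (RN N : ℝ) ^ 2 / Real.log N ≤ k * (4 * Real.exp (-x / 3)) := by
      rw [mul_div_assoc]
      exact mul_le_mul_of_nonneg_left e1 hk
    have h4 : k * (4 * Real.exp (-x / 3)) ≤ 4 * k * x * Real.exp (-x / 3) := by
      have : 0 ≤ 4 * k * Real.exp (-x / 3) := by positivity
      nlinarith
    calc _ ≤ 4 * k * x * Real.exp (-x / 3) + 2 * x * Real.exp (-x / 3) := add_le_add (h3.trans h4) e2
      _ = _ := by ring
  have e4 : 4 * (C * (2 * x) * (k * (RN N : ℝ) ^ 2 / Real.log N + 2 * x / RN N)) / Y ^ 2 ≤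
      8 * C * (4 * k + 2) * x ^ 2 * Real.exp (-x / 3) := by
    have hY2 : (1:ℝ) ≤ Y ^ 2 := by nlinarith
    rw [div_le_iff₀ (by linarith)]
    calc 4 * (C * (2 * x) * (k * (RN N : ℝ) ^ 2 / Real.log N + 2 * x / RN N))
        ≤ 4 * (C * (2 * x) * ((4 * k + 2) * x * Real.exp (-x / 3))) := by gcongr
      _ = 8 * C * (4 * k + 2) * x ^ 2 * Real.exp (-x / 3) * 1 := by ring
      _ ≤ 8 * C * (4 * k + 2) * x ^ 2 * Real.exp (-x / 3) * Y ^ 2 := by gcongr
  have e5 : (Real.exp (-Y / 2) + Real.exp (-x)) ^ 2 ≤ 2 * Real.exp (-Y) +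
      2 * x ^ 2 * Real.exp (-x / 3) := by
    have h3 : Real.exp (-Y / 2) ^ 2 = Real.exp (-Y) := by
      rw [← Real.exp_nat_mul]
      congr 1
      push_cast
      ring
    have h4 : Real.exp (-x) ^ 2 ≤ Real.exp (-x / 3) := by
      rw [← Real.exp_nat_mul]
      apply Real.exp_le_exp.mpr
      push_cast
      linarith
    have h5 : Real.exp (-x / 3) ≤ x ^ 2 * Real.exp (-x / 3) := by
      have : (1:ℝ) ≤ x ^ 2 := by nlinarith
      exact le_mul_of_one_le_left (Real.exp_pos _).le this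
    nlinarith [sq_nonneg (Real.exp (-Y / 2) - Real.exp (-x))]
  have hVb : V ≤ 2 * Real.exp (-Y) + C₃ * x ^ 2 * Real.exp (-x / 3) := by
    calc V ≤ _ := hV
      _ ≤ (2 * Real.exp (-Y) + 2 * x ^ 2 * Real.exp (-x / 3)) +
          8 * C * (4 * k + 2) * x ^ 2 * Real.exp (-x / 3) := add_le_add e5 e4
      _ = _ := by rw [hC₃]; ring
  set Vb := 2 * Real.exp (-Y) + C₃ * x ^ 2 * Real.exp (-x / 3) with hVbdef
  have hVb0 : 0 ≤ Vb := by positivity
  -- the number of cells
  have hQ : (QN N : ℝ) ≤ x ^ 6 := by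
    have h3 : (QN N : ℝ) ≤ x ^ 5 + 1 := (Nat.ceil_lt_add_one (by positivity)).le
    have h4 : (1:ℝ) ≤ x ^ 5 := one_le_pow₀ (by linarith)
    have h5 : x ^ 6 = x ^ 5 * x := by ring
    nlinarith
  have hQj : (QN N : ℝ) ^ (2 * j) ≤ Real.exp (24 * K * u ^ 2) := by
    calc (QN N : ℝ) ^ (2 * j) ≤ (x ^ 6) ^ (2 * j) := pow_le_pow_left₀ (Nat.cast_nonneg _) hQ _
      _ = Real.exp (12 * j * u) := by
          rw [← pow_mul, hxu, ← Real.exp_nat_mul]
          congr 1
          push_cast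
          ring
      _ ≤ Real.exp (24 * K * u ^ 2) := by
          apply Real.exp_le_exp.mpr
          have : (j:ℝ) * u ≤ 2 * K * u * u := mul_le_mul_of_nonneg_right hj (by linarith)
          nlinarith
  have hx16 : x ^ 16 = Real.exp (16 * u) := by
    rw [hxu, ← Real.exp_nat_mul]
    push_cast
    rfl
  have e6 : Real.exp (24 * K * u ^ 2) * (2 * Real.exp (-Y)) * x ^ 16 ≤ 1 / 2 := by
    rw [hx16]
    calc Real.exp (24 * K * u ^ 2) * (2 * Real.exp (-Y)) * Real.exp (16 * u)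
        = 2 * Real.exp (24 * K * u ^ 2 + -Y + 16 * u) := by
          rw [Real.exp_add, Real.exp_add]
          ring
      _ ≤ 2 * Real.exp (-4) := by
          gcongr
          nlinarith
      _ ≤ 1 / 2 := by
          have h3 : Real.exp (-4) = (Real.exp 4)⁻¹ := Real.exp_neg 4
          have h4 : (5:ℝ) ≤ Real.exp 4 := by
            have := Real.add_one_le_exp (4:ℝ)
            linarith
          rw [h3]
          have h5 : (Real.exp 4)⁻¹ ≤ (5:ℝ)⁻¹ := inv_anti₀ (by norm_num) h4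
          norm_num at h5 ⊢
          linarith
  have e7 : Real.exp (24 * K * u ^ 2) * Vb * x ^ 16 ≤ 1 := by
    calc Real.exp (24 * K * u ^ 2) * Vb * x ^ 16
        = Real.exp (24 * K * u ^ 2) * (2 * Real.exp (-Y)) * x ^ 16 +
          Real.exp (24 * K * u ^ 2) * (C₃ * x ^ 2 * Real.exp (-x / 3)) * x ^ 16 := by
          rw [hVbdef]; ring
      _ ≤ 1 / 2 + 1 / 2 := add_le_add e6 h1
      _ = 1 := by norm_num
  rw [le_div_iff₀ (by positivity)]
  calc (QN N : ℝ) ^ (2 * j) * V * x ^ 12 * x ^ 4 = (QN N : ℝ) ^ (2 * j) * V * x ^ 16 := by ring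
    _ ≤ (QN N : ℝ) ^ (2 * j) * Vb * x ^ 16 := by gcongr
    _ ≤ Real.exp (24 * K * u ^ 2) * Vb * x ^ 16 := by gcongr
    _ ≤ 1 := e7

end Pool.Agent.Lib.P4a7640Y
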