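import Mathlib
import Pool.Agent.Lib.P4a7640Y.Par
import Pool.Agent.Lib.P4a7640L.MertensB

/-!
# The mass of the primes in the window
-/

open Filter Topology

namespace Pool.Agent.Lib.P4a7640Y

open Pool.Agent.Lib.P4a7640 Pool.Agent.Lib.P4a7640M

namespace WinMassAux

lemma tendsto_log' : Tendsto (fun N : ℕ => Real.log (N:ℝ)) atTop atTop :=
  Real.tendsto_log_atTop.comp tendsto_natCast_atTop_atTop

lemma tendsto_lam' : Tendsto (fun N : ℕ => lam N) atTop atTop :=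
  Real.tendsto_log_atTop.comp tendsto_log'

lemma tendsto_loglam' : Tendsto (fun N : ℕ => Real.log (lam N)) atTop atTop :=
  Real.tendsto_log_atTop.comp tendsto_lam'

lemma ev_pow : ∀ᶠ x : ℝ in atTop, x ^ 4 ≤ Real.exp x := by
  have h := (Real.isLittleO_pow_exp_atTop (n := 4)).bound (c := 1) one_pos
  filter_upwards [h, eventually_ge_atTop 0] with x hx hx0
  rw [Real.norm_eq_abs, Real.norm_eq_abs, abs_of_nonneg (by positivity), abs_of_pos (Real.exp_pos _),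
    one_mul] at hx
  exact hx

lemma mem_DA' {N p : ℕ} : p ∈ DA N ↔ (1 ≤ p ∧ p ≤ N) ∧ p.Prime ∧ Real.log N < p ∧
    (p : ℝ) ≤ zup N := by
  classical
  unfold DA
  rw [Finset.mem_filter, Finset.mem_Icc]
  rfl

lemma sum_union_le' [DecidableEq ℕ] (s t : Finset ℕ) (f : ℕ → ℝ) (hf : ∀ p, 0 ≤ f p) :
    ∑ p ∈ s ∪ t, f p ≤ ∑ p ∈ s, f p + ∑ p ∈ t, f p := by
  rw [← Finset.sum_union_inter]
  have : 0 ≤ ∑ p ∈ s ∩ t, f p := Finset.sum_nonneg fun p _ => hf p
  linarith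

/-- primes up to `log N` -/
lemma small_mass {N : ℕ} (h : 3 ≤ Real.log N) {s : Finset ℕ}
    (hs : ∀ p ∈ s, p.Prime ∧ (p:ℝ) ≤ Real.log N) :
    ∑ p ∈ s, (1:ℝ) / p ≤ Real.log (lam N) + 6 := by
  have hl : 0 ≤ Real.log N := by linarith
  have h3 : 3 ≤ ⌊Real.log N⌋₊ := Nat.le_floor (by exact_mod_cast h)
  have h1 := sum_inv_primes_le ⌊Real.log N⌋₊ h3
  have h2 : ∑ p ∈ s, (1:ℝ) / p ≤ ∑ p ∈ Nat.primesLE ⌊Real.log N⌋₊, 1 / (p : ℝ) := by
    apply Finset.sum_le_sum_of_subset_of_nonneg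
    · intro p hp
      rw [Nat.mem_primesLE]
      exact ⟨Nat.le_floor (hs p hp).2, (hs p hp).1⟩
    · intro p _ _; positivity
  have h4 : (3:ℝ) ≤ ⌊Real.log N⌋₊ := by exact_mod_cast h3
  have h5 : (⌊Real.log N⌋₊ : ℝ) ≤ Real.log N := Nat.floor_le hl
  have h6 : Real.log ⌊Real.log N⌋₊ ≤ lam N := Real.log_le_log (by linarith) h5
  have h7 : 0 < Real.log ⌊Real.log N⌋₊ := Real.log_pos (by linarith)
  have h8 : Real.log (Real.log ⌊Real.log N⌋₊) ≤ Real.log (lam N) := Real.log_le_log h7 h6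
  linarith

end WinMassAux

open WinMassAux

/-- module WinMass (imports Par) -/
theorem win_mass {δ : ℕ → ℝ} (h0 : ∀ p, 0 ≤ δ p) (h1 : ∀ p, δ p ≤ 1)
    (hP : Tendsto (fun N : ℕ => (∑ p ∈ (Finset.Icc 1 N).filter Nat.Prime, δ p / p) /
      Real.log (Real.log (Real.log N)) ^ 2) atTop atTop)
    (K : ℝ) : ∀ᶠ N : ℕ in atTop, K * Real.log (lam N) ^ 2 ≤ ∑ p ∈ DA N, δ p / p := by
  classical
  obtain ⟨C, hC0, hC⟩ := P4a7640L.mertens_upper
  filter_upwards [hP.eventually_ge_atTop (K + 11 + C), tendsto_loglam'.eventually_ge_atTop 1,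
    tendsto_log'.eventually_ge_atTop 3, eventually_ge_atTop 3, tendsto_lam'.eventually ev_pow,
    tendsto_lam'.eventually_ge_atTop 1] with N g1 g2 g3 g4 g5 g6
  have hl : 0 < Real.log N := by linarith
  have hlam : 0 < lam N := by linarith
  have hexp : Real.exp (lam N) = Real.log N := Real.exp_log hl
  rw [hexp] at g5
  have hlam4 : 0 < lam N ^ 4 := by positivity
  have hq : 1 ≤ Real.log N / lam N ^ 4 := by rwa [le_div_iff₀ hlam4, one_mul]
  have hq0 : 0 < Real.log N / lam N ^ 4 := by linarith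
  set α := Real.log (Real.log N / lam N ^ 4) with hα
  have hα0 : 0 ≤ α := Real.log_nonneg hq
  have hαl : α = lam N - 4 * Real.log (lam N) := by
    rw [hα, Real.log_div hl.ne' hlam4.ne', Real.log_pow]
    norm_num [lam]
  have hαle : α ≤ lam N := by rw [hαl]; linarith
  have hδ : ∀ p : ℕ, 0 ≤ δ p / p := fun p => div_nonneg (h0 p) (Nat.cast_nonneg p)
  have hδ1 : ∀ p : ℕ, δ p / p ≤ (1:ℝ) / p := fun p => by
    gcongr
    exact h1 p
  set S := (Finset.Icc 1 N).filter Nat.Prime with hS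
  set S1 := S.filter (fun p : ℕ => (p:ℝ) ≤ Real.log N) with hS1
  set S2 := S.filter (fun p : ℕ => zup N < (p:ℝ)) with hS2
  have hsub : S ⊆ DA N ∪ (S1 ∪ S2) := by
    intro p hp
    have hp' := hp
    rw [hS, Finset.mem_filter] at hp'
    rw [Finset.mem_union, Finset.mem_union, mem_DA']
    by_cases ha : (p:ℝ) ≤ Real.log N
    · exact Or.inr (Or.inl (Finset.mem_filter.2 ⟨hp, ha⟩))
    · by_cases hb : zup N < (p:ℝ)
      · exact Or.inr (Or.inr (Finset.mem_filter.2 ⟨hp, hb⟩))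
      · exact Or.inl ⟨Finset.mem_Icc.1 hp'.1, hp'.2, not_le.1 ha, not_lt.1 hb⟩
  have e1 : ∑ p ∈ S, δ p / p ≤ ∑ p ∈ DA N, δ p / p + (∑ p ∈ S1, (1:ℝ) / p + ∑ p ∈ S2, (1:ℝ) / p) := by
    calc ∑ p ∈ S, δ p / p ≤ ∑ p ∈ DA N ∪ (S1 ∪ S2), δ p / p :=
          Finset.sum_le_sum_of_subset_of_nonneg hsub (fun p _ _ => hδ p)
      _ ≤ ∑ p ∈ DA N, δ p / p + ∑ p ∈ S1 ∪ S2, δ p / p :=
          sum_union_le' _ _ _ hδ
      _ ≤ ∑ p ∈ DA N, δ p / p + (∑ p ∈ S1, δ p / p + ∑ p ∈ S2, δ p / p) := by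
          gcongr
          exact sum_union_le' _ _ _ hδ
      _ ≤ _ := by
          gcongr with p _ p _
          · exact h1 p
          · exact h1 p
  have e2 : ∑ p ∈ S1, (1:ℝ) / p ≤ Real.log (lam N) + 6 := by
    apply small_mass g3
    intro p hp
    rw [hS1, Finset.mem_filter, hS, Finset.mem_filter] at hp
    exact ⟨hp.1.2, hp.2⟩
  have e3 : ∑ p ∈ S2, (1:ℝ) / p ≤ (lam N - α) + C * Real.exp (-α) := by
    apply hC α (lam N) hα0 hαle
    intro p hp
    rw [hS2, Finset.mem_filter, hS, Finset.mem_filter, Finset.mem_Icc] at hp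
    obtain ⟨⟨⟨hp1, hpN⟩, hpp⟩, hpz⟩ := hp
    have hp0 : (0:ℝ) < p := by exact_mod_cast hp1
    have hlp : Real.log N / lam N ^ 4 < Real.log p := by
      rw [Real.lt_log_iff_exp_lt hp0]; exact hpz
    refine ⟨hpp, ?_, ?_⟩
    · exact Real.log_le_log hq0 hlp.le
    · have : Real.log p ≤ Real.log N := Real.log_le_log hp0 (by exact_mod_cast hpN)
      exact Real.log_le_log (by linarith) this
  have e4 : Real.exp (-α) ≤ 1 := by
    rw [Real.exp_le_one_iff]; linarith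
  have e5 : lam N - α = 4 * Real.log (lam N) := by rw [hαl]; ring
  have e6 : C * Real.exp (-α) ≤ C := by nlinarith
  have hll : Real.log (Real.log (Real.log N)) = Real.log (lam N) := rfl
  rw [hll] at g1
  have hL2 : 0 < Real.log (lam N) ^ 2 := by positivity
  rw [le_div_iff₀ hL2] at g1
  set L := Real.log (lam N) with hL
  have e7 : L ≤ L ^ 2 := by nlinarith
  have e8 : 1 ≤ L ^ 2 := by nlinarith
  nlinarith

/-- module WinMass -/
theorem win_mass_le : ∀ᶠ N : ℕ in atTop, ∑ p ∈ DA N, (1:ℝ) / p ≤ 2 * lam N := by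
  filter_upwards [tendsto_lam'.eventually_ge_atTop 6, eventually_ge_atTop 3] with N h1 h2
  have h3 := sum_inv_primes_le N h2
  have h4 : ∑ p ∈ DA N, (1:ℝ) / p ≤ ∑ p ∈ Nat.primesLE N, 1 / (p : ℝ) := by
    apply Finset.sum_le_sum_of_subset_of_nonneg
    · intro p hp
      rw [mem_DA'] at hp
      rw [Nat.mem_primesLE]
      exact ⟨hp.1.2, hp.2.1⟩
    · intro p _ _; positivity
  have h5 : Real.log (Real.log N) = lam N := rfl
  linarith

end Pool.Agent.Lib.P4a7640Y
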