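import Mathlib
import Pool.Agent.Lib.P4a7640Y.Par
import Pool.Agent.Lib.P4a7640Y.WinMass
import Pool.Agent.Lib.P4a7640L.Brun
import Pool.Agent.Lib.P4a7640M.MomBound

/-!
# Brun's sieve in the window
-/

open Filter Topology

namespace Pool.Agent.Lib.P4a7640Y

open Pool.Agent.Lib.P4a7640 Pool.Agent.Lib.P4a7640M

/-- the factorial term -/
lemma brun_fact {m lm : ℝ} (hm : 0 ≤ m) (hl : 2 ≤ lm) {k : ℕ} (hk : (16 * m + 1) * lm ≤ k) :
    2 * ((2 * m * (2 * lm)) ^ k / (k.factorial : ℝ)) ≤ 1 / 2 * Real.exp (-lm) := by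
  have hx : 0 ≤ 2 * m * (2 * lm) := by positivity
  have f1 := Real.pow_div_factorial_le_exp (8 * (2 * m * (2 * lm))) (by positivity) k
  rw [mul_pow] at f1
  have f2 : (2 * m * (2 * lm)) ^ k / (k.factorial : ℝ) ≤
      Real.exp (8 * (2 * m * (2 * lm))) * Real.exp (-(Real.log 8 * k)) := by
    have f3 : Real.exp (-(Real.log 8 * k)) = ((8:ℝ) ^ k)⁻¹ := by
      rw [Real.exp_neg, Real.exp_mul, Real.exp_log (by norm_num), Real.rpow_natCast]
    rw [f3, ← div_eq_mul_inv, le_div_iff₀ (by positivity)]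
    calc _ = 8 ^ k * (2 * m * (2 * lm)) ^ k / (k.factorial : ℝ) := by ring
      _ ≤ _ := f1
  have h8 : (2.07:ℝ) ≤ Real.log 8 := by
    rw [show (8:ℝ) = 2 ^ 3 by norm_num, Real.log_pow]
    have := Real.log_two_gt_d9
    push_cast
    linarith
  have f4 : Real.exp (8 * (2 * m * (2 * lm))) * Real.exp (-(Real.log 8 * k)) ≤
      Real.exp (-2 * lm) := by
    rw [← Real.exp_add]
    apply Real.exp_le_exp.2
    have e1 : 2.07 * ((16 * m + 1) * lm) ≤ Real.log 8 * k :=
      mul_le_mul h8 hk (by positivity) (by linarith)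
    nlinarith [mul_nonneg hm (by linarith : (0:ℝ) ≤ lm)]
  have f5 : Real.exp (-2 * lm) = Real.exp (-lm) * Real.exp (-lm) := by
    rw [← Real.exp_add]; ring_nf
  have f6 : Real.exp (-lm) ≤ 1 / 4 := by
    have e1 : Real.exp (-lm) ≤ Real.exp (-2) := Real.exp_le_exp.2 (by linarith)
    have e2 : (2.7182818283 : ℝ) < Real.exp 1 := Real.exp_one_gt_d9
    have e3 : Real.exp (-2) = (Real.exp 1 * Real.exp 1)⁻¹ := by
      rw [← Real.exp_add, ← Real.exp_neg]; norm_num
    have e4 : (4:ℝ) ≤ Real.exp 1 * Real.exp 1 := by nlinarith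
    rw [e3] at e1
    refine e1.trans ?_
    rw [one_div]
    exact inv_anti₀ (by norm_num) e4
  have f7 := f2.trans f4
  rw [f5] at f7
  have f8 : 0 < Real.exp (-lm) := Real.exp_pos _
  nlinarith

lemma brun_large (m : ℝ) (hm : 0 ≤ m) : ∀ᶠ x : ℝ in atTop,
    (16 * m + 2) * x * (2 * m) + (16 * m + 2) * x * (Real.exp x / x ^ 4) + x + 1 ≤
      Real.exp x / x ^ 2 := by
  have h1 := (Real.isLittleO_pow_exp_atTop (n := 3)).bound
    (show (0:ℝ) < 1 / (2 * ((16 * m + 2) * (2 * m) + 2)) by positivity)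
  filter_upwards [h1, eventually_ge_atTop (1:ℝ), eventually_ge_atTop (2 * (16 * m + 2))]
    with x hx hx1 hx2
  have hx0 : 0 < x := by linarith
  rw [Real.norm_eq_abs, Real.norm_eq_abs, abs_of_pos (by positivity),
    abs_of_pos (Real.exp_pos _)] at hx
  set E := Real.exp x with hE
  have hE0 : 0 < E := Real.exp_pos _
  set c := (16 * m + 2) * (2 * m) + 2 with hc
  have hc0 : 0 < c := by positivity
  -- `c x^3 ≤ E / 2`
  have h2 : c * x ^ 3 ≤ E / 2 := by
    have : x ^ 3 ≤ 1 / (2 * c) * E := hx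
    calc c * x ^ 3 ≤ c * (1 / (2 * c) * E) := mul_le_mul_of_nonneg_left this hc0.le
      _ = E / 2 := by field_simp
  -- `(16 m + 2) x E / x^4 ≤ E / (2 x^2)`
  have h3 : (16 * m + 2) * x * (E / x ^ 4) ≤ E / (2 * x ^ 2) := by
    rw [mul_div_assoc', div_le_div_iff₀ (by positivity) (by positivity)]
    have e1 : (16 * m + 2) * 2 ≤ x := by linarith
    have e2 : 0 ≤ x * E * x ^ 2 := by positivity
    calc (16 * m + 2) * x * E * (2 * x ^ 2) = ((16 * m + 2) * 2) * (x * E * x ^ 2) := by ring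
      _ ≤ x * (x * E * x ^ 2) := mul_le_mul_of_nonneg_right e1 e2
      _ = E * x ^ 4 := by ring
  have h4 : (16 * m + 2) * x * (2 * m) + x + 1 ≤ E / (2 * x ^ 2) := by
    rw [le_div_iff₀ (by positivity)]
    have e3 : (16 * m + 2) * x * (2 * m) + x + 1 ≤ c * x := by rw [hc]; nlinarith
    calc _ ≤ c * x * (2 * x ^ 2) := mul_le_mul_of_nonneg_right e3 (by positivity)
      _ = 2 * (c * x ^ 3) := by ring
      _ ≤ E := by linarith
  have h5 : E / x ^ 2 = E / (2 * x ^ 2) + E / (2 * x ^ 2) := by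
    field_simp
    ring
  rw [h5]
  linarith

/-- module BrunP -/
theorem brun_par (H : Finset ℕ) : ∀ᶠ N : ℕ in atTop, ∀ Q : Finset ℕ, (∀ p ∈ Q, InW N p) →
    |P4a7640L.WA (Mw N) N (fun n => ∏ h ∈ H, P4a7640L.sQ Q (n + h))| ≤
      Real.exp (-2 * H.card * ∑ p ∈ Q, (1:ℝ) / p) + Real.exp (-lam N) := by
  have hlogN : Tendsto (fun N : ℕ => Real.log N) atTop atTop :=
    Real.tendsto_log_atTop.comp tendsto_natCast_atTop_atTop
  have hm0 : (0:ℝ) ≤ H.card := Nat.cast_nonneg _
  filter_upwards [win_mass_le, hlogN.eventually_ge_atTop (H.sup id + 2 * H.card + 1 : ℕ),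
    tendsto_lam.eventually_ge_atTop 2, tendsto_lam.eventually (brun_large H.card hm0),
    eventually_ge_atTop 3] with N h1 h2 h3 h4 h5 Q hQ
  set m : ℝ := (H.card : ℝ) with hm
  have hl0 : 0 < lam N := by linarith
  have hlog0 : 0 < Real.log N := by
    have : (0:ℝ) ≤ ((H.sup id + 2 * H.card + 1 : ℕ) : ℝ) := Nat.cast_nonneg _
    have e1 : (1:ℝ) ≤ ((H.sup id + 2 * H.card + 1 : ℕ) : ℝ) := by
      exact_mod_cast (by omega : 1 ≤ H.sup id + 2 * H.card + 1)
    linarith
  have hexp : Real.exp (lam N) = Real.log N := by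
    unfold lam
    exact Real.exp_log hlog0
  rw [hexp] at h4
  set k := ⌈(16 * m + 1) * lam N⌉₊ with hk
  have hk1 : (16 * m + 1) * lam N ≤ k := Nat.le_ceil _
  have hk2 : (k:ℝ) ≤ (16 * m + 2) * lam N := by
    have := Nat.ceil_lt_add_one (show 0 ≤ (16 * m + 1) * lam N by positivity)
    rw [← hk] at this
    nlinarith
  have hkpos : 0 < k := by
    rw [hk, Nat.ceil_pos]
    positivity
  obtain ⟨R, hR⟩ : ∃ R, k = R + 1 := ⟨k - 1, by omega⟩
  have hMw1 : 1 ≤ Mw N := by
    unfold Mw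
    rw [Nat.one_le_ceil_iff]
    exact Real.exp_pos _
  have hbig : ∀ p ∈ Q, (H.sup id + 2 * H.card + 1 : ℕ) < p := by
    intro p hp
    have := (hQ p hp).2.1
    exact_mod_cast lt_of_le_of_lt h2 this
  have hb := P4a7640L.brun_window (H := H) (Q := Q) (y := ⌊zup N⌋₊) (R := R) (M := Mw N) (N := N)
    (Λ := 2 * lam N) (by
      intro p hp
      have e1 := hbig p hp
      refine ⟨(hQ p hp).1, fun h hh => ?_, by omega⟩
      have : h ≤ H.sup id := Finset.le_sup (f := id) hh
      omega) (fun p hp => Nat.le_floor (hQ p hp).2.2) (by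
      refine le_trans ?_ h1
      refine Finset.sum_le_sum_of_subset_of_nonneg ?_ (fun _ _ _ => by positivity)
      intro p hp
      unfold DA
      classical
      simp only [Finset.mem_filter, Finset.mem_Icc]
      refine ⟨⟨(hQ p hp).1.one_lt.le, ?_⟩, hQ p hp⟩
      have e1 : zup N ≤ N := by
        have hN0 : (0:ℝ) < N := by exact_mod_cast (by omega : 0 < N)
        calc zup N ≤ Real.exp (Real.log N) := by
              unfold zup
              apply Real.exp_le_exp.2
              apply div_le_self hlog0.le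
              exact one_le_pow₀ (by linarith)
          _ = N := Real.exp_log hN0
      exact_mod_cast (hQ p hp).2.2.trans e1) hMw1 h5
  refine hb.trans ?_
  rw [← hR, add_assoc]
  refine add_le_add le_rfl ?_
  have hA := brun_fact hm0 h3 hk1
  have hB : (1 + 2 * m * ((⌊zup N⌋₊ : ℕ) : ℝ)) ^ k / ((Mw N : ℕ) : ℝ) ≤
      1 / 2 * Real.exp (-lam N) := by
    have hz1 : 1 ≤ zup N := by
      unfold zup
      rw [Real.one_le_exp_iff]
      positivity
    have g1 : 1 + 2 * m * ((⌊zup N⌋₊ : ℕ) : ℝ) ≤ Real.exp (2 * m + Real.log N / lam N ^ 4) := by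
      have e1 : ((⌊zup N⌋₊ : ℕ) : ℝ) ≤ zup N := Nat.floor_le (by linarith)
      calc _ ≤ (1 + 2 * m) * zup N := by nlinarith
        _ ≤ Real.exp (2 * m) * zup N := by
            refine mul_le_mul_of_nonneg_right ?_ (by linarith)
            have := Real.add_one_le_exp (2 * m)
            linarith
        _ = _ := by
            unfold zup
            rw [← Real.exp_add]
    have g2 : (1 + 2 * m * ((⌊zup N⌋₊ : ℕ) : ℝ)) ^ k ≤
        Real.exp ((16 * m + 2) * lam N * (2 * m) +
          (16 * m + 2) * lam N * (Real.log N / lam N ^ 4)) := by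
      calc _ ≤ (Real.exp (2 * m + Real.log N / lam N ^ 4)) ^ k :=
            pow_le_pow_left₀ (by positivity) g1 k
        _ = Real.exp (k * (2 * m + Real.log N / lam N ^ 4)) := by rw [← Real.exp_nat_mul]
        _ ≤ _ := by
            apply Real.exp_le_exp.2
            have e2 : 0 ≤ 2 * m + Real.log N / lam N ^ 4 := by positivity
            calc _ ≤ (16 * m + 2) * lam N * (2 * m + Real.log N / lam N ^ 4) :=
                  mul_le_mul_of_nonneg_right hk2 e2
              _ = _ := by ring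
    have g3 : Real.exp (Real.log N / lam N ^ 2) ≤ ((Mw N : ℕ) : ℝ) := by
      unfold Mw
      exact Nat.le_ceil _
    have g4 : (0:ℝ) < ((Mw N : ℕ) : ℝ) := lt_of_lt_of_le (Real.exp_pos _) g3
    have g5 : Real.exp (-1) ≤ 1 / 2 := by
      have := Real.exp_neg_one_lt_d9
      linarith
    rw [div_le_iff₀ g4]
    calc _ ≤ Real.exp ((16 * m + 2) * lam N * (2 * m) +
          (16 * m + 2) * lam N * (Real.log N / lam N ^ 4)) := g2
      _ ≤ Real.exp (-1) * Real.exp (-lam N) * Real.exp (Real.log N / lam N ^ 2) := by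
          rw [← Real.exp_add, ← Real.exp_add]
          apply Real.exp_le_exp.2
          linarith
      _ ≤ 1 / 2 * Real.exp (-lam N) * ((Mw N : ℕ) : ℝ) := by
          refine mul_le_mul ?_ g3 (Real.exp_pos _).le (by positivity)
          exact mul_le_mul_of_nonneg_right g5 (Real.exp_pos _).le
  have hC : Real.exp (-lam N) = 1 / 2 * Real.exp (-lam N) + 1 / 2 * Real.exp (-lam N) := by ring
  rw [hC]
  exact add_le_add hA hB

end Pool.Agent.Lib.P4a7640Y
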