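import Mathlib
import Pool.Agent.Lib.P4a7640Y.Par

/-!
# The integers below the window have small logarithmic mass
-/

open Filter Topology

namespace Pool.Agent.Lib.P4a7640Y

open Pool.Agent.Lib.P4a7640 Pool.Agent.Lib.P4a7640M

namespace HeadAux

lemma sum_Icc_inv_le (M : ℕ) :
    ∑ n ∈ Finset.Icc 1 M, (1:ℝ) / n ≤ 1 + Real.log M := by
  have h := harmonic_le_one_add_log M
  rw [harmonic_eq_sum_Icc] at h
  push_cast at h
  simpa [one_div] using h

lemma tendsto_lamN : Tendsto (fun N : ℕ => lam N) atTop atTop :=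
  Real.tendsto_log_atTop.comp (Real.tendsto_log_atTop.comp tendsto_natCast_atTop_atTop)

lemma sq_le_exp {x : ℝ} (hx : 0 ≤ x) : x ^ 2 ≤ 2 * Real.exp x := by
  have := Real.quadratic_le_exp_of_nonneg hx
  nlinarith

end HeadAux

open HeadAux

/-- module Head -/
theorem head_mass : ∃ C : ℝ, 0 < C ∧ ∀ᶠ N : ℕ in atTop,
    (∑ n ∈ Finset.Icc 1 (Mw N), (1:ℝ) / n) / Real.log N ≤ C / lam N ^ 2 := by
  refine ⟨5, by norm_num, ?_⟩
  filter_upwards [tendsto_lamN.eventually_ge_atTop 1,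
    (Real.tendsto_log_atTop.comp tendsto_natCast_atTop_atTop).eventually_ge_atTop (1:ℝ)] with N h1 h2
  have hl : 0 < Real.log N := lt_of_lt_of_le one_pos h2
  have hlam : 0 < lam N := by linarith
  have hexp : Real.exp (lam N) = Real.log N := Real.exp_log hl
  have hsq : lam N ^ 2 ≤ 2 * Real.log N := by
    rw [← hexp]; exact sq_le_exp hlam.le
  have hM1 : 1 ≤ Mw N := Nat.one_le_ceil_iff.2 (Real.exp_pos _)
  have hlogM : Real.log (Mw N) ≤ Real.log N / lam N ^ 2 + 1 := by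
    unfold Mw
    have h2' : (⌈Real.exp (Real.log N / lam N ^ 2)⌉₊ : ℝ) < Real.exp (Real.log N / lam N ^ 2) + 1 :=
      Nat.ceil_lt_add_one (Real.exp_pos _).le
    have h3 : 1 ≤ Real.exp (Real.log N / lam N ^ 2) := Real.one_le_exp (by positivity)
    have h4 : (⌈Real.exp (Real.log N / lam N ^ 2)⌉₊ : ℝ) ≤ Real.exp (Real.log N / lam N ^ 2 + 1) := by
      rw [Real.exp_add]
      have h5 : (2:ℝ) ≤ Real.exp 1 := by
        have := Real.add_one_le_exp (1:ℝ)
        linarith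
      nlinarith
    have h6 : (0:ℝ) < (⌈Real.exp (Real.log N / lam N ^ 2)⌉₊ : ℝ) := by exact_mod_cast hM1
    rw [Real.log_le_iff_le_exp h6]
    exact h4
  have h7 := sum_Icc_inv_le (Mw N)
  rw [div_le_div_iff₀ hl (by positivity)]
  have h8 : ∑ n ∈ Finset.Icc 1 (Mw N), (1:ℝ) / n ≤ 2 + Real.log N / lam N ^ 2 := by linarith
  calc (∑ n ∈ Finset.Icc 1 (Mw N), (1:ℝ) / n) * lam N ^ 2
      ≤ (2 + Real.log N / lam N ^ 2) * lam N ^ 2 := by gcongr
    _ = 2 * lam N ^ 2 + Real.log N := by field_simp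
    _ ≤ 5 * Real.log N := by linarith

end Pool.Agent.Lib.P4a7640Y
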