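import Mathlib
import Pool.Agent.Lib.P4a7640Y.Par
import Pool.Agent.Lib.P4a7640.Avg

/-!
# Integers divisible by the square of a large prime
-/

open Filter Topology

namespace Pool.Agent.Lib.P4a7640Y

open Pool.Agent.Lib.P4a7640 Pool.Agent.Lib.P4a7640M

namespace SqAux

lemma tendsto_logNN : Tendsto (fun N : ℕ => Real.log N) atTop atTop :=
  Real.tendsto_log_atTop.comp tendsto_natCast_atTop_atTop

lemma tendsto_lamNN : Tendsto (fun N : ℕ => lam N) atTop atTop :=
  Real.tendsto_log_atTop.comp tendsto_logNN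

lemma eventually_pow_le (k : ℕ) {c : ℝ} (hc : 0 < c) :
    ∀ᶠ N : ℕ in atTop, lam N ^ k ≤ c * Real.log N := by
  have h1 := (Real.isLittleO_pow_log_id_atTop (n := k)).bound hc
  have h2 := tendsto_logNN.eventually h1
  filter_upwards [h2, tendsto_logNN.eventually_ge_atTop 1, tendsto_lamNN.eventually_ge_atTop 0]
    with N h3 h4 h5
  simp only [id] at h3
  rw [Real.norm_of_nonneg (by
    have : Real.log (Real.log N) = lam N := rfl
    rw [this]
    positivity), Real.norm_of_nonneg (by linarith)] at h3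
  exact h3

end SqAux

open SqAux

open Classical in
/-- module SqMass -/
theorem sq_mass (H : Finset ℕ) : ∃ C : ℝ, 0 < C ∧ ∀ᶠ N : ℕ in atTop,
    (∑ n ∈ (Finset.Icc 1 N).filter (fun n => ∃ h ∈ H, ∃ p : ℕ, p.Prime ∧ Real.log N < p ∧ p ^ 2 ∣ n + h),
      (1:ℝ) / n) / Real.log N ≤ C / lam N ^ 4 := by
  refine ⟨1 + 4 * H.card, by positivity, ?_⟩
  have hlogH : ∀ᶠ N : ℕ in atTop, ∀ h ∈ H, CH h ≤ Real.log N ∧ 2 * (h:ℝ) ≤ Real.log N := by
    rw [eventually_all_finset]
    exact fun h _ => (tendsto_logNN.eventually_ge_atTop _).and (tendsto_logNN.eventually_ge_atTop _)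
  filter_upwards [hlogH, eventually_pow_le 4 one_pos, tendsto_logNN.eventually_ge_atTop 1,
    tendsto_lamNN.eventually_ge_atTop 1, eventually_ge_atTop 3] with N h1 h2 h3 h4 h5
  have hlogpos : 0 < Real.log N := by linarith
  have hlampos : 0 < lam N := by linarith
  set P : ℕ → Finset ℕ := fun h => (Finset.Ioo ⌊Real.log N⌋₊ (N + h + 1)).filter Nat.Prime with hP
  have hind : ∀ n ∈ (Finset.Icc 1 N).filter (fun n => ∃ h ∈ H, ∃ p : ℕ, p.Prime ∧
      Real.log N < p ∧ p ^ 2 ∣ n + h),
      (1:ℝ) / n ≤ ∑ h ∈ H, ∑ p ∈ P h, (if p ^ 2 ∣ n + h then (1:ℝ) / n else 0) := by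
    intro n hn
    rw [Finset.mem_filter, Finset.mem_Icc] at hn
    obtain ⟨⟨hn1, hn2⟩, h, hh, p, hp, hlp, hd⟩ := hn
    have hnn : ∀ i ∈ H, 0 ≤ ∑ p ∈ P i, (if p ^ 2 ∣ n + i then (1:ℝ) / n else 0) := fun i _ =>
      Finset.sum_nonneg fun q _ => by split_ifs <;> positivity
    have hpP : p ∈ P h := by
      rw [hP]
      dsimp only
      rw [Finset.mem_filter, Finset.mem_Ioo]
      refine ⟨⟨(Nat.floor_lt hlogpos.le).mpr hlp, ?_⟩, hp⟩
      have h6 : p ∣ n + h := (Dvd.intro_left (p ^ 1) (by ring)).trans hd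
      have := Nat.le_of_dvd (by omega) h6
      omega
    have h6 : (1:ℝ) / n ≤ ∑ p ∈ P h, (if p ^ 2 ∣ n + h then (1:ℝ) / n else 0) := by
      have := Finset.single_le_sum (f := fun p => if p ^ 2 ∣ n + h then (1:ℝ) / n else 0)
        (fun q _ => by split_ifs <;> positivity) hpP
      simpa only [if_pos hd] using this
    exact h6.trans (Finset.single_le_sum (f := fun h => ∑ p ∈ P h,
      (if p ^ 2 ∣ n + h then (1:ℝ) / n else 0)) hnn hh)
  have hUU : ∀ h ∈ H, ∑ p ∈ P h, UU N h (p ^ 2) ≤ 4 := by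
    intro h hh
    obtain ⟨hC, h2h⟩ := h1 h hh
    calc ∑ p ∈ P h, UU N h (p ^ 2) ≤ ∑ p ∈ P h, ((p:ℝ) ^ 2)⁻¹ * (2 * Real.log N) := by
          refine Finset.sum_le_sum fun p hp => ?_
          rw [hP] at hp
          dsimp only at hp
          rw [Finset.mem_filter, Finset.mem_Ioo] at hp
          obtain ⟨⟨hp1, hp2⟩, hpp⟩ := hp
          have h7 : Real.log N < p := (Nat.floor_lt hlogpos.le).mp hp1
          have h8 : 2 * (h:ℝ) ≤ p := by linarith
          have h9 : 2 * h ≤ p := by exact_mod_cast h8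
          have h10 := UU_le (N := N) (h := h) (d := p ^ 2) (by omega)
            (Nat.pos_of_ne_zero (by have := hpp.pos; positivity))
            (h9.trans (Nat.le_self_pow (by norm_num) p))
          push_cast at h10
          refine h10.trans ?_
          rw [one_div]
          apply mul_le_mul_of_nonneg_left _ (by positivity)
          linarith
      _ = (∑ p ∈ P h, ((p:ℝ) ^ 2)⁻¹) * (2 * Real.log N) := by rw [Finset.sum_mul]
      _ ≤ (2 / (⌊Real.log N⌋₊ + 1)) * (2 * Real.log N) := by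
          apply mul_le_mul_of_nonneg_right _ (by positivity)
          refine le_trans ?_ (sum_Ioo_inv_sq_le (α := ℝ) ⌊Real.log N⌋₊ (N + h + 1))
          apply Finset.sum_le_sum_of_subset_of_nonneg (Finset.filter_subset _ _)
          intro _ _ _
          positivity
      _ ≤ (2 / Real.log N) * (2 * Real.log N) := by
          apply mul_le_mul_of_nonneg_right _ (by positivity)
          apply div_le_div_of_nonneg_left (by norm_num) hlogpos
          exact (Nat.lt_floor_add_one _).le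
      _ = 4 := by field_simp; norm_num
  have hsum : ∑ n ∈ (Finset.Icc 1 N).filter (fun n => ∃ h ∈ H, ∃ p : ℕ, p.Prime ∧
      Real.log N < p ∧ p ^ 2 ∣ n + h), (1:ℝ) / n ≤ 4 * H.card := by
    calc _ ≤ ∑ n ∈ (Finset.Icc 1 N).filter (fun n => ∃ h ∈ H, ∃ p : ℕ, p.Prime ∧
          Real.log N < p ∧ p ^ 2 ∣ n + h),
          ∑ h ∈ H, ∑ p ∈ P h, (if p ^ 2 ∣ n + h then (1:ℝ) / n else 0) := Finset.sum_le_sum hind
      _ ≤ ∑ n ∈ Finset.Icc 1 N, ∑ h ∈ H, ∑ p ∈ P h, (if p ^ 2 ∣ n + h then (1:ℝ) / n else 0) := by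
          apply Finset.sum_le_sum_of_subset_of_nonneg (Finset.filter_subset _ _)
          intro n _ _
          exact Finset.sum_nonneg fun _ _ => Finset.sum_nonneg fun _ _ => by
            split_ifs <;> positivity
      _ = ∑ h ∈ H, ∑ p ∈ P h, UU N h (p ^ 2) := by
          rw [Finset.sum_comm]
          refine Finset.sum_congr rfl fun h _ => ?_
          rw [Finset.sum_comm]
          refine Finset.sum_congr rfl fun p _ => ?_
          unfold UU
          rw [Finset.sum_filter]
      _ ≤ ∑ h ∈ H, 4 := Finset.sum_le_sum hUU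
      _ = 4 * H.card := by rw [Finset.sum_const, nsmul_eq_mul, mul_comm]
  calc _ ≤ (4 * (H.card:ℝ)) / Real.log N := div_le_div_of_nonneg_right hsum hlogpos.le
    _ ≤ (4 * (H.card:ℝ)) / lam N ^ 4 := by
        apply div_le_div_of_nonneg_left (by positivity) (by positivity)
        linarith
    _ ≤ (1 + 4 * H.card) / lam N ^ 4 := by
        apply div_le_div_of_nonneg_right _ (by positivity)
        linarith

end Pool.Agent.Lib.P4a7640Y
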