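import Mathlib
import Pool.Agent.Lib.P4a7640Y.Par

/-!
# The window part of `n + h` for several shifts
-/

open Filter Finset

namespace Pool.Agent.Lib.P4a7640Y

open Pool.Agent.Lib.P4a7640 Pool.Agent.Lib.P4a7640M

/-- a prime above the shifts divides at most one of the shifted integers -/
theorem shift_unique {n h h' p : ℕ} {B : ℝ} (hh : (h:ℝ) ≤ B) (hh' : (h':ℝ) ≤ B) (hp : B < p)
    (h1 : p ∣ n + h) (h2 : p ∣ n + h') : h = h' := by
  by_contra hne
  wlog hlt : h < h' generalizing h h'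
  · exact this hh' hh h2 h1 (Ne.symm hne) (by omega)
  have h3 : p ∣ h' - h := by
    have h4 := Nat.dvd_sub h2 h1
    rwa [show n + h' - (n + h) = h' - h by omega] at h4
  have h5 : p ≤ h' - h := Nat.le_of_dvd (by omega) h3
  have h6 : p ≤ h' := h5.trans (Nat.sub_le _ _)
  have h7 : (p : ℝ) ≤ h' := by exact_mod_cast h6
  linarith

open Classical in
/-- membership in the window part -/
theorem mem_win {H : Finset ℕ} {N n : ℕ} (hH : ∀ h ∈ H, (h:ℝ) ≤ Real.log N) (hn : 1 ≤ n)
    (hz : zup N ≤ N) (hsq : ¬ ∃ h ∈ H, ∃ p : ℕ, p.Prime ∧ Real.log N < p ∧ p ^ 2 ∣ n + h) (p : ℕ) :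
    p ∈ (oddT (MM H n)).filter (fun p => InW N p) ↔
      ∃ h ∈ H, p ∈ (DA N).filter (fun p => p ∣ n + h) := by
  have hne : ∀ h ∈ H, n + h ≠ 0 := fun h _ => by omega
  have hMM : MM H n ≠ 0 := Finset.prod_ne_zero_iff.2 hne
  constructor
  · intro hp
    rw [Finset.mem_filter] at hp
    obtain ⟨hpT, hpW⟩ := hp
    unfold oddT at hpT
    rw [Finset.mem_filter, Nat.mem_primeFactors] at hpT
    obtain ⟨h, hh, hph⟩ := (Nat.Prime.prime hpW.1).exists_mem_finset_dvd hpT.1.2.1
    refine ⟨h, hh, ?_⟩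
    rw [Finset.mem_filter, DA, Finset.mem_filter, Finset.mem_Icc]
    refine ⟨⟨⟨hpW.1.one_lt.le, ?_⟩, hpW⟩, hph⟩
    have h1 := hpW.2.2.trans hz
    exact_mod_cast h1
  · rintro ⟨h, hh, hp⟩
    rw [Finset.mem_filter, DA, Finset.mem_filter] at hp
    obtain ⟨⟨-, hpW⟩, hph⟩ := hp
    rw [Finset.mem_filter]
    refine ⟨?_, hpW⟩
    unfold oddT
    rw [Finset.mem_filter, Nat.mem_primeFactors]
    have hdvd : p ∣ MM H n := hph.trans (Finset.dvd_prod_of_mem (fun h => n + h) hh)
    refine ⟨⟨hpW.1, hdvd, hMM⟩, ?_⟩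
    have hfac : (MM H n).factorization p = (n + h).factorization p := by
      unfold MM
      rw [Nat.factorization_prod hne, Finsupp.finsetSum_apply]
      refine Finset.sum_eq_single h (fun h' hh' hne' => ?_) (fun hh' => absurd hh hh')
      refine Nat.factorization_eq_zero_of_not_dvd fun hd => hne' ?_
      exact shift_unique (hH h' hh') (hH h hh) hpW.2.1 hd hph
    have h1 : (n + h).factorization p = 1 := by
      have h2 : 1 ≤ (n + h).factorization p :=
        (hpW.1.dvd_iff_one_le_factorization (hne h hh)).1 hph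
      have h3 : ¬ 2 ≤ (n + h).factorization p := by
        intro h4
        exact hsq ⟨h, hh, p, hpW.1, hpW.2.1, (hpW.1.pow_dvd_iff_le_factorization (hne h hh)).2 h4⟩
      omega
    rw [hfac, h1]
    exact odd_one

open Classical in
/-- module WinPart: the window part of `oddT (MM H n)` is the disjoint union over `h ∈ H` of the window
primes dividing `n + h` -/
theorem win_part {H : Finset ℕ} {N n : ℕ} (hH : ∀ h ∈ H, (h:ℝ) ≤ Real.log N) (hn : 1 ≤ n)
    (hz : zup N ≤ N) (hsq : ¬ ∃ h ∈ H, ∃ p : ℕ, p.Prime ∧ Real.log N < p ∧ p ^ 2 ∣ n + h)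
    (f : ℕ → ℝ) : ∏ p ∈ (oddT (MM H n)).filter (fun p => InW N p), f p =
      ∏ h ∈ H, ∏ p ∈ (DA N).filter (fun p => p ∣ n + h), f p := by
  have h1 : (oddT (MM H n)).filter (fun p => InW N p) =
      H.biUnion (fun h => (DA N).filter (fun p => p ∣ n + h)) := by
    ext p
    rw [Finset.mem_biUnion]
    exact mem_win hH hn hz hsq p
  rw [h1, Finset.prod_biUnion]
  intro h hh h' hh' hne
  rw [Function.onFun, Finset.disjoint_left]
  intro p hp hp'
  rw [Finset.mem_filter, DA, Finset.mem_filter] at hp hp'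
  exact hne (shift_unique (hH h hh) (hH h' hh') hp.1.2.2.1 hp.2 hp'.2)

/-- module WinPart -/
theorem ev_zup_le : ∀ᶠ N : ℕ in atTop, zup N ≤ N := by
  have h1 : Tendsto (fun N : ℕ => lam N) atTop atTop := by
    unfold lam
    exact Real.tendsto_log_atTop.comp (Real.tendsto_log_atTop.comp tendsto_natCast_atTop_atTop)
  filter_upwards [h1.eventually_ge_atTop 1, eventually_ge_atTop 1] with N hN hN1
  have h2 : (0:ℝ) < N := by exact_mod_cast hN1
  have h3 : 0 ≤ Real.log N := Real.log_nonneg (by exact_mod_cast hN1)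
  unfold zup
  calc Real.exp (Real.log N / lam N ^ 4) ≤ Real.exp (Real.log N) := by
        refine Real.exp_le_exp.2 (div_le_self h3 ?_)
        exact one_le_pow₀ hN
    _ = N := Real.exp_log h2

end Pool.Agent.Lib.P4a7640Y
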