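import Mathlib
import Pool.Agent.Lib.P4a7640Y.SecY
import Pool.Agent.Lib.P4a7640Y.Tail
import Pool.Agent.Lib.P4a7640Y.SqMass
import Pool.Agent.Lib.P4a7640Y.WinMass
import Pool.Agent.Lib.P4a7640Y.Head
import Pool.Agent.Lib.P4a7640Y.Asym
import Pool.Agent.Lib.P4a7640Y.BrunP
import Pool.Agent.Lib.P4a7640Y.KapK
import Pool.Agent.Lib.P4a7640Y.LipK
import Pool.Agent.Lib.P4a7640Y.WinPart
import Pool.Agent.Lib.P4a7640Y.PairSum

/-!
# The second moment bound
-/

open MeasureTheory Filter Finset Topology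

namespace Pool.Agent.Lib.P4a7640Y

open Pool.Agent.Lib.P4a7640 Pool.Agent.Lib.P4a7640M

lemma dl_nonneg (A : Set ℝ) : 0 ≤ dl A := by
  obtain ⟨h1, h2⟩ := vol_mem A
  unfold dl
  exact le_min h1 (by linarith)

lemma dl_le_one (A : Set ℝ) : dl A ≤ 1 := by
  obtain ⟨h1, h2⟩ := vol_mem A
  unfold dl
  exact (min_le_left _ _).trans h2

lemma KInt.measurableSet {k : ℕ} {A : Set ℝ} (hA : KInt k A) : MeasurableSet A := by
  obtain ⟨s, _, hs, rfl⟩ := hA
  exact Finset.measurableSet_biUnion s fun J hJ => (hs J hJ).measurableSet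

theorem moment_bound {k : ℕ} {a : ℕ → ℕ} {A : ℕ → Set ℝ} (ha : ∀ p : ℕ, p.Prime → 0 < a p)
    (hk : ∀ (n : ℕ) (s : Finset ℕ), (∀ p ∈ s, p.Prime ∧ a p = n) → s.card ≤ k)
    (hA : ∀ p, KInt k (A p))
    (hM : Tendsto (fun N : ℕ => (∑ p ∈ (Finset.Icc 1 N).filter Nat.Prime, dl (A p) / p) /
      Real.log (Real.log (Real.log N)) ^ 2) atTop atTop) {H : Finset ℕ} (hH : H.Nonempty) :
    ∃ B : ℝ, 0 < B ∧ ∀ᶠ N : ℕ in atTop, ∀ w : ℕ → ℝ, (∀ n, |w n| ≤ 1) → ∀ u : ℝ,
      ∫ α in u..(u + 1), FF w H N (xg A a α) ^ 2 ≤ B / lam N ^ 4 := by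
  classical
  obtain ⟨K, hK, C1, hC1, hev1⟩ := tail_mass H
  obtain ⟨C2, hC2, hev2⟩ := sq_mass H
  obtain ⟨C3, hC3, hev3⟩ := head_mass
  obtain ⟨c, hc, hkap⟩ := kap_kint k
  set C : ℝ := 4 * k + 4 with hCdef
  have hC : 0 < C := by positivity
  obtain ⟨K₁, hK₁, hasym⟩ := asym (K := K) (C := 6 * C) (k := k) hK (by positivity) (Nat.cast_nonneg k)
  have hwin := win_mass (δ := fun p => dl (A p)) (fun p => dl_nonneg _) (fun p => dl_le_one _) hM (K₁ / c)
  set φ : ℕ → UnitAddCircle → ℝ := fun p => phiC (A p) with hφdef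
  have hφ : ∀ p, Measurable (φ p) := fun p => measurable_phiC (hA p).measurableSet
  have hs : ∀ p x, |φ p x| = 1 := fun p x => abs_phiC _ x
  have hb : ∀ p x, |φ p x| ≤ 1 := fun p x => (hs p x).le
  have hL : ∀ p, LL1 C (φ p) := fun p => lip_kint (hA p)
  have hlamT : Tendsto lam atTop atTop := Real.tendsto_log_atTop.comp
    (Real.tendsto_log_atTop.comp tendsto_natCast_atTop_atTop)
  have hlogT : Tendsto (fun N : ℕ => Real.log (N:ℝ)) atTop atTop :=
    Real.tendsto_log_atTop.comp tendsto_natCast_atTop_atTop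
  refine ⟨2 * C3 ^ 2 + 2 * (2 * (C1 + C2) + (2 * K * C + 1) + 1), by positivity, ?_⟩
  filter_upwards [hev1, hev2, hev3, hasym, hwin, win_mass_le, brun_par H, ev_zup_le,
    hlamT.eventually_ge_atTop 3, hlogT.eventually_ge_atTop ((H.sup id : ℕ) : ℝ), eventually_ge_atTop 3]
    with N h1 h2 h3 h4 h5 h6 h7 h8 h9 h10 hN w hw u
  have hlog : 1 ≤ Real.log N := P4a7640L.Brun.log_ge_one hN
  have hl : 0 < Real.log N := by linarith
  have hlam0 : 0 < lam N := by linarith
  have hloglam : 0 < Real.log (lam N) := Real.log_pos (by linarith)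
  have hloglam_le : Real.log (lam N) ≤ lam N := (Real.log_le_sub_one_of_pos hlam0).trans (by linarith)
  have hM1 : 1 ≤ Mw N := by
    unfold Mw
    exact Nat.one_le_ceil_iff.mpr (Real.exp_pos _)
  have hMN : Mw N ≤ N := by
    unfold Mw
    rw [Nat.ceil_le]
    have hN0 : (0:ℝ) < N := by exact_mod_cast (show 0 < N by omega)
    calc Real.exp (Real.log N / lam N ^ 2) ≤ Real.exp (Real.log N) := by
          apply Real.exp_le_exp.mpr
          rw [div_le_iff₀ (by positivity)]
          have : 1 ≤ lam N ^ 2 := by nlinarith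
          nlinarith
      _ = N := Real.exp_log hN0
  -- the coefficients
  set cf : ℕ → ℝ := fun n => w n / n / Real.log N with hcf
  have hcfb : ∀ n, |cf n| ≤ 1 / n / Real.log N := by
    intro n
    rw [hcf]
    show |w n / n / Real.log N| ≤ _
    rw [abs_div, abs_div, abs_of_pos hl, abs_of_nonneg (Nat.cast_nonneg (α := ℝ) n)]
    exact div_le_div_of_nonneg_right (div_le_div_of_nonneg_right (hw n) (Nat.cast_nonneg n)) hl.le
  rw [FF_xg]
  -- splitting of the sum
  have hsplit : ∀ x, FT φ a H (Finset.Icc 1 N) cf x =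
      FT φ a H (Finset.Icc 1 (Mw N)) cf x + FT φ a H (Ioc (Mw N) N) cf x := by
    intro x
    unfold FT
    rw [← Finset.sum_union]
    · congr 1
      ext n
      simp only [Finset.mem_Icc, Finset.mem_union, Finset.mem_Ioc]
      omega
    · rw [Finset.disjoint_left]
      intro n hn hn'
      simp only [Finset.mem_Icc, Finset.mem_Ioc] at hn hn'
      omega
  have hhead : ∀ x, |FT φ a H (Finset.Icc 1 (Mw N)) cf x| ≤ C3 / lam N ^ 2 := by
    intro x
    refine (abs_FT_le hb H _ (fun n _ => hcfb n) x).trans (le_trans (le_of_eq ?_) h3)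
    rw [Finset.sum_div]
  have hmain : ∫ x, FT φ a H (Ioc (Mw N) N) cf x ^ 2 ≤
      (2 * (C1 + C2) + (2 * K * C + 1) + 1) / lam N ^ 4 := by
    obtain ⟨bad, hbad⟩ : ∃ bad : ℕ → Prop, ∀ n, bad n ↔ ((K * Real.log (lam N) <
      ((oddT (MM H n)).filter (fun p => ¬ InW N p)).card) ∨
      (∃ h ∈ H, ∃ p : ℕ, p.Prime ∧ Real.log N < p ∧ p ^ 2 ∣ n + h)) := ⟨_, fun _ => Iff.rfl⟩
    have hHlog : ∀ h ∈ H, (h:ℝ) ≤ Real.log N := by
      intro h hh
      refine le_trans ?_ h10
      exact_mod_cast Finset.le_sup (f := id) hh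
    have hQ : 0 < QN N := by
      unfold QN
      exact Nat.ceil_pos.mpr (by positivity)
    have hQ' : lam N ^ 5 ≤ QN N := Nat.le_ceil _
    have hη : 0 < 1 / lam N ^ 4 := by positivity
    have hYM : K₁ * Real.log (lam N) ^ 2 ≤ YM φ (DA N) := by
      have e1 : K₁ * Real.log (lam N) ^ 2 = c * (K₁ / c * Real.log (lam N) ^ 2) := by
        field_simp
      rw [e1]
      refine (mul_le_mul_of_nonneg_left h5 hc.le).trans ?_
      unfold YM
      rw [Finset.mul_sum]
      refine Finset.sum_le_sum fun p _ => ?_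
      rw [← mul_div_assoc]
      exact div_le_div_of_nonneg_right (hkap _ (hA p)) (Nat.cast_nonneg p)
    have hYM0 : 0 < YM φ (DA N) := lt_of_lt_of_le (by positivity) hYM
    have hDA : ∀ p ∈ DA N, InW N p := by
      intro p hp
      unfold DA at hp
      exact (Finset.mem_filter.mp hp).2
    have hvb := v_bound (φ := φ) (a := a) (D := DA N) hφ hs hH hM1 hN (Real.exp_pos (-lam N)).le
      (fun Q hQ => h7 Q fun p hp => hDA p (hQ hp)) hYM0
    set V := ∑ n ∈ Ioc (Mw N) N, ∑ n' ∈ Ioc (Mw N) N, ((1:ℝ) / n / Real.log N * (1 / n' / Real.log N)) *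
      ∫ h, AC (fun x => WW φ a H (DA N) n x * WW φ a H (DA N) n' x) h ^ 2 with hV
    have hvar : ∫ τ, (YY φ a (DA N) τ - YM φ (DA N)) ^ 2 ∂P3 ≤
        6 * C * (2 * lam N) * (k * (RN N : ℝ) ^ 2 / Real.log N + 2 * lam N / RN N) := by
      have hR : 0 < RN N := by
        unfold RN
        exact Nat.ceil_pos.mpr (Real.exp_pos _)
      have hR0 : (0:ℝ) < RN N := by exact_mod_cast hR
      refine (var_le hφ hb hL (fun p hp => (ha p (hDA p hp).1).ne')).trans ?_
      have hps : ∀ p ∈ DA N, ∑ q ∈ DA N, (1:ℝ) / q * (1 / mx (a p) (a q)) ≤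
          k * (RN N : ℝ) ^ 2 / Real.log N + 2 * lam N / RN N := by
        intro p hp
        refine (pair_sum (fun q hq => (ha q (hDA q hq).1).ne') (k := k) (fun n => ?_) hl
          (fun q hq => (hDA q hq).2.1) hR hp).trans ?_
        · refine hk n _ fun q hq => ?_
          rw [Finset.mem_filter] at hq
          exact ⟨(hDA q hq.1).1, hq.2⟩
        · exact add_le_add le_rfl (div_le_div_of_nonneg_right h6 hR0.le)
      have hX0 : 0 ≤ (k:ℝ) * (RN N : ℝ) ^ 2 / Real.log N + 2 * lam N / RN N := by positivity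
      calc ∑ p ∈ DA N, (1:ℝ) / p * (6 * C * ∑ q ∈ DA N, (1:ℝ) / q * (1 / mx (a p) (a q)))
          ≤ ∑ p ∈ DA N, (1:ℝ) / p * (6 * C * (k * (RN N : ℝ) ^ 2 / Real.log N + 2 * lam N / RN N)) := by
            refine Finset.sum_le_sum fun p hp => ?_
            exact mul_le_mul_of_nonneg_left (mul_le_mul_of_nonneg_left (hps p hp) (by positivity))
              (by positivity)
        _ = (∑ p ∈ DA N, (1:ℝ) / p) *
            (6 * C * (k * (RN N : ℝ) ^ 2 / Real.log N + 2 * lam N / RN N)) := by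
            rw [Finset.sum_mul]
        _ ≤ (2 * lam N) * (6 * C * (k * (RN N : ℝ) ^ 2 / Real.log N + 2 * lam N / RN N)) :=
            mul_le_mul_of_nonneg_right h6 (by positivity)
        _ = _ := by ring
    have hVle : V ≤ (Real.exp (-YM φ (DA N) / 2) + Real.exp (-lam N)) ^ 2 +
        4 * (6 * C * (2 * lam N) * (k * (RN N : ℝ) ^ 2 / Real.log N + 2 * lam N / RN N)) /
          YM φ (DA N) ^ 2 := by
      refine hvb.trans (add_le_add le_rfl ?_)
      refine div_le_div_of_nonneg_right ?_ (by positivity)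
      linarith
    set j : ℕ := ⌊2 * K * Real.log (lam N)⌋₊ with hj
    have hjle : (j:ℝ) ≤ 2 * K * Real.log (lam N) := Nat.floor_le (by positivity)
    have hfin := h4 (YM φ (DA N)) V hYM hVle j hjle
    have hsm := sec_mom (φ := φ) (a := a) (H := H) (M := Mw N) (N := N) (bad := bad)
      (K₀ := K * Real.log (lam N)) (c := cf) (Q := QN N) (j := j) (η := 1 / lam N ^ 4)
      hφ hb hL (fun p hp => (ha p hp).ne') hM1 hN (by positivity) ?_ ?_ hcfb hQ ?_ hη
    · refine hsm.trans ?_
      have hbadm : (∑ n ∈ (Ioc (Mw N) N).filter bad, (1:ℝ) / n) / Real.log N ≤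
          (C1 + C2) / lam N ^ 4 := by
        have e1 : ∑ n ∈ (Ioc (Mw N) N).filter bad, (1:ℝ) / n ≤
            ∑ n ∈ (Finset.Icc 1 N).filter (fun n => K * Real.log (lam N) <
              ((oddT (MM H n)).filter (fun p => ¬ InW N p)).card), (1:ℝ) / n +
            ∑ n ∈ (Finset.Icc 1 N).filter (fun n => ∃ h ∈ H, ∃ p : ℕ, p.Prime ∧ Real.log N < p ∧
              p ^ 2 ∣ n + h), (1:ℝ) / n := by
          rw [Finset.sum_filter, Finset.sum_filter, Finset.sum_filter, ← Finset.sum_add_distrib]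
          have hsub : Ioc (Mw N) N ⊆ Finset.Icc 1 N := by
            intro n hn
            rw [Finset.mem_Ioc] at hn
            rw [Finset.mem_Icc]
            omega
          refine (Finset.sum_le_sum_of_subset_of_nonneg hsub fun n _ _ => ?_).trans
            (Finset.sum_le_sum fun n _ => ?_)
          · split_ifs
            · positivity
            · exact le_rfl
          · have hn0 : (0:ℝ) ≤ 1 / n := by positivity
            by_cases hb1 : K * Real.log (lam N) < ((oddT (MM H n)).filter (fun p => ¬ InW N p)).card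
            · have hbn : bad n := (hbad n).mpr (Or.inl hb1)
              rw [if_pos hbn, if_pos hb1]
              split_ifs
              · linarith
              · linarith
            · by_cases hb2 : ∃ h ∈ H, ∃ p : ℕ, p.Prime ∧ Real.log N < p ∧ p ^ 2 ∣ n + h
              · have hbn : bad n := (hbad n).mpr (Or.inr hb2)
                rw [if_pos hbn, if_neg hb1, if_pos hb2]
                linarith
              · have hbn : ¬ bad n := fun h => ((hbad n).mp h).elim hb1 hb2
                rw [if_neg hbn, if_neg hb1, if_neg hb2]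
                linarith
        calc (∑ n ∈ (Ioc (Mw N) N).filter bad, (1:ℝ) / n) / Real.log N
            ≤ (_ + _) / Real.log N := div_le_div_of_nonneg_right e1 hl.le
          _ = _ / Real.log N + _ / Real.log N := add_div _ _ _
          _ ≤ C1 / lam N ^ 4 + C2 / lam N ^ 4 := add_le_add h1 h2
          _ = (C1 + C2) / lam N ^ 4 := (add_div _ _ _).symm
      have hKC : 2 * (K * Real.log (lam N)) * (C / (QN N : ℝ)) ≤ 2 * K * C / lam N ^ 4 := by
        have hQ0 : (0:ℝ) < QN N := by exact_mod_cast hQ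
        rw [← mul_div_assoc, div_le_div_iff₀ hQ0 (by positivity)]
        have e2 : Real.log (lam N) * lam N ^ 4 ≤ QN N := by
          refine le_trans ?_ hQ'
          calc Real.log (lam N) * lam N ^ 4 ≤ lam N * lam N ^ 4 :=
                mul_le_mul_of_nonneg_right hloglam_le (by positivity)
            _ = lam N ^ 5 := by ring
        have e3 := mul_le_mul_of_nonneg_left e2 (show 0 ≤ 2 * K * C by positivity)
        calc 2 * (K * Real.log (lam N)) * C * lam N ^ 4 =
              2 * K * C * (Real.log (lam N) * lam N ^ 4) := by ring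
          _ ≤ _ := e3
      have hQV : (QN N : ℝ) ^ (2 * j) / (1 / lam N ^ 4) ^ 3 * V ≤ 1 / lam N ^ 4 := by
        refine le_trans (le_of_eq ?_) hfin
        rw [one_div, inv_pow, div_inv_eq_mul, ← pow_mul]
        ring
      have e4 : (2 * (C1 + C2) + (2 * K * C + 1) + 1) / lam N ^ 4 =
          2 * ((C1 + C2) / lam N ^ 4) + (2 * K * C / lam N ^ 4 + 1 / lam N ^ 4) + 1 / lam N ^ 4 := by
        ring
      rw [e4]
      refine add_le_add (add_le_add ?_ (add_le_add hKC le_rfl)) hQV
      exact mul_le_mul_of_nonneg_left hbadm zero_le_two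
    · intro n _ hbn
      by_contra hcon
      exact hbn ((hbad n).mpr (Or.inl (not_le.mp hcon)))
    · intro n hn hbn f
      rw [Finset.mem_Ioc] at hn
      exact win_part hHlog (by omega) h8 (fun h => hbn ((hbad n).mpr (Or.inr h))) f
    · intro m hm
      rw [hj]
      apply Nat.le_floor
      linarith
  -- conclusion
  have hFm : ∀ S, Measurable (FT φ a H S cf) := fun S => measurable_FT hφ H S cf
  have hFb : ∀ S x, |FT φ a H S cf x| ≤ ∑ n ∈ S, 1 / n / Real.log N := fun S x =>
    abs_FT_le hb H S (fun n _ => hcfb n) x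
  have hi : ∀ S, Integrable (fun x => FT φ a H S cf x ^ 2) volume := fun S => by
    refine int_bdd (f := fun x => FT φ a H S cf x ^ 2) ((hFm S).pow_const 2)
      (C := (∑ n ∈ S, 1 / (n:ℝ) / Real.log N) ^ 2) fun x => ?_
    rw [abs_pow]
    exact pow_le_pow_left₀ (abs_nonneg _) (hFb S x) 2
  calc ∫ x, FT φ a H (Finset.Icc 1 N) cf x ^ 2
      ≤ ∫ x, (2 * (C3 / lam N ^ 2) ^ 2 + 2 * FT φ a H (Ioc (Mw N) N) cf x ^ 2) := by
        refine integral_mono (hi _) ((integrable_const _).add ((hi _).const_mul 2)) fun x => ?_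
        show FT φ a H (Finset.Icc 1 N) cf x ^ 2 ≤
          2 * (C3 / lam N ^ 2) ^ 2 + 2 * FT φ a H (Ioc (Mw N) N) cf x ^ 2
        rw [hsplit]
        have e1 : FT φ a H (Finset.Icc 1 (Mw N)) cf x ^ 2 ≤ (C3 / lam N ^ 2) ^ 2 := by
          rw [← sq_abs]
          exact pow_le_pow_left₀ (abs_nonneg _) (hhead x) 2
        nlinarith [sq_nonneg (FT φ a H (Finset.Icc 1 (Mw N)) cf x - FT φ a H (Ioc (Mw N) N) cf x)]
    _ = 2 * (C3 / lam N ^ 2) ^ 2 + 2 * ∫ x, FT φ a H (Ioc (Mw N) N) cf x ^ 2 := by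
        rw [integral_add (integrable_const _) ((hi _).const_mul 2), integral_const]
        simp only [probReal_univ, smul_eq_mul, one_mul]
        rw [integral_const_mul]
    _ ≤ 2 * (C3 / lam N ^ 2) ^ 2 + 2 * ((2 * (C1 + C2) + (2 * K * C + 1) + 1) / lam N ^ 4) :=
        add_le_add le_rfl (mul_le_mul_of_nonneg_left hmain zero_le_two)
    _ = _ := by
        field_simp

end Pool.Agent.Lib.P4a7640Y
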