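import Mathlib
import Pool.Agent.Lib.P4a7640.Furst
import Pool.Agent.Lib.P4a7640L.Final
import Pool.Agent.Lib.P4a7640Y.AE
import Pool.Agent.Lib.P4a7640L.MertensB

/-!
# The metric theorem from the second moment bound, and the signs `(-1)^⌊α a_p⌋`
-/

open MeasureTheory Filter Topology

namespace Pool.Agent.Lib.P4a7640Y

open Pool.Agent.Lib.P4a7640 Pool.Agent.Lib.P4a7640M

/-- The conclusion for almost every real number, from the second moment bound. -/
theorem main_of_moment {A : ℕ → Set ℝ} {a : ℕ → ℕ} (hA : ∀ p, MeasurableSet (A p))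
    (hm : ∀ H : Finset ℕ, H.Nonempty → ∃ B : ℝ, 0 < B ∧ ∀ᶠ N : ℕ in atTop,
      ∀ w : ℕ → ℝ, (∀ n, |w n| ≤ 1) → ∀ u : ℝ,
        ∫ α in u..(u + 1), FF w H N (xg A a α) ^ 2 ≤ B / lam N ^ 4) (g : ℕ → ℤˣ) (hg : MultS g) :
    ∀ᵐ α : ℝ, ∀ f : ℕ → ℤˣ, MultS f → (∀ p : ℕ, p.Prime → f p = g p * xg A a α p) →
      Aperiodic f ∧ FairSystem f := by
  filter_upwards [ae_of_moment hA hm g] with α hα f hf hfp
  have hmu : MultS fun n => g n * rnd (xg A a α) n :=
    hg.mul fun m n hm hn _ => rnd_mul _ hm.ne' hn.ne'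
  have hrp : ∀ p : ℕ, p.Prime → rnd (xg A a α) p = xg A a α p := by
    intro p hp
    unfold rnd
    rw [hp.factorization, Finsupp.prod_single_index (by simp), pow_one]
  have hvf : Vanish f := P4a7640L.vanish_of_primes hf hmu
    (fun p hp => by rw [hfp p hp, hrp p hp]) hα
  exact ⟨hvf.aperiodic hf, fairAlong_of_vanish le_rfl hvf⟩

/-- The signs `(-1)^⌊α a_p⌋` are the signs of the interval `[1/2, 1)`, after `α ↦ α / 2`. -/
lemma neg_one_floor (a : ℕ → ℕ) (α : ℝ) (p : ℕ) :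
    ((-1 : ℤˣ) ^ ⌊α * a p⌋) = if Int.fract (α / 2 * a p) ∈ Set.Ico (1 / 2 : ℝ) 1 then -1 else 1 := by
  set k := ⌊α * a p⌋ with hk
  have h1 := Int.floor_le (α * a p)
  have h2 := Int.lt_floor_add_one (α * a p)
  rw [← hk] at h1 h2
  have e : α / 2 * (a p : ℝ) = (α * a p) / 2 := by ring
  rw [e]
  rcases Int.even_or_odd k with he | ho
  · rw [Even.neg_one_zpow he]
    obtain ⟨j, hj⟩ := he
    have hj' : (k:ℝ) = j + j := by exact_mod_cast hj
    have hf : ⌊(α * a p) / 2⌋ = j := by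
      rw [Int.floor_eq_iff]
      constructor <;> linarith
    have hfr : Int.fract ((α * a p) / 2) = (α * a p) / 2 - j := by
      rw [← hf]
      rfl
    rw [if_neg]
    rw [hfr, Set.mem_Ico]
    push Not
    intro h3
    linarith
  · rw [Odd.neg_one_zpow ho]
    obtain ⟨j, hj⟩ := ho
    have hj' : (k:ℝ) = 2 * j + 1 := by exact_mod_cast hj
    have hf : ⌊(α * a p) / 2⌋ = j := by
      rw [Int.floor_eq_iff]
      constructor <;> linarith
    have hfr : Int.fract ((α * a p) / 2) = (α * a p) / 2 - j := by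
      rw [← hf]
      rfl
    rw [if_pos]
    rw [hfr, Set.mem_Ico]
    constructor <;> linarith

/-- Almost every real number, after `α ↦ α / 2`. -/
lemma ae_half {q : ℝ → Prop} (h : ∀ᵐ α : ℝ, q α) : ∀ᵐ α : ℝ, q (α / 2) := by
  have h1 : Measure.QuasiMeasurePreserving (fun α : ℝ => (2:ℝ)⁻¹ * α) volume volume := by
    refine ⟨measurable_const_mul _, ?_⟩
    rw [Real.map_volume_mul_left (by norm_num)]
    exact Measure.smul_absolutelyContinuous
  have h2 := h1.ae h
  filter_upwards [h2] with α hα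
  rwa [show α / 2 = (2:ℝ)⁻¹ * α by ring]

lemma vol_half : (volume (Set.Ico (1 / 2 : ℝ) 1 ∩ Set.Ico (0:ℝ) 1)).toReal = 1 / 2 := by
  have h1 : Set.Ico (1 / 2 : ℝ) 1 ∩ Set.Ico (0:ℝ) 1 = Set.Ico (1 / 2 : ℝ) 1 := by
    apply Set.inter_eq_left.mpr
    exact Set.Ico_subset_Ico_left (by norm_num)
  rw [h1, Real.volume_Ico, ENNReal.toReal_ofReal (by norm_num)]
  norm_num

lemma dl_half : dl (Set.Ico (1 / 2 : ℝ) 1) = 1 / 2 := by
  unfold dl
  rw [vol_half]
  norm_num

/-- The mass of all primes. -/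
lemma mass_primes {c : ℝ} (hc : 0 < c) : Tendsto (fun N : ℕ =>
    (∑ p ∈ (Finset.Icc 1 N).filter Nat.Prime, c / p) / Real.log (Real.log (Real.log N)) ^ 2)
    atTop atTop := by
  obtain ⟨C, hC, hlow⟩ := P4a7640L.mertens_lower
  have hlam : Tendsto (fun N : ℕ => Real.log (Real.log (N:ℝ))) atTop atTop :=
    Real.tendsto_log_atTop.comp (Real.tendsto_log_atTop.comp tendsto_natCast_atTop_atTop)
  have h1 : (fun x : ℝ => Real.log x ^ 2) =o[atTop] (fun x : ℝ => x) := by
    have := isLittleO_log_rpow_rpow_atTop (s := 1) 2 one_pos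
    simpa using this
  rw [tendsto_atTop]
  intro b
  have h2 := h1.bound (c := c / (2 * (|b| + 1))) (by positivity)
  filter_upwards [hlam.eventually h2, hlam.eventually_ge_atTop (2 * C + 2),
    (Real.tendsto_log_atTop.comp hlam).eventually_ge_atTop 1, eventually_ge_atTop 3] with N h3 h4 h5 hN
  set x := Real.log (Real.log (N:ℝ)) with hx
  have h5' : 1 ≤ Real.log x := h5
  have hx0 : 0 < x := by linarith
  have hs := hlow 0 x le_rfl hx0.le ((Finset.Icc 1 N).filter Nat.Prime) (by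
    intro p hp _ hpx
    rw [Finset.mem_filter, Finset.mem_Icc]
    refine ⟨⟨hp.one_lt.le, ?_⟩, hp⟩
    by_contra hcon
    push Not at hcon
    have hN0 : (0:ℝ) < N := by exact_mod_cast (show 0 < N by omega)
    have h6 : Real.log N ≤ Real.log p := Real.log_le_log hN0 (by exact_mod_cast hcon.le)
    have h7 : 0 < Real.log N := Real.log_pos (by exact_mod_cast (show 1 < N by omega))
    have h8 : x ≤ P4a7640L.ll p := Real.log_le_log h7 h6
    linarith)
  rw [neg_zero, Real.exp_zero, mul_one, sub_zero] at hs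
  have hsum : ∑ p ∈ (Finset.Icc 1 N).filter Nat.Prime, c / (p:ℝ) =
      c * ∑ p ∈ (Finset.Icc 1 N).filter Nat.Prime, (1:ℝ) / p := by
    rw [Finset.mul_sum]
    refine Finset.sum_congr rfl fun p _ => ?_
    ring
  rw [Real.norm_eq_abs, Real.norm_eq_abs, abs_of_nonneg (by positivity), abs_of_pos hx0] at h3
  have hl2 : 0 < Real.log x ^ 2 := by positivity
  rw [le_div_iff₀ hl2, hsum]
  have hb1 : 0 < |b| + 1 := by positivity
  calc b * Real.log x ^ 2 ≤ (|b| + 1) * Real.log x ^ 2 := by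
        apply mul_le_mul_of_nonneg_right _ hl2.le
        linarith [le_abs_self b]
    _ ≤ (|b| + 1) * (c / (2 * (|b| + 1)) * x) := mul_le_mul_of_nonneg_left h3 hb1.le
    _ = c * (x / 2) := by field_simp
    _ ≤ c * ∑ p ∈ (Finset.Icc 1 N).filter Nat.Prime, (1:ℝ) / p := by
        apply mul_le_mul_of_nonneg_left _ hc.le
        linarith

end Pool.Agent.Lib.P4a7640Y
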