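import Mathlib
import Pool.Agent.Lib.P4a7640Y.WAE
import Pool.Agent.Lib.P4a7640.Dist

/-!
# Arbitrary bounded weights: stability under perturbations of finite distance
-/

open Filter Topology

namespace Pool.Agent.Lib.P4a7640Y

open Pool.Agent.Lib.P4a7640

/-- residue class weights with a bounded weight -/
lemma LA_periodic_w {w : ℕ → ℝ} {g : ℕ → ℤˣ} (hv : VanishW w g) {H : Finset ℕ} (hne : H.Nonempty)
    (K : ℕ) {P : ℕ → ℝ} {R : ℕ} (hR : 0 < R) (hper : ∀ n, P (n + R) = P n) :
    Tendsto (LA (fun n => w (n + K) * P n * prodSeq g H n)) atTop (𝓝 0) := by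
  have h1 : LA (fun n => w (n + K) * P n * prodSeq g H n) = fun N => ∑ a ∈ Finset.range R,
      P a * LA (fun n => w (n + K) * (if n % R = a then 1 else 0) * prodSeq g H n) N := by
    funext N
    have h2 : (fun n => w (n + K) * P n * prodSeq g H n) = fun n => ∑ a ∈ Finset.range R,
        P a * (w (n + K) * (if n % R = a then 1 else 0) * prodSeq g H n) := by
      funext n
      rw [Finset.sum_eq_single (n % R)]
      · rw [if_pos rfl, mul_one, mod_eq_of_periodic hper]
        ring
      · intro a _ ha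
        rw [if_neg (Ne.symm ha), mul_zero, zero_mul, mul_zero]
      · intro h
        exact absurd (Finset.mem_range.mpr (Nat.mod_lt n hR)) h
    rw [h2, LA_sum]
    refine Finset.sum_congr rfl fun a _ => ?_
    exact LA_const_mul _ _ _
  rw [h1]
  have h3 : Tendsto (fun N => ∑ a ∈ Finset.range R,
      P a * LA (fun n => w (n + K) * (if n % R = a then 1 else 0) * prodSeq g H n) N) atTop
      (𝓝 (∑ a ∈ Finset.range R, P a * 0)) :=
    tendsto_finsetSum _ fun a _ => (hv H hne K R a).const_mul (P a)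
  simpa using h3

/-- the difference of the weighted averages -/
lemma LA_diff_le_w {v : ℕ → ℝ} (hv : ∀ n, |v n| ≤ 1) {f g : ℕ → ℤˣ} (hh : MultS fun n => f n * g n)
    {q : ℕ} (χ : DirichletCharacter ℂ q) (y m : ℕ) (H : Finset ℕ) {N : ℕ} (hN : 2 ≤ N) :
    |LA (fun n => v n * prodSeq f H n) N -
      LA (fun n => v n * ((∏ j ∈ H, PP (fun n => f n * g n) χ y m (n + j)) *
      prodSeq g H n)) N| ≤ ∑ j ∈ H, 2 * ((1 + 3 / Real.log N) *
        EB (fun p => sgC (f p * g p) ≠ χ (p : ZMod q)) y m N + 3 * j / Real.log N) := by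
  set h : ℕ → ℤˣ := fun n => f n * g n with hhd
  set B : ℕ → Prop := fun p => sgC (h p) ≠ χ (p : ZMod q) with hB
  have h1 : LA (fun n => v n * prodSeq f H n) N -
      LA (fun n => v n * ((∏ j ∈ H, PP h χ y m (n + j)) * prodSeq g H n)) N =
      LA (fun n => v n * (prodSeq f H n - (∏ j ∈ H, PP h χ y m (n + j)) *
      prodSeq g H n)) N := by
    have := LA_add (fun n => v n * (prodSeq f H n - (∏ j ∈ H, PP h χ y m (n + j)) * prodSeq g H n))
      (fun n => v n * ((∏ j ∈ H, PP h χ y m (n + j)) * prodSeq g H n)) N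
    simp only [← mul_add, sub_add_cancel] at this
    rw [this]
    ring
  rw [h1]
  refine (abs_LA_le _ N).trans ?_
  have h2 : ∀ n, |v n * (prodSeq f H n - (∏ j ∈ H, PP h χ y m (n + j)) * prodSeq g H n)| ≤
      ∑ j ∈ H, 2 * BI B y m (n + j) := by
    intro n
    rw [abs_mul]
    refine le_trans (mul_le_of_le_one_left (abs_nonneg _) (hv n)) ?_
    refine le_trans (le_of_eq ?_) (prod_PP_close hh χ y m H n)
    have h3 : prodSeq f H n = prodSeq h H n * prodSeq g H n := by
      rw [hhd, prodSeq_mul_fun, mul_assoc, prodSeq_mul, symmDiff_self]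
      unfold prodSeq
      simp
    rw [h3, ← sub_mul, abs_mul, abs_prodSeq, mul_one]
  refine (LA_mono h2 N).trans ?_
  rw [LA_sum]
  refine Finset.sum_le_sum fun j _ => ?_
  have h4 : LA (fun n => 2 * BI B y m (n + j)) N = 2 * LA (fun n => BI B y m (n + j)) N :=
    LA_const_mul _ _ _
  rw [h4]
  apply mul_le_mul_of_nonneg_left _ (by norm_num)
  have h5 := LA_shift (u := BI B y m) (fun n => by
    rw [abs_of_nonneg (BI_nonneg _ _ _ _)]
    exact BI_le_one _ _ _ _) j N
  have h6 := (abs_le.mp h5).2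
  have h7 := LA_BI_le B y m hN
  linarith

/-- Stability with weights: perturbations of finite distance to a Dirichlet character. -/
theorem vanishW_of_finite {w : ℕ → ℝ} (hw : ∀ n, |w n| ≤ 1) {f g : ℕ → ℤˣ} (hf : MultS f)
    (hg : MultS g) {q : ℕ} (hq : 0 < q) {χ : DirichletCharacter ℂ q}
    (hnot : ¬ Tendsto (fun N => DD (fun p => f p * g p) χ 0 N) atTop atTop) (hv : VanishW w g) :
    VanishW w f := by
  have hh : MultS fun n => f n * g n := hf.mul hg
  obtain ⟨c, hc, hPS⟩ := exists_PS_le hq χ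
  rcases tendsto_atTop_of_monotone (DD_mono (fun p => f p * g p) χ) with h1 | ⟨l, hl⟩
  · exact absurd h1 hnot
  set B : ℕ → Prop := fun p => sgC (f p * g p) ≠ χ (p : ZMod q) with hB
  have hle : ∀ M, DD (fun p => f p * g p) χ 0 M ≤ l :=
    fun M => (DD_mono (fun p => f p * g p) χ).ge_of_tendsto hl M
  -- tails
  set τ : ℕ → ℝ := fun y => c * (l - DD (fun p => f p * g p) χ 0 y) with hτ
  have hτ0 : Tendsto τ atTop (𝓝 0) := by
    have := (hl.const_sub l).const_mul c
    simpa using this
  have hPSτ : ∀ y N : ℕ, y ≤ N → PS B y N ≤ τ y := by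
    intro y N hyN
    refine (hPS (fun p => f p * g p) y N).trans ?_
    apply mul_le_mul_of_nonneg_left _ hc.le
    have h3 := DD_add (fun p => f p * g p) χ hyN
    have h4 := hle N
    linarith
  intro H hne K R b
  set v : ℕ → ℝ := fun n => w (n + K) * (if n % R = b then 1 else 0) with hvd
  have hv1 : ∀ n, |v n| ≤ 1 := by
    intro n
    rw [hvd]
    show |w (n + K) * (if n % R = b then 1 else 0)| ≤ 1
    rw [abs_mul]
    split_ifs
    · rw [abs_one, mul_one]; exact hw _
    · rw [abs_zero, mul_zero]; exact zero_le_one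
  show Tendsto (LA (fun n => v n * prodSeq f H n)) atTop (𝓝 0)
  rw [tendsto_zero_iff_abs_tendsto_zero, tendsto_order]
  constructor
  · intro a ha
    exact Eventually.of_forall fun N => ha.trans_le (abs_nonneg _)
  intro ε hε
  -- choose `y`
  have l2 : Tendsto (fun y : ℕ => (y : ℝ) * (1 / 2) ^ y) atTop (𝓝 0) :=
    tendsto_self_mul_const_pow_of_lt_one (r := 1 / 2) (by norm_num) (by norm_num)
  have l3 : Tendsto (fun y : ℕ => 1 / (y : ℝ)) atTop (𝓝 0) :=
    tendsto_natCast_atTop_atTop.const_div_atTop 1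
  have l4 : Tendsto (fun y : ℕ => ∑ _j ∈ H, 2 * (2 * (((y : ℝ) * (1 / 2) ^ y + 1 / (y : ℝ)) + τ y)))
      atTop (𝓝 0) := by
    have l5 : Tendsto (fun y : ℕ => 2 * (2 * (((y : ℝ) * (1 / 2) ^ y + 1 / (y : ℝ)) + τ y))) atTop
        (𝓝 (2 * (2 * ((0 + 0) + 0)))) := (((l2.add l3).add hτ0).const_mul 2).const_mul 2
    have l6 := tendsto_finsetSum H (fun _ _ => l5)
    simpa using l6
  obtain ⟨y, hy1, hy2⟩ := ((l4.eventually (eventually_lt_nhds (show (0:ℝ) < ε / 3 by positivity))).and
    (eventually_ge_atTop 1)).exists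
  -- the main term for this `y`
  have hR0 : 0 < q * QQ y y := Nat.mul_pos hq (QQ_pos y y)
  have hmain : Tendsto (LA (fun n => v n * ((∏ j ∈ H, PP (fun n => f n * g n) χ y y (n + j)) *
      prodSeq g H n))) atTop (𝓝 0) := by
    rcases Nat.eq_zero_or_pos R with hR | hR
    · -- `n % 0 = n`: at most one term
      have h5 : ∀ n, v n = if n = b then w (n + K) else 0 := by
        intro n
        rw [hvd, hR]
        show w (n + K) * (if n % 0 = b then 1 else 0) = _
        rw [Nat.mod_zero]
        split_ifs <;> simp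
      have h6 := tendsto_LA_shift (u := fun n => v n * ((∏ j ∈ H,
        PP (fun n => f n * g n) χ y y (n + j)) * prodSeq g H n)) (by
          intro n
          show |v n * ((∏ j ∈ H, PP (fun n => f n * g n) χ y y (n + j)) * prodSeq g H n)| ≤ 1
          rw [abs_mul (v n), abs_mul (∏ j ∈ H, PP (fun n => f n * g n) χ y y (n + j)), abs_prodSeq,
            mul_one]
          have := abs_prod_PP (fun n => f n * g n) χ y y H n
          calc |v n| * |∏ j ∈ H, PP (fun n => f n * g n) χ y y (n + j)| ≤ 1 * 1 :=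
                mul_le_mul (hv1 n) this (abs_nonneg _) zero_le_one
            _ = 1 := one_mul 1) (b + 1)
      have h7 : ∀ N, LA (fun n => (fun n => v n * ((∏ j ∈ H,
        PP (fun n => f n * g n) χ y y (n + j)) * prodSeq g H n)) (n + (b + 1))) N = 0 := by
        intro N
        unfold LA
        rw [Finset.sum_eq_zero, zero_div]
        intro n _
        show v (n + (b + 1)) * _ / _ = (0:ℝ)
        rw [h5, if_neg (by omega), zero_mul, zero_div]
      have h8 : (fun N => LA (fun n => (fun n => v n * ((∏ j ∈ H,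
        PP (fun n => f n * g n) χ y y (n + j)) * prodSeq g H n)) (n + (b + 1))) N -
          LA (fun n => v n * ((∏ j ∈ H,
        PP (fun n => f n * g n) χ y y (n + j)) * prodSeq g H n)) N) = fun N => -
          LA (fun n => v n * ((∏ j ∈ H,
        PP (fun n => f n * g n) χ y y (n + j)) * prodSeq g H n)) N := by
        funext N
        rw [h7, zero_sub]
      rw [h8] at h6
      simpa using h6.neg
    · have h5 := LA_periodic_w hv hne K (P := fun n => (if n % R = b then (1:ℝ) else 0) *
        ∏ j ∈ H, PP (fun n => f n * g n) χ y y (n + j)) (R := R * (q * QQ y y)) (Nat.mul_pos hR hR0) (by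
          intro n
          have h6 : (n + R * (q * QQ y y)) % R = n % R := Nat.add_mul_mod_self_left _ _ _
          show (if (n + R * (q * QQ y y)) % R = b then (1:ℝ) else 0) *
            ∏ j ∈ H, PP (fun n => f n * g n) χ y y (n + R * (q * QQ y y) + j) = _
          rw [h6]
          congr 1
          have h7 : ∀ k n : ℕ, ∏ j ∈ H, PP (fun n => f n * g n) χ y y (n + k * (q * QQ y y) + j) =
              ∏ j ∈ H, PP (fun n => f n * g n) χ y y (n + j) := by
            intro k
            induction k with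
            | zero => intro n; simp
            | succ k ih =>
              intro n
              rw [show n + (k + 1) * (q * QQ y y) = (n + k * (q * QQ y y)) + q * QQ y y by ring,
                prod_PP_periodic, ih]
          exact h7 R n)
      refine h5.congr fun N => ?_
      congr 1
      funext n
      rw [hvd]
      ring
  have hmain' := (tendsto_zero_iff_abs_tendsto_zero _).mp hmain
  have hlogj : ∀ᶠ N : ℕ in atTop, ∑ j ∈ H, 2 * (3 * (j:ℝ) / Real.log N) < ε / 3 := by
    have l7 : Tendsto (fun N : ℕ => ∑ j ∈ H, 2 * (3 * (j:ℝ) / Real.log N)) atTop (𝓝 0) := by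
      have l8 : ∀ j ∈ H, Tendsto (fun N : ℕ => 2 * (3 * (j:ℝ) / Real.log N)) atTop (𝓝 (2 * 0)) :=
        fun j _ => (tendsto_logN.const_div_atTop _).const_mul 2
      have l9 := tendsto_finsetSum H l8
      simpa using l9
    exact l7.eventually (eventually_lt_nhds (by positivity))
  filter_upwards [hmain'.eventually (eventually_lt_nhds (show (0:ℝ) < ε / 3 by positivity)), hlogj,
    eventually_ge_atTop 2, eventually_ge_atTop y, tendsto_logN.eventually_ge_atTop 3] with N e1 e2 e3 e4 e5
  have hdiff := LA_diff_le_w hv1 hh χ y y H e3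
  have hEB := EB_le B (show 0 < y by omega) e4
  have hPSy := hPSτ y N e4
  have hfac : 1 + 3 / Real.log N ≤ 2 := by
    have : 3 / Real.log N ≤ 1 := by
      rw [div_le_one (by linarith)]
      exact e5
    linarith
  have hfac0 : 0 ≤ 1 + 3 / Real.log N := by
    have : 0 ≤ 3 / Real.log N := by positivity
    linarith
  have hτy : 0 ≤ (y : ℝ) * (1 / 2) ^ y + 1 / (y : ℝ) + τ y := by
    have h5 := PS_nonneg B y N
    have : 0 ≤ (y : ℝ) * (1 / 2) ^ y + 1 / (y : ℝ) := by positivity
    linarith
  have hsum : ∑ j ∈ H, 2 * ((1 + 3 / Real.log N) *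
        EB (fun p => sgC (f p * g p) ≠ χ (p : ZMod q)) y y N + 3 * j / Real.log N) ≤
      ∑ _j ∈ H, 2 * (2 * (((y : ℝ) * (1 / 2) ^ y + 1 / (y : ℝ)) + τ y)) +
        ∑ j ∈ H, 2 * (3 * (j:ℝ) / Real.log N) := by
    rw [← Finset.sum_add_distrib]
    refine Finset.sum_le_sum fun j _ => ?_
    have h6 : (1 + 3 / Real.log N) * EB (fun p => sgC (f p * g p) ≠ χ (p : ZMod q)) y y N ≤
        2 * (((y : ℝ) * (1 / 2) ^ y + 1 / (y : ℝ)) + τ y) := by
      calc _ ≤ (1 + 3 / Real.log N) * (((y : ℝ) * (1 / 2) ^ y + 1 / (y : ℝ)) + τ y) := by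
            apply mul_le_mul_of_nonneg_left _ hfac0
            linarith
        _ ≤ _ := mul_le_mul_of_nonneg_right hfac hτy
    linarith
  have h9 := abs_sub_abs_le_abs_sub (LA (fun n => v n * prodSeq f H n) N)
    (LA (fun n => v n * ((∏ j ∈ H, PP (fun n => f n * g n) χ y y (n + j)) * prodSeq g H n)) N)
  have e1' : |LA (fun n => v n * ((∏ j ∈ H, PP (fun n => f n * g n) χ y y (n + j)) *
      prodSeq g H n)) N| < ε / 3 := e1
  show |LA (fun n => v n * prodSeq f H n) N| < ε
  linarith

end Pool.Agent.Lib.P4a7640Y
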