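import Mathlib
import Pool.Agent.Lib.P4a7640.Furst
import Pool.Agent.Lib.P4a7640Y.WStab
import Pool.Agent.Lib.P4a7640Y.Fin

/-!
# Arbitrary bounded weights: independence of the Bernoulli system and the weight
-/

open MeasureTheory Filter Topology

namespace Pool.Agent.Lib.P4a7640Y

open Pool.Agent.Lib.P4a7640 Pool.Agent.Lib.P4a7640M

/-- the weighted integral `(1/log N) ∑_{n ≤ N} w(n) F(T^n x_f) / n` -/
noncomputable def muW (w : ℕ → ℝ) (f : ℕ → ℤˣ) (N : ℕ) (F : (ℤ → SignType) → ℝ) : ℝ :=
  (∑ n ∈ Finset.Icc 1 N, w n * F (fun i => xf f (i + n)) / n) / Real.log N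

/-- the difference between the weighted integral and the product of the averages -/
noncomputable def dW (w : ℕ → ℝ) (f : ℕ → ℤˣ) (N : ℕ) (F : (ℤ → SignType) → ℝ) : ℝ :=
  muW w f N F - LA w N * EE F

lemma tendsto_dW_mono {w : ℕ → ℝ} (hw : ∀ n, |w n| ≤ 1) {f : ℕ → ℤˣ}
    (h : VanishW w f) (e : ℤ →₀ ℕ) :
    Tendsto (fun N => dW w f N (mono e)) atTop (𝓝 0) := by
  set K : ℕ := e.support.sup Int.natAbs + 1 with hK
  have hKi : ∀ i ∈ e.support, 0 < i + K := by
    intro i hi
    have h1 : i.natAbs ≤ e.support.sup Int.natAbs := Finset.le_sup (f := Int.natAbs) hi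
    omega
  set u : ℕ → ℝ := fun n => mono e (fun i => xf f (i + n)) with hu
  have hu1 : ∀ n, |u n| ≤ 1 := fun n => abs_mono_le _ _
  set T := e.support.filter (fun i => Odd (e i)) with hT
  set H : Finset ℕ := T.image fun i : ℤ => (i + (K : ℤ)).toNat with hH
  have hprod : ∀ n, u (n + K) = prodSeq f H n := by
    intro n
    have h1 : u (n + K) = ∏ i ∈ T, sg (f (n + (i + K).toNat)) := by
      rw [hu, hT]
      show mono e (fun i => xf f (i + ((n + K : ℕ) : ℤ))) = _
      unfold mono Finsupp.prod
      rw [Finset.prod_filter]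
      refine Finset.prod_congr rfl fun i hi => ?_
      have h2 := hKi i hi
      have h3 : 0 < i + ((n + K : ℕ) : ℤ) := by push_cast; omega
      have h4 : (i + ((n + K : ℕ) : ℤ)).toNat = n + (i + K).toNat := by omega
      show ((xf f (i + ((n + K : ℕ) : ℤ)) : SignType) : ℝ) ^ (e i) = _
      unfold xf
      rw [if_pos h3, h4, cast_sign, sg_pow]
    rw [h1, hH]
    unfold prodSeq
    rw [Finset.prod_image]
    intro i hi j hj hij
    have h2 := hKi i (Finset.mem_filter.mp hi).1
    have h3 := hKi j (Finset.mem_filter.mp hj).1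
    have hij' : (i + K).toNat = (j + K).toNat := hij
    omega
  have hwu : ∀ n, |w n * u n| ≤ 1 := by
    intro n
    rw [abs_mul]
    exact mul_le_one₀ (hw n) (abs_nonneg _) (hu1 n)
  have hshift := tendsto_LA_shift hwu K
  have hfun : ∀ N, LA (fun n => (fun n => w n * u n) (n + K)) N =
      LA (fun n => w (n + K) * prodSeq f H n) N := by
    intro N
    congr 1
    funext n
    show w (n + K) * u (n + K) = _
    rw [hprod]
  have hmu : ∀ N, muW w f N (mono e) = LA (fun n => w n * u n) N := fun N => rfl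
  have hlim : Tendsto (fun N => LA (fun n => w (n + K) * prodSeq f H n) N - LA w N * EE (mono e))
      atTop (𝓝 0) := by
    by_cases hne : T.Nonempty
    · obtain ⟨i, hi⟩ := hne
      rw [EE_mono_odd (Finset.mem_filter.mp hi).2]
      have h5 := h H ((Finset.image_nonempty).mpr ⟨i, hi⟩) K 1 0
      refine h5.congr fun N => ?_
      rw [mul_zero, sub_zero]
      congr 1
      funext n
      rw [Nat.mod_one, if_pos rfl, mul_one]
    · rw [Finset.not_nonempty_iff_eq_empty] at hne
      have he : ∀ i, ¬ Odd (e i) := by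
        intro i hodd
        have : i ∈ T := by
          rw [hT, Finset.mem_filter, Finsupp.mem_support_iff]
          refine ⟨?_, hodd⟩
          intro h0
          rw [h0] at hodd
          exact absurd hodd (by decide)
        rw [hne] at this
        exact absurd this (Finset.notMem_empty i)
      rw [EE_mono_even he]
      refine (tendsto_LA_shift hw K).congr fun N => ?_
      rw [mul_one]
      congr 2
      funext n
      rw [hH, hne]
      unfold prodSeq
      simp
  have h3 := hlim.sub hshift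
  rw [sub_zero] at h3
  refine h3.congr fun N => ?_
  unfold dW
  rw [hfun, hmu]
  ring

lemma muW_eq_LA (w : ℕ → ℝ) (f : ℕ → ℤˣ) (N : ℕ) (F : (ℤ → SignType) → ℝ) :
    muW w f N F = LA (fun n => w n * F (fun i => xf f (i + n))) N := rfl

lemma muW_add (w : ℕ → ℝ) (f : ℕ → ℤˣ) (N : ℕ) (F G : (ℤ → SignType) → ℝ) :
    muW w f N (fun x => F x + G x) = muW w f N F + muW w f N G := by
  rw [muW_eq_LA, muW_eq_LA, muW_eq_LA, ← LA_add]
  congr 1
  funext n
  ring

lemma muW_const_mul (w : ℕ → ℝ) (f : ℕ → ℤˣ) (N : ℕ) (c : ℝ) (F : (ℤ → SignType) → ℝ) :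
    muW w f N (fun x => c * F x) = c * muW w f N F := by
  rw [muW_eq_LA, muW_eq_LA, ← LA_const_mul]
  congr 1
  funext n
  ring

/-- The system of `f` is the fair coin and independent of the weight. -/
theorem indep_of_vanishW {w : ℕ → ℝ} (hw : ∀ n, |w n| ≤ 1) {f : ℕ → ℤˣ} (h : VanishW w f) :
    ∀ F : (ℤ → SignType) → ℝ, Continuous F → Tendsto (fun N => dW w f N F) atTop (𝓝 0) := by
  set A : Subalgebra ℝ C(ℤ → SignType, ℝ) := Algebra.adjoin ℝ (Set.range P4a7640.cc) with hA
  have hsep : A.SeparatesPoints := by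
    intro x y hxy
    obtain ⟨i, hi⟩ := Function.ne_iff.mp hxy
    refine ⟨P4a7640.cc i, ⟨P4a7640.cc i, Algebra.subset_adjoin ⟨i, rfl⟩, rfl⟩, ?_⟩
    show ((x i : SignType) : ℝ) ≠ ((y i : SignType) : ℝ)
    intro h1
    apply hi
    revert h1
    generalize x i = a
    generalize y i = b
    cases a <;> cases b <;> simp <;> norm_num
  have hmon : ∀ G ∈ Submonoid.closure (Set.range P4a7640.cc), ∃ e : ℤ →₀ ℕ, ∀ x, G x = mono e x := by
    intro G hG
    induction hG using Submonoid.closure_induction with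
    | mem G hG =>
      obtain ⟨i, rfl⟩ := hG
      refine ⟨Finsupp.single i 1, fun x => ?_⟩
      unfold mono
      rw [Finsupp.prod_single_index (h := fun i k => ((x i : SignType) : ℝ) ^ k) (pow_zero _),
        pow_one]
      rfl
    | one =>
      refine ⟨0, fun x => ?_⟩
      unfold mono
      rw [Finsupp.prod_zero_index]
      rfl
    | mul G G' _ _ ih ih' =>
      obtain ⟨e, he⟩ := ih
      obtain ⟨d, hd⟩ := ih'
      refine ⟨e + d, fun x => ?_⟩
      rw [mono_add, ← he, ← hd]
      rfl
  have hAlg : ∀ G ∈ A, Tendsto (fun N => dW w f N G) atTop (𝓝 0) := by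
    intro G hG
    rw [hA, ← Subalgebra.mem_toSubmodule, Algebra.adjoin_eq_span] at hG
    induction hG using Submodule.span_induction with
    | mem G hG =>
      obtain ⟨e, he⟩ := hmon G hG
      have : (G : (ℤ → SignType) → ℝ) = mono e := funext he
      rw [this]
      exact tendsto_dW_mono hw h e
    | zero =>
      have h1 : ((0 : C(ℤ → SignType, ℝ)) : (ℤ → SignType) → ℝ) = fun _ => 0 := rfl
      rw [h1]
      have h2 : EE (fun _ => 0) = 0 := by
        unfold EE
        simp
      have h3 : ∀ N, dW w f N (fun _ => 0) = 0 := by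
        intro N
        unfold dW muW
        rw [h2]
        simp
      simp only [h3]
      exact tendsto_const_nhds
    | add G G' _ _ ih ih' =>
      have h1 : ((G + G' : C(ℤ → SignType, ℝ)) : (ℤ → SignType) → ℝ) = fun x => G x + G' x := rfl
      have h2 := ih.add ih'
      rw [add_zero] at h2
      refine h2.congr fun N => ?_
      unfold dW
      rw [h1, EE_add G.continuous G'.continuous, muW_add]
      ring
    | smul c G _ ih =>
      have h1 : ((c • G : C(ℤ → SignType, ℝ)) : (ℤ → SignType) → ℝ) = fun x => c * G x := rfl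
      have h2 := ih.const_mul c
      rw [mul_zero] at h2
      refine h2.congr fun N => ?_
      unfold dW
      rw [h1, EE_const_mul, muW_const_mul]
      ring
  intro F hF
  rw [Metric.tendsto_nhds]
  intro ε hε
  obtain ⟨⟨G, hG⟩, hGF⟩ := ContinuousMap.exists_mem_subalgebra_near_continuousMap_of_separatesPoints
    A hsep ⟨F, hF⟩ (ε / 8) (by positivity)
  have hclose : ∀ x, |G x - F x| ≤ ε / 8 := by
    intro x
    have h1 := ContinuousMap.norm_coe_le_norm (G - (⟨F, hF⟩ : C(ℤ → SignType, ℝ))) x
    have h2 : (G - (⟨F, hF⟩ : C(ℤ → SignType, ℝ))) x = G x - F x := rfl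
    rw [h2, Real.norm_eq_abs] at h1
    exact h1.trans hGF.le
  have hEE : |EE G - EE F| ≤ ε / 8 := by
    have h1 : EE G - EE F = EE (fun x => G x - F x) := by
      unfold EE
      rw [← integral_sub (integrable_comp G.continuous) (integrable_comp hF)]
    rw [h1]
    unfold EE
    have h2 := norm_integral_le_of_norm_le_const (μ := Measure.infinitePi (fun _ : ℤ => coin))
      (f := fun ω : ℤ → ℤˣ => G (fun i => SignType.sign ((ω i : ℤˣ) : ℤ)) -
        F (fun i => SignType.sign ((ω i : ℤˣ) : ℤ))) (C := ε / 8)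
      (Eventually.of_forall fun ω => by
        rw [Real.norm_eq_abs]
        exact hclose _)
    simpa using h2
  have hN2 : ∀ᶠ N in atTop, LA (fun _ => 1) N ≤ 2 :=
    tendsto_LA_one.eventually (eventually_le_nhds (by norm_num))
  have hG' := Metric.tendsto_nhds.mp (hAlg G hG) (ε / 4) (by positivity)
  filter_upwards [hN2, hG'] with N h1 h2
  rw [Real.dist_eq, sub_zero] at h2 ⊢
  have h3 : |muW w f N G - muW w f N F| ≤ ε / 8 * 2 := by
    have h4 : muW w f N G - muW w f N F = LA (fun n => w n * (G (fun i => xf f (i + n)) -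
        F (fun i => xf f (i + n)))) N := by
      unfold muW LA
      rw [← sub_div, ← Finset.sum_sub_distrib]
      congr 1
      refine Finset.sum_congr rfl fun n _ => ?_
      show _ = w n * (G (fun i => xf f (i + n)) - F (fun i => xf f (i + n))) / n
      ring
    rw [h4]
    refine (abs_LA_le _ N).trans ?_
    have h5 : LA (fun n => |w n * (G (fun i => xf f (i + n)) - F (fun i => xf f (i + n)))|) N ≤
        LA (fun _ => ε / 8 * 1) N := LA_mono (fun n => by
          rw [mul_one, abs_mul]
          calc |w n| * |G (fun i => xf f (i + n)) - F (fun i => xf f (i + n))| ≤ 1 * (ε / 8) :=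
                mul_le_mul (hw n) (hclose _) (abs_nonneg _) zero_le_one
            _ = ε / 8 := one_mul _) N
    refine h5.trans ?_
    rw [LA_const_mul]
    exact mul_le_mul_of_nonneg_left h1 (by positivity)
  have h6 : |LA w N| ≤ 2 := by
    refine (abs_LA_le _ N).trans ((LA_mono (b := fun _ => 1) (fun n => hw n) N).trans h1)
  have h7 : |LA w N * (EE G - EE F)| ≤ 2 * (ε / 8) := by
    rw [abs_mul]
    exact mul_le_mul h6 hEE (abs_nonneg _) (by norm_num)
  have h4 : dW w f N F = dW w f N G - (muW w f N G - muW w f N F) +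
      LA w N * (EE G - EE F) := by
    unfold dW
    ring
  rw [h4]
  calc |dW w f N G - (muW w f N G - muW w f N F) + LA w N * (EE G - EE F)|
      ≤ |dW w f N G - (muW w f N G - muW w f N F)| + |LA w N * (EE G - EE F)| := abs_add_le _ _
    _ ≤ |dW w f N G| + |muW w f N G - muW w f N F| + |LA w N * (EE G - EE F)| := by
        have := abs_sub (dW w f N G) (muW w f N G - muW w f N F)
        linarith
    _ < ε := by linarith

/-- **The conclusion with weights.**  For every bounded `w` (fixed in advance) and almost every real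
number `α`, every multiplicative `f` at finite distance from `g · x(α) · χ` is aperiodic, its unique
Furstenberg system is the fair coin, and it is independent of `w`. -/
theorem main_of_moment_w {A : ℕ → Set ℝ} {a : ℕ → ℕ} (hA : ∀ p, MeasurableSet (A p))
    (hm : ∀ H : Finset ℕ, H.Nonempty → ∃ B : ℝ, 0 < B ∧ ∀ᶠ N : ℕ in atTop,
      ∀ w : ℕ → ℝ, (∀ n, |w n| ≤ 1) → ∀ u : ℝ,
        ∫ α in u..(u + 1), FF w H N (xg A a α) ^ 2 ≤ B / lam N ^ 4) (g : ℕ → ℤˣ) (hg : MultS g)
    {w : ℕ → ℝ} {C : ℝ} (hw : ∀ n, |w n| ≤ C) :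
    ∀ᵐ α : ℝ, ∀ f : ℕ → ℤˣ, MultS f →
      (∃ q : ℕ, 0 < q ∧ ∃ χ : DirichletCharacter ℂ q,
        ¬ Tendsto (fun N => DD (fun p => f p * (g p * xg A a α p)) χ 0 N) atTop atTop) →
      Aperiodic f ∧ FairSystem f ∧
        ∀ F : (ℤ → SignType) → ℝ, Continuous F → Tendsto (fun N => dW w f N F) atTop (𝓝 0) := by
  set C' : ℝ := |C| + 1 with hC'
  have hC'0 : 0 < C' := by positivity
  have hw' : ∀ n, |w n / C'| ≤ 1 := by
    intro n
    rw [abs_div, abs_of_pos hC'0, div_le_one hC'0]
    have := hw n
    linarith [le_abs_self C]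
  have h1w : ∀ n : ℕ, |(fun _ : ℕ => (1:ℝ)) n| ≤ 1 := fun n => by simp
  filter_upwards [ae_of_moment hA hm g, ae_vanishW hA hm hw' g] with α hα hαw f hf hfp
  obtain ⟨q, hq, χ, hnot⟩ := hfp
  have hmu : MultS fun n => g n * rnd (xg A a α) n :=
    hg.mul fun m n hm hn _ => rnd_mul _ hm.ne' hn.ne'
  have hrp : ∀ p : ℕ, p.Prime → rnd (xg A a α) p = xg A a α p := by
    intro p hp
    unfold rnd
    rw [hp.factorization, Finsupp.prod_single_index (by simp), pow_one]
  have hDD : (fun N => DD (fun p => f p * (g p * rnd (xg A a α) p)) χ 0 N) =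
      fun N => DD (fun p => f p * (g p * xg A a α p)) χ 0 N := by
    funext N
    unfold DD
    refine Finset.sum_congr rfl fun p hp => ?_
    simp only [hrp p (Finset.mem_filter.mp hp).2]
  have hnot' : ¬ Tendsto (fun N => DD (fun p => f p * (g p * rnd (xg A a α) p)) χ 0 N) atTop atTop := by
    rw [hDD]
    exact hnot
  have hvf : Vanish f := (vanish_iff_of_finite hf hmu hq hnot').mpr hα
  refine ⟨hvf.aperiodic hf, fairAlong_of_vanish le_rfl hvf, ?_⟩
  intro F hF
  have hvw : VanishW (fun n => w n / C') f := vanishW_of_finite hw' hf hmu hq hnot' hαw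
  have h2 := (indep_of_vanishW hw' hvw F hF).const_mul C'
  rw [mul_zero] at h2
  refine h2.congr fun N => ?_
  unfold dW
  have h3 : muW (fun n => w n / C') f N F = muW w f N F / C' := by
    rw [muW_eq_LA, muW_eq_LA, div_eq_inv_mul, ← LA_const_mul]
    congr 1
    funext n
    rw [div_eq_inv_mul, mul_assoc]
  have h4 : LA (fun n => w n / C') N = LA w N / C' := by
    rw [div_eq_inv_mul, ← LA_const_mul]
    congr 1
    funext n
    rw [div_eq_inv_mul]
  rw [h3, h4]
  field_simp

end Pool.Agent.Lib.P4a7640Y
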