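import Mathlib
import Pool.Agent.Lib.P4a7640Y.Moment
import Pool.Agent.Lib.P4a7640Y.Fin
import Pool.Agent.Lib.P4a7640Y.WFair

/-!
# The general form and the special case
-/

open MeasureTheory Filter Topology

namespace Pool.Agent.Lib.P4a7640Y

open Pool.Agent.Lib.P4a7640 Pool.Agent.Lib.P4a7640M

lemma kint_empty (k : ℕ) : KInt k ∅ := ⟨∅, by simp, by simp, by simp⟩

lemma kint_half : KInt 1 (Set.Ico (1 / 2 : ℝ) 1) := by
  refine ⟨{Set.Ico (1 / 2 : ℝ) 1}, by simp, ?_, by simp⟩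
  intro J hJ
  rw [Finset.mem_singleton] at hJ
  rw [hJ]
  exact Set.ordConnected_Ico

lemma KInt.meas {k : ℕ} {A : Set ℝ} (hA : KInt k A) : MeasurableSet A := by
  obtain ⟨s, _, hs, rfl⟩ := hA
  exact Finset.measurableSet_biUnion s fun J hJ => (hs J hJ).measurableSet

/-- The general form. -/
theorem general (g : ℕ → ℤˣ) (hg : MultS g) (k : ℕ) (a : ℕ → ℕ) (A : ℕ → Set ℝ)
    (ha : ∀ p : ℕ, p.Prime → 0 < a p)
    (hk : ∀ (n : ℕ) (s : Finset ℕ), (∀ p ∈ s, p.Prime ∧ a p = n) → s.card ≤ k)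
    (hA : ∀ p : ℕ, p.Prime → KInt k (A p))
    (hM : Tendsto (fun N : ℕ => (∑ p ∈ (Finset.Icc 1 N).filter Nat.Prime, dl (A p) / p) /
      Real.log (Real.log (Real.log N)) ^ 2) atTop atTop)
    {w : ℕ → ℝ} {C : ℝ} (hw : ∀ n, |w n| ≤ C) :
    ∀ᵐ α : ℝ, ∀ f : ℕ → ℤˣ, MultS f →
      (∃ q : ℕ, 0 < q ∧ ∃ χ : DirichletCharacter ℂ q,
        ¬ Tendsto (fun N => DD (fun p => f p * (g p * xg A a α p)) χ 0 N) atTop atTop) →
      Aperiodic f ∧ FairSystem f ∧
        ∀ F : (ℤ → SignType) → ℝ, Continuous F →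
          Tendsto (fun N => muW w f N F - LA w N * EE F) atTop (𝓝 0) := by
  classical
  set A' : ℕ → Set ℝ := fun p => if p.Prime then A p else ∅ with hA'
  have hA1 : ∀ p : ℕ, p.Prime → A' p = A p := fun p hp => if_pos hp
  have hK : ∀ p, KInt k (A' p) := by
    intro p
    by_cases hp : p.Prime
    · rw [hA1 p hp]
      exact hA p hp
    · rw [show A' p = ∅ from if_neg hp]
      exact kint_empty k
  have hM' : Tendsto (fun N : ℕ => (∑ p ∈ (Finset.Icc 1 N).filter Nat.Prime, dl (A' p) / p) /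
      Real.log (Real.log (Real.log N)) ^ 2) atTop atTop := by
    refine hM.congr fun N => ?_
    congr 1
    refine Finset.sum_congr rfl fun p hp => ?_
    rw [hA1 p (Finset.mem_filter.mp hp).2]
  filter_upwards [main_of_moment_w (fun p => (hK p).meas)
    (fun H hH => moment_bound ha hk hK hM' hH) g hg hw] with α hα f hf hfp
  apply hα f hf
  obtain ⟨q, hq, χ, hnot⟩ := hfp
  refine ⟨q, hq, χ, fun hcon => hnot (hcon.congr fun N => ?_)⟩
  unfold DD
  refine Finset.sum_congr rfl fun p hp => ?_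
  have hx : xg A' a α p = xg A a α p := by
    unfold xg
    rw [hA1 p (Finset.mem_filter.mp hp).2]
  simp only [hx]

/-- The distance to the character modulo `1` of a function that is `1` at the primes. -/
lemma not_tendsto_DD_one {h : ℕ → ℤˣ} (hh : ∀ p : ℕ, p.Prime → h p = 1) :
    ¬ Tendsto (fun N => DD h (1 : DirichletCharacter ℂ 1) 0 N) atTop atTop := by
  have h0 : (fun N : ℕ => DD h (1 : DirichletCharacter ℂ 1) 0 N) = fun _ => 0 := by
    funext N
    unfold DD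
    apply Finset.sum_eq_zero
    intro p hp
    have h2 : (1 : DirichletCharacter ℂ 1) ((p : ℕ) : ZMod 1) = 1 := by
      apply MulChar.one_apply
      rw [Subsingleton.elim ((p : ℕ) : ZMod 1) 1]
      exact isUnit_one
    rw [hh p (Finset.mem_filter.mp hp).2, h2]
    simp
  rw [h0]
  intro hcon
  have := hcon.eventually_ge_atTop 1
  obtain ⟨N, hN⟩ := this.exists
  norm_num at hN

/-- The special case `(-1)^⌊α a_p⌋`. -/
theorem special (g : ℕ → ℤˣ) (hg : MultS g) (a : ℕ → ℕ) (ha : ∀ p : ℕ, p.Prime → 0 < a p)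
    (hinj : ∀ p q : ℕ, p.Prime → q.Prime → a p = a q → p = q) :
    ∀ᵐ α : ℝ, ∀ f : ℕ → ℤˣ, MultS f →
      (∀ p : ℕ, p.Prime → f p = g p * (-1) ^ ⌊α * a p⌋) → Aperiodic f ∧ FairSystem f := by
  have hk : ∀ (n : ℕ) (s : Finset ℕ), (∀ p ∈ s, p.Prime ∧ a p = n) → s.card ≤ 1 := by
    intro n s hs
    rw [Finset.card_le_one]
    intro p hp q hq
    exact hinj p q (hs p hp).1 (hs q hq).1 ((hs p hp).2.trans (hs q hq).2.symm)
  have hM : Tendsto (fun N : ℕ => (∑ p ∈ (Finset.Icc 1 N).filter Nat.Prime,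
      dl (Set.Ico (1 / 2 : ℝ) 1) / p) / Real.log (Real.log (Real.log N)) ^ 2) atTop atTop := by
    rw [dl_half]
    exact mass_primes (by norm_num)
  have h1 := general g hg 1 a (fun _ => Set.Ico (1 / 2 : ℝ) 1) ha hk (fun _ _ => kint_half) hM
    (w := fun _ => 0) (C := 0) (fun n => by simp)
  filter_upwards [ae_half h1] with α hα f hf hfp
  have h2 := hα f hf ⟨1, one_pos, 1, not_tendsto_DD_one fun p hp => by
    rw [hfp p hp, neg_one_floor]
    unfold xg
    split_ifs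
    · rw [Int.units_mul_self]
    · rw [Int.units_mul_self]⟩
  exact ⟨h2.1, h2.2.1⟩

end Pool.Agent.Lib.P4a7640Y
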